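import Mathlib

/-!
MP_fb225e_nt, project ZD, module Z8: the mean value of a Dirichlet polynomial with a Gaussian
kernel.
-/

namespace Pool.Agent.MPfb225e.Zd

open Complex MeasureTheory
open scoped ComplexConjugate

/-- The Fourier transform of the Gaussian kernel `exp (-(t / T) ^ 2)`. -/
theorem gauss_fourier (T : ℝ) (hT : 0 < T) (x : ℝ) :
    ∫ t : ℝ, cexp (-(t * x : ℝ) * I) * cexp (-((T ^ 2)⁻¹ : ℝ) * t ^ 2) =
      ((Real.sqrt Real.pi * T * Real.exp (-(x * T) ^ 2 / 4) : ℝ) : ℂ) := by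
  have hT2 : 0 < (T ^ 2)⁻¹ := by positivity
  have h := fourierIntegral_gaussian (b := (((T ^ 2)⁻¹ : ℝ) : ℂ)) (by rw [Complex.ofReal_re]; exact hT2) (-(x : ℂ))
  have e1 : ∀ t : ℝ, cexp (-(t * x : ℝ) * I) * cexp (-((T ^ 2)⁻¹ : ℝ) * t ^ 2) =
      cexp (I * -(x : ℂ) * t) * cexp (-(((T ^ 2)⁻¹ : ℝ) : ℂ) * t ^ 2) := by
    intro t
    congr 2
    push_cast
    ring
  simp_rw [e1]
  rw [h]
  have e2 : ((Real.pi : ℂ) / (((T ^ 2)⁻¹ : ℝ) : ℂ)) ^ (1 / 2 : ℂ) =
      ((Real.sqrt Real.pi * T : ℝ) : ℂ) := by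
    have e3 : ((Real.pi : ℂ) / (((T ^ 2)⁻¹ : ℝ) : ℂ)) = ((Real.pi * T ^ 2 : ℝ) : ℂ) := by
      push_cast
      field_simp
    rw [e3]
    have e4 : (1 / 2 : ℂ) = ((1 / 2 : ℝ) : ℂ) := by push_cast; rfl
    rw [e4, ← Complex.ofReal_cpow (by positivity)]
    congr 1
    rw [← Real.sqrt_eq_rpow, Real.sqrt_mul (by positivity), Real.sqrt_sq hT.le]
  rw [e2]
  push_cast
  congr 2
  field_simp
  
/-- `e √π ≤ 5`. -/
theorem exp_mul_sqrt_pi_le : Real.exp 1 * Real.sqrt Real.pi ≤ 5 := by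
  have h1 : Real.exp 1 < 2.7182818286 := Real.exp_one_lt_d9
  have h2 : Real.sqrt Real.pi ≤ 1.8 := by
    rw [Real.sqrt_le_left (by norm_num)]
    have := Real.pi_lt_d2
    norm_num
    linarith
  have h3 : 0 ≤ Real.sqrt Real.pi := Real.sqrt_nonneg _
  nlinarith [Real.exp_pos 1]

theorem integrable_term (T : ℝ) (hT : 0 < T) (x : ℝ) :
    Integrable (fun t : ℝ => cexp (-(t * x : ℝ) * I) * cexp (-((T ^ 2)⁻¹ : ℝ) * t ^ 2)) := by
  have hT2 : 0 < (T ^ 2)⁻¹ := by positivity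
  have h := integrable_cexp_neg_mul_sq (b := (((T ^ 2)⁻¹ : ℝ) : ℂ)) (by rw [Complex.ofReal_re]; exact hT2)
  refine h.bdd_mul (c := 1) ?_ ?_
  · exact (by fun_prop : Continuous fun t : ℝ => cexp (-(t * x : ℝ) * I)).aestronglyMeasurable
  · refine Filter.Eventually.of_forall fun t => ?_
    have : (-(t * x : ℝ) * I : ℂ) = ((-(t * x) : ℝ) : ℂ) * I := by push_cast; ring
    rw [this, Complex.norm_exp_ofReal_mul_I]

/-- Z8 (file Zd/MeanValue.lean). The mean value of a Dirichlet polynomial. -/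
theorem mean_value {ι : Type*} (P : Finset ι) (lam w j : ι → ℝ) (c : ι → ℂ) (T B : ℝ)
    (hT : 0 < T) (hw : ∀ i, 0 ≤ w i) (hj : ∀ i, 0 ≤ j i) (hc : ∀ i ∈ P, ‖c i‖ ≤ w i * j i)
    (hB : ∀ i ∈ P, ∑ k ∈ P, w k * Real.exp (-((lam k - lam i) * T) ^ 2 / 4) ≤ B) :
    ∫ t : ℝ in (-T)..T, ‖∑ i ∈ P, c i * cexp (-(t * lam i : ℝ) * I)‖ ^ 2 ≤
      5 * T * B * ∑ i ∈ P, w i * j i ^ 2 := by
  classical
  set S : ℝ → ℂ := fun t => ∑ i ∈ P, c i * cexp (-(t * lam i : ℝ) * I) with hS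
  set E : ι → ι → ℝ := fun i k => Real.exp (-((lam k - lam i) * T) ^ 2 / 4) with hE
  have hEsymm : ∀ i k, E i k = E k i := by
    intro i k
    simp only [hE]
    congr 1
    ring
  have hEpos : ∀ i k, 0 < E i k := fun i k => Real.exp_pos _
  -- the expansion of the square
  have hexp : ∀ t : ℝ, ((Real.exp (-((T ^ 2)⁻¹ * t ^ 2)) * ‖S t‖ ^ 2 : ℝ) : ℂ) =
      ∑ i ∈ P, ∑ k ∈ P, (c i * conj (c k)) *
        (cexp (-(t * (lam i - lam k) : ℝ) * I) * cexp (-((T ^ 2)⁻¹ : ℝ) * t ^ 2)) := by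
    intro t
    have h1 : ((‖S t‖ ^ 2 : ℝ) : ℂ) = S t * conj (S t) := by
      rw [Complex.mul_conj, Complex.normSq_eq_norm_sq]
    have h2 : ((Real.exp (-((T ^ 2)⁻¹ * t ^ 2)) : ℝ) : ℂ) = cexp (-((T ^ 2)⁻¹ : ℝ) * t ^ 2) := by
      push_cast
      congr 1
      ring
    rw [Complex.ofReal_mul, h1, h2]
    simp only [hS, map_sum, map_mul]
    rw [Finset.sum_mul_sum, Finset.mul_sum]
    refine Finset.sum_congr rfl fun i _ => ?_
    rw [Finset.mul_sum]
    refine Finset.sum_congr rfl fun k _ => ?_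
    rw [← Complex.exp_conj]
    have h3 : cexp (-(t * (lam i - lam k) : ℝ) * I) =
        cexp (-(t * lam i : ℝ) * I) * cexp (conj (-(t * lam k : ℝ) * I)) := by
      rw [← Complex.exp_add]
      congr 1
      simp only [map_mul, map_neg, Complex.conj_I, Complex.conj_ofReal]
      push_cast
      ring
    rw [h3]
    ring
  have hint : Integrable (fun t : ℝ => Real.exp (-((T ^ 2)⁻¹ * t ^ 2)) * ‖S t‖ ^ 2) := by
    have h1 : Integrable (fun t : ℝ =>
        ((Real.exp (-((T ^ 2)⁻¹ * t ^ 2)) * ‖S t‖ ^ 2 : ℝ) : ℂ)) := by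
      simp_rw [hexp]
      refine integrable_finsetSum _ fun i _ => integrable_finsetSum _ fun k _ => ?_
      exact (integrable_term T hT (lam i - lam k)).const_mul _
    exact h1.re
  have hval : ((∫ t : ℝ, Real.exp (-((T ^ 2)⁻¹ * t ^ 2)) * ‖S t‖ ^ 2 : ℝ) : ℂ) =
      ∑ i ∈ P, ∑ k ∈ P, (c i * conj (c k)) *
        ((Real.sqrt Real.pi * T * E i k : ℝ) : ℂ) := by
    rw [← integral_complex_ofReal]
    simp_rw [hexp]
    rw [integral_finsetSum]
    · refine Finset.sum_congr rfl fun i _ => ?_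
      rw [integral_finsetSum]
      · refine Finset.sum_congr rfl fun k _ => ?_
        rw [integral_const_mul, gauss_fourier T hT, hEsymm]
      · intro k _
        exact (integrable_term T hT (lam i - lam k)).const_mul _
    · intro i _
      refine integrable_finsetSum _ fun k _ => ?_
      exact (integrable_term T hT (lam i - lam k)).const_mul _
  -- the bound
  have hbound : (∫ t : ℝ, Real.exp (-((T ^ 2)⁻¹ * t ^ 2)) * ‖S t‖ ^ 2) ≤
      Real.sqrt Real.pi * T * (B * ∑ i ∈ P, w i * j i ^ 2) := by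
    have h0 : 0 ≤ ∫ t : ℝ, Real.exp (-((T ^ 2)⁻¹ * t ^ 2)) * ‖S t‖ ^ 2 :=
      integral_nonneg fun t => by positivity
    have h1 : (∫ t : ℝ, Real.exp (-((T ^ 2)⁻¹ * t ^ 2)) * ‖S t‖ ^ 2) ≤
        ∑ i ∈ P, ∑ k ∈ P, (‖c i‖ * ‖c k‖) * (Real.sqrt Real.pi * T * E i k) := by
      rw [← abs_of_nonneg h0, ← Real.norm_eq_abs, ← Complex.norm_real, hval]
      refine (norm_sum_le _ _).trans (Finset.sum_le_sum fun i _ => ?_)
      refine (norm_sum_le _ _).trans (Finset.sum_le_sum fun k _ => ?_)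
      rw [norm_mul, norm_mul, RCLike.norm_conj, Complex.norm_real, Real.norm_eq_abs,
        abs_of_nonneg]
      have := hEpos i k
      positivity
    have h2 : ∑ i ∈ P, ∑ k ∈ P, (‖c i‖ * ‖c k‖) * (Real.sqrt Real.pi * T * E i k) ≤
        ∑ i ∈ P, ∑ k ∈ P, (Real.sqrt Real.pi * T) *
          ((w i * j i ^ 2 * (w k * E i k) + w k * j k ^ 2 * (w i * E k i)) / 2) := by
      refine Finset.sum_le_sum fun i hi => Finset.sum_le_sum fun k hk => ?_
      have hEk := (hEpos i k).le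
      have hci := hc i hi
      have hck := hc k hk
      have hA : ‖c i‖ * ‖c k‖ ≤ (w i * j i) * (w k * j k) :=
        mul_le_mul hci hck (norm_nonneg _) (mul_nonneg (hw i) (hj i))
      have hB' : (w i * j i) * (w k * j k) ≤ w i * w k * ((j i ^ 2 + j k ^ 2) / 2) := by
        have hwik : 0 ≤ w i * w k := mul_nonneg (hw i) (hw k)
        nlinarith [mul_nonneg hwik (sq_nonneg (j i - j k))]
      have hC : 0 ≤ Real.sqrt Real.pi * T := by positivity
      calc (‖c i‖ * ‖c k‖) * (Real.sqrt Real.pi * T * E i k)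
          ≤ (w i * w k * ((j i ^ 2 + j k ^ 2) / 2)) * (Real.sqrt Real.pi * T * E i k) :=
            mul_le_mul_of_nonneg_right (hA.trans hB') (mul_nonneg hC hEk)
        _ = (Real.sqrt Real.pi * T) *
          ((w i * j i ^ 2 * (w k * E i k) + w k * j k ^ 2 * (w i * E k i)) / 2) := by
            rw [hEsymm k i]; ring
    have h3 : ∑ i ∈ P, ∑ k ∈ P, (Real.sqrt Real.pi * T) *
          ((w i * j i ^ 2 * (w k * E i k) + w k * j k ^ 2 * (w i * E k i)) / 2) =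
        (Real.sqrt Real.pi * T) * ∑ i ∈ P, (w i * j i ^ 2) * ∑ k ∈ P, w k * E i k := by
      have e1 : ∑ i ∈ P, ∑ k ∈ P, w k * j k ^ 2 * (w i * E k i) =
          ∑ i ∈ P, ∑ k ∈ P, w i * j i ^ 2 * (w k * E i k) := Finset.sum_comm
      have e2 : ∑ i ∈ P, (w i * j i ^ 2) * ∑ k ∈ P, w k * E i k =
          ∑ i ∈ P, ∑ k ∈ P, w i * j i ^ 2 * (w k * E i k) := by
        refine Finset.sum_congr rfl fun i _ => ?_
        rw [Finset.mul_sum]
      rw [e2]
      simp_rw [← Finset.mul_sum, ← Finset.sum_div]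
      congr 1
      simp_rw [Finset.sum_add_distrib]
      rw [e1]
      simp_rw [Finset.mul_sum]
      ring
    have h4 : ∑ i ∈ P, (w i * j i ^ 2) * ∑ k ∈ P, w k * E i k ≤
        ∑ i ∈ P, (w i * j i ^ 2) * B := by
      refine Finset.sum_le_sum fun i hi => ?_
      exact mul_le_mul_of_nonneg_left (hB i hi) (mul_nonneg (hw i) (sq_nonneg _))
    calc (∫ t : ℝ, Real.exp (-((T ^ 2)⁻¹ * t ^ 2)) * ‖S t‖ ^ 2)
        ≤ (Real.sqrt Real.pi * T) * ∑ i ∈ P, (w i * j i ^ 2) * ∑ k ∈ P, w k * E i k := by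
          rw [← h3]; exact h1.trans h2
      _ ≤ (Real.sqrt Real.pi * T) * ∑ i ∈ P, (w i * j i ^ 2) * B :=
          mul_le_mul_of_nonneg_left h4 (by positivity)
      _ = Real.sqrt Real.pi * T * (B * ∑ i ∈ P, w i * j i ^ 2) := by
          rw [← Finset.sum_mul]; ring
  -- the comparison with the Gaussian
  have hScont : Continuous S := by
    simp only [hS]
    fun_prop
  have hcomp : ∫ t : ℝ in (-T)..T, ‖S t‖ ^ 2 ≤
      Real.exp 1 * ∫ t : ℝ, Real.exp (-((T ^ 2)⁻¹ * t ^ 2)) * ‖S t‖ ^ 2 := by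
    have hle : (-T) ≤ T := by linarith
    have h1 : ∫ t : ℝ in (-T)..T, ‖S t‖ ^ 2 ≤
        ∫ t : ℝ in (-T)..T, Real.exp 1 * (Real.exp (-((T ^ 2)⁻¹ * t ^ 2)) * ‖S t‖ ^ 2) := by
      refine intervalIntegral.integral_mono_on hle ?_ ?_ ?_
      · exact (by fun_prop : Continuous fun t => ‖S t‖ ^ 2).intervalIntegrable _ _
      · exact (by fun_prop : Continuous fun t : ℝ =>
          Real.exp 1 * (Real.exp (-((T ^ 2)⁻¹ * t ^ 2)) * ‖S t‖ ^ 2)).intervalIntegrable _ _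
      · intro t ht
        have ht2 : t ^ 2 ≤ T ^ 2 := by
          apply sq_le_sq'
          · exact ht.1
          · exact ht.2
        have h5 : 1 ≤ Real.exp 1 * Real.exp (-((T ^ 2)⁻¹ * t ^ 2)) := by
          rw [← Real.exp_add]
          apply Real.one_le_exp
          have : (T ^ 2)⁻¹ * t ^ 2 ≤ 1 := by
            rw [inv_mul_le_iff₀ (by positivity)]
            linarith
          linarith
        calc ‖S t‖ ^ 2 = 1 * ‖S t‖ ^ 2 := by ring
          _ ≤ (Real.exp 1 * Real.exp (-((T ^ 2)⁻¹ * t ^ 2))) * ‖S t‖ ^ 2 :=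
            mul_le_mul_of_nonneg_right h5 (by positivity)
          _ = Real.exp 1 * (Real.exp (-((T ^ 2)⁻¹ * t ^ 2)) * ‖S t‖ ^ 2) := by ring
    have h2 : ∫ t : ℝ in (-T)..T, Real.exp 1 * (Real.exp (-((T ^ 2)⁻¹ * t ^ 2)) * ‖S t‖ ^ 2) ≤
        ∫ t : ℝ, Real.exp 1 * (Real.exp (-((T ^ 2)⁻¹ * t ^ 2)) * ‖S t‖ ^ 2) := by
      rw [intervalIntegral.integral_of_le hle]
      refine setIntegral_le_integral (hint.const_mul _) ?_
      exact Filter.Eventually.of_forall fun t => by positivity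
    refine h1.trans (h2.trans_eq ?_)
    rw [integral_const_mul]
  rcases P.eq_empty_or_nonempty with hP | hP
  · subst hP
    simp
  · obtain ⟨i₀, hi₀⟩ := hP
    have hB0 : 0 ≤ B := by
      refine le_trans ?_ (hB i₀ hi₀)
      exact Finset.sum_nonneg fun k _ => mul_nonneg (hw k) (Real.exp_pos _).le
    have hsum0 : 0 ≤ ∑ i ∈ P, w i * j i ^ 2 :=
      Finset.sum_nonneg fun i _ => mul_nonneg (hw i) (sq_nonneg _)
    calc ∫ t : ℝ in (-T)..T, ‖S t‖ ^ 2
        ≤ Real.exp 1 * ∫ t : ℝ, Real.exp (-((T ^ 2)⁻¹ * t ^ 2)) * ‖S t‖ ^ 2 := hcomp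
      _ ≤ Real.exp 1 * (Real.sqrt Real.pi * T * (B * ∑ i ∈ P, w i * j i ^ 2)) :=
          mul_le_mul_of_nonneg_left hbound (Real.exp_pos 1).le
      _ = (Real.exp 1 * Real.sqrt Real.pi) * (T * (B * ∑ i ∈ P, w i * j i ^ 2)) := by ring
      _ ≤ 5 * (T * (B * ∑ i ∈ P, w i * j i ^ 2)) :=
          mul_le_mul_of_nonneg_right exp_mul_sqrt_pi_le (by positivity)
      _ = 5 * T * B * ∑ i ∈ P, w i * j i ^ 2 := by ring

end Pool.Agent.MPfb225e.Zd
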