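import Mathlib
import Pool.Agent.Lib.MP_fb225e_nt.Zfr.CurveData
import Pool.Agent.Lib.MP_fb225e_nt.Zfr.Expand
import Pool.Agent.Lib.MP_fb225e_nt.Zfr.BdLe

/-!
MP_fb225e_nt, project ZD, module Z3: the logarithmic derivative of `L(W/K, s)` as a sum over the
rational primes plus a function which is analytic and bounded to the left of the edge.
-/

namespace Pool.Agent.MPfb225e.Zd

open Filter Topology Complex
open NumberField IsDedekindDomain
open scoped Nat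

universe u

section abstract_part

variable {ι : Type*}

open Classical in
/-- The term of the place `i` in the function `E`. -/
noncomputable def Z3_term (q : ι → ℕ) (a : ι → ℤ) (α β : ι → ℂ) (Z : Set ι) (i : ι) (s : ℂ) : ℂ :=
  -(Real.log (q i) : ℂ) * (α i * (q i : ℂ) ^ (-s) / (1 - α i * (q i : ℂ) ^ (-s)) +
    β i * (q i : ℂ) ^ (-s) / (1 - β i * (q i : ℂ) ^ (-s))) +
  (if (q i).Prime then ((LogExp.xs q a Z i * Real.log (q i) : ℝ) : ℂ) * (q i : ℂ) ^ (-(s - 1 / 2))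
    else 0)

theorem Z3_two : (2 : ℝ) ^ (-(1 / 4 : ℝ)) ≤ 6 / 7 := by
  have h1 : ((2 : ℝ) ^ (-(1 / 4 : ℝ))) ^ 4 = 1 / 2 := by
    rw [← Real.rpow_natCast, ← Real.rpow_mul (by norm_num)]
    norm_num [Real.rpow_neg_one]
  by_contra h
  push Not at h
  have h2 : (6 / 7 : ℝ) ^ 4 < ((2 : ℝ) ^ (-(1 / 4 : ℝ))) ^ 4 :=
    pow_lt_pow_left₀ h (by norm_num) (by norm_num)
  rw [h1] at h2
  norm_num at h2

theorem Z3_quarter {q : ℕ} (hq : 1 < q) : (q : ℝ) ^ (-(1 / 4 : ℝ)) ≤ 6 / 7 := by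
  have hq2 : (2 : ℝ) ≤ q := by exact_mod_cast hq
  exact (Real.rpow_le_rpow_of_nonpos (by norm_num) hq2 (by norm_num)).trans Z3_two

theorem Z3_frac {w : ℂ} {r : ℝ} (hw : ‖w‖ ≤ r) (hr : r ≤ 6 / 7) :
    ‖w / (1 - w)‖ ≤ 7 * r ∧ ‖w / (1 - w) - w‖ ≤ 7 * r ^ 2 := by
  obtain ⟨h1, h2⟩ := Zfr.Expand_norm_sub (hw.trans hr) (by norm_num)
  have h0 := norm_nonneg w
  have e : (1 : ℝ) / (1 - 6 / 7) = 7 := by norm_num
  rw [e] at h1 h2
  constructor
  · linarith
  · have h3 : ‖w‖ ^ 2 ≤ r ^ 2 := pow_le_pow_left₀ h0 hw 2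
    linarith

theorem Z3_three {m : ℕ} (h1 : 1 ≤ m) (hm : m ≤ 3) : (1 : ℝ) / 4 ≤ (m : ℝ) ^ (-(5 / 4 : ℝ)) := by
  have h2 : (m : ℝ) ≤ 3 := by exact_mod_cast hm
  have h3 : (0 : ℝ) < m := by exact_mod_cast h1
  have h4 : (3 : ℝ) ^ (-(5 / 4 : ℝ)) ≤ (m : ℝ) ^ (-(5 / 4 : ℝ)) :=
    Real.rpow_le_rpow_of_nonpos h3 h2 (by norm_num)
  refine le_trans ?_ h4
  have h5 : ((3 : ℝ) ^ (-(5 / 4 : ℝ))) ^ 4 = 1 / 243 := by
    rw [← Real.rpow_natCast, ← Real.rpow_mul (by norm_num)]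
    have : (-(5 / 4 : ℝ)) * ((4 : ℕ) : ℝ) = -(5 : ℕ) := by norm_num
    rw [this, Real.rpow_neg (by norm_num), Real.rpow_natCast]
    norm_num
  by_contra h
  push Not at h
  have h6 : ((3 : ℝ) ^ (-(5 / 4 : ℝ))) ^ 4 < (1 / 4 : ℝ) ^ 4 :=
    pow_lt_pow_left₀ h (by positivity) (by norm_num)
  rw [h5] at h6
  norm_num at h6

variable {q : ι → ℕ} {a b : ι → ℤ} {α β : ι → ℂ} {c : ι → ℝ} {Z : Set ι}

open LogExp

theorem Z3_w (D : Data q a b α β c Z) {s : ℂ} (hs : 5 / 4 ≤ s.re) (i : ι) :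
    c i * (q i : ℝ) ^ (-s.re) ≤ (q i : ℝ) ^ (-(1 / 4 : ℝ)) := by
  have hq := D.hq i
  have hq1 : (1 : ℝ) ≤ q i := by exact_mod_cast hq.le
  have hq0 : (0 : ℝ) < q i := by linarith
  calc c i * (q i : ℝ) ^ (-s.re) ≤ (q i : ℝ) * (q i : ℝ) ^ (-s.re) :=
        mul_le_mul_of_nonneg_right (D.hcq i) (Real.rpow_nonneg hq0.le _)
    _ = (q i : ℝ) ^ (1 - s.re) := by
        rw [sub_eq_add_neg, Real.rpow_add hq0, Real.rpow_one]
    _ ≤ (q i : ℝ) ^ (-(1 / 4 : ℝ)) :=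
        Real.rpow_le_rpow_of_exponent_le hq1 (by linarith)

theorem Z3_ne (D : Data q a b α β c Z) {s : ℂ} (hs : 5 / 4 ≤ s.re) (i : ι) :
    1 - α i * (q i : ℂ) ^ (-s) ≠ 0 ∧ 1 - β i * (q i : ℂ) ^ (-s) ≠ 0 := by
  have h0 := (Z3_w D hs i).trans (Z3_quarter (D.hq i))
  constructor
  · intro h
    have h1 : ‖α i * (q i : ℂ) ^ (-s)‖ = 1 := by
      rw [← sub_eq_zero.mp h]; simp
    have h2 := (D.norm_α (s := s) i).trans h0
    linarith
  · intro h
    have h1 : ‖β i * (q i : ℂ) ^ (-s)‖ = 1 := by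
      rw [← sub_eq_zero.mp h]; simp
    have h2 := (D.norm_β (s := s) i).trans h0
    linarith

theorem Z3_xs (D : Data q a b α β c Z) (s : ℂ) {i : ι} (hi : i ∉ Z) :
    ((xs q a Z i * Real.log (q i) : ℝ) : ℂ) * (q i : ℂ) ^ (-(s - 1 / 2)) =
      (Real.log (q i) : ℂ) * (α i * (q i : ℂ) ^ (-s) + β i * (q i : ℂ) ^ (-s)) := by
  have hq := D.hq i
  have hq0 : (0 : ℝ) < q i := by exact_mod_cast (by omega : 0 < q i)
  have hq0c : (q i : ℂ) ≠ 0 := by exact_mod_cast (by omega : q i ≠ 0)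
  have h1 : (q i : ℂ) ^ (-(s - 1 / 2)) = (√(q i : ℝ) : ℂ) * (q i : ℂ) ^ (-s) := by
    have e1 : -(s - 1 / 2) = ((1 / 2 : ℝ) : ℂ) + -s := by push_cast; ring
    rw [e1, Complex.cpow_add _ _ hq0c, Real.sqrt_eq_rpow]
    congr 1
    rw [Complex.ofReal_cpow hq0.le]
    simp
  have hsq : (√(q i : ℝ) : ℂ) ≠ 0 := by
    exact_mod_cast (Real.sqrt_pos.mpr hq0).ne'
  rw [h1, ← add_mul, D.hadd i]
  simp only [xs, if_neg hi]
  push_cast
  field_simp

/-- The majorant. -/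
theorem Z3_maj (D : Data q a b α β c Z) (m : ι → ℕ) (hm1 : ∀ i, 1 ≤ m i)
    (hpr : ∀ i, (q i).Prime → m i = q i) (hnp : ∀ i, ¬ (q i).Prime → m i ^ 2 ≤ q i)
    (hZ : ∀ i ∈ Z, m i ≤ 3) {s : ℂ} (hs : 5 / 4 ≤ s.re) (i : ι) :
    ‖Z3_term q a α β Z i s‖ ≤ 224 * (m i : ℝ) ^ (-(5 / 4 : ℝ)) := by
  have hq := D.hq i
  have hq1 : (1 : ℝ) ≤ q i := by exact_mod_cast hq.le
  have hq0 : (0 : ℝ) < q i := by linarith
  have hlog0 : 0 ≤ Real.log (q i) := Real.log_nonneg hq1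
  have hm0 : (0 : ℝ) < m i := by exact_mod_cast hm1 i
  have hlog4 : Real.log (q i) ≤ 4 * (q i : ℝ) ^ (1 / 4 : ℝ) := by
    have := Real.log_le_rpow_div (x := (q i : ℝ)) hq0.le (ε := 1 / 4) (by norm_num)
    linarith
  have hlog8 : Real.log (q i) ≤ 8 * (q i : ℝ) ^ (1 / 8 : ℝ) := by
    have := Real.log_le_rpow_div (x := (q i : ℝ)) hq0.le (ε := 1 / 8) (by norm_num)
    linarith
  have hnl : ‖(-(Real.log (q i) : ℂ))‖ = Real.log (q i) := by
    rw [norm_neg, Complex.norm_real, Real.norm_of_nonneg hlog0]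
  have hu := D.norm_α (s := s) i
  have hv := D.norm_β (s := s) i
  have hx := fun hi => Z3_xs D s (i := i) hi
  unfold Z3_term
  set u : ℂ := α i * (q i : ℂ) ^ (-s) with hudef
  set v : ℂ := β i * (q i : ℂ) ^ (-s) with hvdef
  by_cases hi : i ∈ Z
  · have hr := Z3_w D hs i
    have hr' := Z3_quarter hq
    obtain ⟨h1, -⟩ := Z3_frac (hu.trans hr) hr'
    obtain ⟨h2, -⟩ := Z3_frac (hv.trans hr) hr'
    have hxs : xs q a Z i = 0 := by simp [xs, hi]
    have h3 : (if (q i).Prime then ((xs q a Z i * Real.log (q i) : ℝ) : ℂ) *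
        (q i : ℂ) ^ (-(s - 1 / 2)) else 0) = 0 := by
      rw [hxs]; simp
    rw [h3, add_zero, norm_mul, hnl]
    have h4 : ‖u / (1 - u) + v / (1 - v)‖ ≤ 14 * (q i : ℝ) ^ (-(1 / 4 : ℝ)) :=
      (norm_add_le _ _).trans (by linarith)
    have h5 : (q i : ℝ) ^ (1 / 4 : ℝ) * (q i : ℝ) ^ (-(1 / 4 : ℝ)) = 1 := by
      rw [← Real.rpow_add hq0]; norm_num
    have h6 := mul_le_mul hlog4 h4 (norm_nonneg _) (by positivity)
    have h7 := Z3_three (hm1 i) (hZ i hi)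
    nlinarith
  · have hr : ∀ t : ℂ, ‖t‖ ≤ c i * (q i : ℝ) ^ (-s.re) → ‖t‖ ≤ (q i : ℝ) ^ (-(3 / 4 : ℝ)) := by
      intro t ht
      rw [D.r_eq hi] at ht
      exact ht.trans (Real.rpow_le_rpow_of_exponent_le hq1 (by linarith))
    have hr' : (q i : ℝ) ^ (-(3 / 4 : ℝ)) ≤ 6 / 7 :=
      (Real.rpow_le_rpow_of_exponent_le hq1 (by norm_num)).trans (Z3_quarter hq)
    obtain ⟨h1, h1'⟩ := Z3_frac (hr u hu) hr'
    obtain ⟨h2, h2'⟩ := Z3_frac (hr v hv) hr'
    by_cases hp : (q i).Prime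
    · rw [if_pos hp, hx hi]
      have e : -(Real.log (q i) : ℂ) * (u / (1 - u) + v / (1 - v)) +
          (Real.log (q i) : ℂ) * (u + v) =
          -(Real.log (q i) : ℂ) * ((u / (1 - u) - u) + (v / (1 - v) - v)) := by ring
      rw [e, norm_mul, hnl]
      have h4 : ‖(u / (1 - u) - u) + (v / (1 - v) - v)‖ ≤
          14 * ((q i : ℝ) ^ (-(3 / 4 : ℝ))) ^ 2 :=
        (norm_add_le _ _).trans (by linarith)
      have h5 : (q i : ℝ) ^ (1 / 4 : ℝ) * ((q i : ℝ) ^ (-(3 / 4 : ℝ))) ^ 2 =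
          (q i : ℝ) ^ (-(5 / 4 : ℝ)) := by
        rw [← Real.rpow_natCast, ← Real.rpow_mul hq0.le, ← Real.rpow_add hq0]; norm_num
      have h6 := mul_le_mul hlog4 h4 (norm_nonneg _) (by positivity)
      rw [hpr i hp]
      have h7 : 0 ≤ (q i : ℝ) ^ (-(5 / 4 : ℝ)) := by positivity
      have h8 : 4 * (q i : ℝ) ^ (1 / 4 : ℝ) * (14 * ((q i : ℝ) ^ (-(3 / 4 : ℝ))) ^ 2) =
          56 * ((q i : ℝ) ^ (1 / 4 : ℝ) * ((q i : ℝ) ^ (-(3 / 4 : ℝ))) ^ 2) := by ring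
      rw [h8, h5] at h6
      linarith
    · rw [if_neg hp, add_zero, norm_mul, hnl]
      have h4 : ‖u / (1 - u) + v / (1 - v)‖ ≤ 14 * (q i : ℝ) ^ (-(3 / 4 : ℝ)) :=
        (norm_add_le _ _).trans (by linarith)
      have h5 : (q i : ℝ) ^ (1 / 8 : ℝ) * (q i : ℝ) ^ (-(3 / 4 : ℝ)) =
          (q i : ℝ) ^ (-(5 / 8 : ℝ)) := by
        rw [← Real.rpow_add hq0]; norm_num
      have h6 := mul_le_mul hlog8 h4 (norm_nonneg _) (by positivity)
      have h8 : 8 * (q i : ℝ) ^ (1 / 8 : ℝ) * (14 * (q i : ℝ) ^ (-(3 / 4 : ℝ))) =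
          112 * ((q i : ℝ) ^ (1 / 8 : ℝ) * (q i : ℝ) ^ (-(3 / 4 : ℝ))) := by ring
      rw [h8, h5] at h6
      have h9 : (q i : ℝ) ^ (-(5 / 8 : ℝ)) ≤ (m i : ℝ) ^ (-(5 / 4 : ℝ)) := by
        have h10 : ((m i : ℝ) ^ 2) ^ (-(5 / 8 : ℝ)) = (m i : ℝ) ^ (-(5 / 4 : ℝ)) := by
          rw [← Real.rpow_natCast, ← Real.rpow_mul hm0.le]; norm_num
        rw [← h10]
        refine Real.rpow_le_rpow_of_nonpos (by positivity) ?_ (by norm_num)
        exact_mod_cast hnp i hp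
      have h10 : 0 ≤ (m i : ℝ) ^ (-(5 / 4 : ℝ)) := by positivity
      linarith

theorem Z3_diff (D : Data q a b α β c Z) {s : ℂ} (hs : 5 / 4 ≤ s.re) (i : ι) :
    DifferentiableAt ℂ (Z3_term q a α β Z i) s := by
  have hq := D.hq i
  have hq0c : (q i : ℂ) ≠ 0 := by exact_mod_cast (by omega : q i ≠ 0)
  obtain ⟨h1, h2⟩ := Z3_ne D hs i
  have hc : DifferentiableAt ℂ (fun z : ℂ => (q i : ℂ) ^ (-z)) s :=
    (differentiableAt_id.fun_neg).const_cpow (Or.inl hq0c)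
  have hc' : DifferentiableAt ℂ (fun z : ℂ => (q i : ℂ) ^ (-(z - 1 / 2))) s :=
    ((differentiableAt_id.sub_const _).fun_neg).const_cpow (Or.inl hq0c)
  unfold Z3_term
  refine DifferentiableAt.fun_add (DifferentiableAt.const_mul (DifferentiableAt.fun_add ?_ ?_) _) ?_
  · exact (hc.const_mul _).fun_div ((hc.const_mul _).const_sub 1) h1
  · exact (hc.const_mul _).fun_div ((hc.const_mul _).const_sub 1) h2
  · split_ifs
    · exact hc'.const_mul _
    · exact differentiableAt_const _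

end abstract_part

section places

variable {K : Type u} [Field K] [NumberField K]

/-- sums over the least prime factors of the norms -/
theorem Z3_sum (V : Finset (HeightOneSpectrum (𝓞 K))) :
    ∑ v ∈ V, ((Fam.N v).minFac : ℝ) ^ (-(5 / 4 : ℝ)) ≤
      (Module.finrank ℚ K : ℝ) * ∑' m : ℕ, (m : ℝ) ^ (-(5 / 4 : ℝ)) := by
  classical
  have hs : Summable fun m : ℕ => (m : ℝ) ^ (-(5 / 4 : ℝ)) :=
    Real.summable_nat_rpow.2 (by norm_num)
  have hnn : ∀ m : ℕ, (0 : ℝ) ≤ (m : ℝ) ^ (-(5 / 4 : ℝ)) := fun m =>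
    Real.rpow_nonneg (by positivity) _
  calc ∑ v ∈ V, ((Fam.N v).minFac : ℝ) ^ (-(5 / 4 : ℝ))
      = ∑ m ∈ V.image (fun v => (Fam.N v).minFac),
        ((V.filter fun v => (Fam.N v).minFac = m).card : ℝ) * (m : ℝ) ^ (-(5 / 4 : ℝ)) := by
        rw [Finset.sum_comp (fun m : ℕ => (m : ℝ) ^ (-(5 / 4 : ℝ))) fun v => (Fam.N v).minFac]
        simp only [nsmul_eq_mul]
    _ ≤ ∑ m ∈ V.image (fun v => (Fam.N v).minFac),
        (Module.finrank ℚ K : ℝ) * (m : ℝ) ^ (-(5 / 4 : ℝ)) := by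
        refine Finset.sum_le_sum fun m hm => ?_
        obtain ⟨v, -, rfl⟩ := Finset.mem_image.1 hm
        refine mul_le_mul_of_nonneg_right ?_ (hnn _)
        have h1 := Fam.one_lt_N v
        have h2 := Fam.card_above_le (Nat.minFac_prime (n := Fam.N v) (by omega))
          (V.filter fun w => (Fam.N w).minFac = (Fam.N v).minFac)
          fun w hw => (Finset.mem_filter.1 hw).2
        rw [NumberField.RingOfIntegers.rank] at h2
        exact_mod_cast h2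
    _ ≤ ∑' m : ℕ, (Module.finrank ℚ K : ℝ) * (m : ℝ) ^ (-(5 / 4 : ℝ)) :=
        (hs.mul_left _).sum_le_tsum _ fun m _ => mul_nonneg (by positivity) (hnn m)
    _ = _ := tsum_mul_left

/-- summation along the fibres of the norm -/
theorem Z3_fib (h : HeightOneSpectrum (𝓞 K) → ℂ) (hs : Summable h) :
    ∑' v, h v = ∑' m : ℕ, ∑' v : {v : HeightOneSpectrum (𝓞 K) // Fam.N v = m}, h v.1 := by
  let e := Equiv.sigmaFiberEquiv (fun v : HeightOneSpectrum (𝓞 K) => Fam.N v)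
  have hs' : Summable fun x : (Σ m : ℕ, {v : HeightOneSpectrum (𝓞 K) // Fam.N v = m}) =>
      h (e x) := (Equiv.summable_iff (f := h) e).2 hs
  rw [← e.tsum_eq]
  exact hs'.tsum_sigma

theorem Z3_primes (f : ℕ → ℂ) (k : Nat.Primes → ℂ) (h0 : ∀ m, ¬ m.Prime → f m = 0)
    (h1 : ∀ (m : ℕ) (hm : m.Prime), f m = k ⟨m, hm⟩) : ∑' m, f m = ∑' p, k p := by
  have h4 : Function.support f ⊆ {m : ℕ | m.Prime} := by
    intro m hm
    by_contra h
    exact hm (h0 m h)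
  rw [← tsum_subtype_eq_of_support_subset h4]
  have e : (fun p : {m : ℕ | m.Prime} => f p) = fun p => k ⟨p.1, p.2⟩ :=
    funext fun p => h1 p.1 p.2
  rw [e]
  rfl

open Classical in
/-- The sums of the normalised traces over the places of norm `m`. -/
noncomputable def Z3_y (W : WeierstrassCurve K) (m : ℕ) : ℝ :=
  if m.Prime then ∑' v : {v : HeightOneSpectrum (𝓞 K) // Fam.N v = m}, Zfr.xK W v.1 else 0

theorem Z3_y_le (W : WeierstrassCurve K) (m : ℕ) : |Z3_y W m| ≤ 2 * (Module.finrank ℚ K : ℝ) := by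
  classical
  unfold Z3_y
  split_ifs with hm
  · have := Fam.finite_fiber (K := K) m
    have := Fintype.ofFinite {v : HeightOneSpectrum (𝓞 K) // Fam.N v = m}
    rw [tsum_fintype]
    refine (Finset.abs_sum_le_sum_abs _ _).trans ?_
    refine (Finset.sum_le_sum (fun v _ => Zfr.abs_xK_le W v.1)).trans ?_
    rw [Finset.sum_const, Finset.card_univ, ← Nat.card_eq_fintype_card, Fam.card_fiber hm,
      nsmul_eq_mul, mul_comm]
    have h1 := Fam.homCount_le K hm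
    rw [NumberField.RingOfIntegers.rank] at h1
    have h2 : (Fam.homCount K m : ℝ) ≤ (Module.finrank ℚ K : ℝ) := by exact_mod_cast h1
    linarith
  · rw [abs_zero]; positivity

end places

/-- Z3 (file Zd/Expansion.lean). The logarithmic derivative as a sum over the rational primes, up to
a function that is analytic and bounded to the left of the edge. -/
theorem prime_expansion (n : ℕ) : ∃ C : ℝ, 0 < C ∧ ∀ (K : Type u) [Field K] [NumberField K]
    (W : WeierstrassCurve K), Module.finrank ℚ K = n → ∃ (y : ℕ → ℝ) (E : ℂ → ℂ),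
    (∀ p, |y p| ≤ 2 * n) ∧ (∀ s : ℂ, 5 / 4 < s.re → DifferentiableAt ℂ E s) ∧
    (∀ s : ℂ, 11 / 8 ≤ s.re → ‖E s‖ ≤ C) ∧
    ∀ F : ℂ → ℂ, (∀ s : ℂ, 3 / 2 < s.re → F s = W.LSeries s) → ∀ s : ℂ, 3 / 2 < s.re →
      deriv F s / F s =
        E s - ∑' p : Nat.Primes, ((y p * Real.log p : ℝ) : ℂ) * (p : ℂ) ^ (-(s - 1 / 2)) := by
  classical
  obtain ⟨S, hS⟩ : ∃ S : ℝ, S = ∑' m : ℕ, (m : ℝ) ^ (-(5 / 4 : ℝ)) := ⟨_, rfl⟩
  have hS0 : 0 ≤ S := by
    rw [hS]; exact tsum_nonneg fun m => Real.rpow_nonneg (by positivity) _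
  refine ⟨224 * (n * S) + 1, by positivity, ?_⟩
  intro K _ _ W hn
  obtain ⟨a, b, α, β, c, D, hL, hx⟩ := Zfr.exists_data W
  obtain ⟨m, hm⟩ : ∃ m : HeightOneSpectrum (𝓞 K) → ℕ, ∀ v, m v = (Fam.N v).minFac :=
    ⟨_, fun _ => rfl⟩
  have hqN : ∀ v : HeightOneSpectrum (𝓞 K), Curve.qv v = Fam.N v := fun v => Curve.qv_eq v
  have hm1 : ∀ v, 1 ≤ m v := fun v => by rw [hm]; exact Nat.minFac_pos _
  have hpr : ∀ v, (Curve.qv v).Prime → m v = Curve.qv v := fun v hp => by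
    rw [hm, ← hqN]; exact hp.minFac_eq
  have hnp : ∀ v, ¬ (Curve.qv v).Prime → m v ^ 2 ≤ Curve.qv v := fun v hp => by
    rw [hm, hqN]; exact Fam.sq_minFac_le v (by rwa [← hqN])
  have hZ : ∀ v ∈ Curve.exc K, m v ≤ 3 := fun v hv => by
    rw [hm]
    rcases Zfr.BdLe_exc hv with h | h <;> omega
  obtain ⟨u, hu⟩ : ∃ u : HeightOneSpectrum (𝓞 K) → ℝ, ∀ v, u v =
      224 * (m v : ℝ) ^ (-(5 / 4 : ℝ)) := ⟨_, fun _ => rfl⟩
  have hu0 : ∀ v, 0 ≤ u v := fun v => by rw [hu]; positivity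
  have hub : ∀ V : Finset (HeightOneSpectrum (𝓞 K)), ∑ v ∈ V, u v ≤ 224 * (n * S) := by
    intro V
    have h1 := Z3_sum (K := K) V
    rw [hn, ← hS] at h1
    calc ∑ v ∈ V, u v = 224 * ∑ v ∈ V, ((Fam.N v).minFac : ℝ) ^ (-(5 / 4 : ℝ)) := by
          rw [Finset.mul_sum]
          refine Finset.sum_congr rfl fun v _ => ?_
          rw [hu, hm]
      _ ≤ _ := by linarith
  have husum : Summable u := summable_of_sum_le hu0 hub
  have hut : ∑' v, u v ≤ 224 * (n * S) := Real.tsum_le_of_sum_le hu0 hub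
  have hmaj : ∀ s : ℂ, 5 / 4 ≤ s.re → ∀ v, ‖Z3_term (Curve.qv (K := K)) a α β (Curve.exc K) v s‖
      ≤ u v := fun s hs v => by
    rw [hu]
    exact Z3_maj D m hm1 hpr hnp hZ hs v
  refine ⟨Z3_y W, fun s => ∑' v, Z3_term (Curve.qv (K := K)) a α β (Curve.exc K) v s,
    fun p => ?_, ?_, ?_, ?_⟩
  · have := Z3_y_le W p
    rwa [hn] at this
  · intro s hs
    have hVo : IsOpen {z : ℂ | 5 / 4 < z.re} := isOpen_lt continuous_const Complex.continuous_re
    have hd := Complex.differentiableOn_tsum_of_summable_norm (U := {z : ℂ | 5 / 4 < z.re})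
      (F := fun v s => Z3_term (Curve.qv (K := K)) a α β (Curve.exc K) v s) husum
      (fun v z hz => (Z3_diff D (le_of_lt hz) v).differentiableWithinAt) hVo
      (fun v z hz => hmaj z (le_of_lt hz) v)
    exact hd.differentiableAt (hVo.mem_nhds hs)
  · intro s hs
    have h1 := tsum_of_norm_bounded husum.hasSum (hmaj s (by linarith))
    linarith
  · intro F hF s hs
    have hB := Zfr.hasSum_logDeriv (Curve.qv (K := K)) D.hq α β c D.hα D.hβ (3 / 2) LogExp.rho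
      LogExp.rho_lt
      (fun i σ hσ => by
        have h := D.r_le (s := (σ : ℂ)) (by simpa using hσ) i
        simpa using h)
      (fun σ hσ => by
        have h := D.summable_r (s := (σ : ℂ)) (by simpa using hσ)
        simpa using h)
      (LogExp.L (Curve.qv (K := K)) a b) (fun z hz => D.hasProd hz) hs
    have hFL : F =ᶠ[𝓝 s] LogExp.L (Curve.qv (K := K)) a b := by
      have hVo : IsOpen {z : ℂ | 3 / 2 < z.re} := isOpen_lt continuous_const Complex.continuous_re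
      filter_upwards [hVo.mem_nhds hs] with z hz
      rw [hF z hz, hL z]
    rw [hFL.deriv_eq, hFL.eq_of_nhds]
    set f1 : HeightOneSpectrum (𝓞 K) → ℂ := fun i => -(Real.log (Curve.qv i) : ℂ) *
      (α i * (Curve.qv i : ℂ) ^ (-s) / (1 - α i * (Curve.qv i : ℂ) ^ (-s)) +
      β i * (Curve.qv i : ℂ) ^ (-s) / (1 - β i * (Curve.qv i : ℂ) ^ (-s))) with hf1
    set f2 : HeightOneSpectrum (𝓞 K) → ℂ := fun i => if (Curve.qv i).Prime then
      ((LogExp.xs (Curve.qv (K := K)) a (Curve.exc K) i * Real.log (Curve.qv i) : ℝ) : ℂ) *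
        (Curve.qv i : ℂ) ^ (-(s - 1 / 2)) else 0 with hf2
    have hE : (fun v => Z3_term (Curve.qv (K := K)) a α β (Curve.exc K) v s) =
        fun v => f1 v + f2 v := by
      funext v; rfl
    have hsE : Summable fun v => f1 v + f2 v := by
      rw [← hE]
      exact Summable.of_norm_bounded husum (hmaj s (by linarith))
    have hs2 : Summable f2 := by
      have h := hsE.sub hB.summable
      refine h.congr fun v => ?_
      rw [hf1]
      simp only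
      ring
    have h1 : ∑' v, Z3_term (Curve.qv (K := K)) a α β (Curve.exc K) v s =
        ∑' v, f1 v + ∑' v, f2 v := by
      rw [hE, hB.summable.tsum_add hs2]
    have h2 : ∑' v, f2 v =
        ∑' p : Nat.Primes, ((Z3_y W p * Real.log p : ℝ) : ℂ) * (p : ℂ) ^ (-(s - 1 / 2)) := by
      rw [Z3_fib f2 hs2]
      refine Z3_primes _ _ (fun k hk => ?_) (fun k hk => ?_)
      · have h3 : ∀ v : {v : HeightOneSpectrum (𝓞 K) // Fam.N v = k}, f2 v.1 = 0 := by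
          intro v
          rw [hf2]
          simp only
          rw [if_neg]
          rw [hqN, v.2]
          exact hk
        rw [tsum_congr h3, tsum_zero]
      · have h3 : ∀ v : {v : HeightOneSpectrum (𝓞 K) // Fam.N v = k}, f2 v.1 =
            (Zfr.xK W v.1 : ℂ) * ((Real.log k : ℂ) * (k : ℂ) ^ (-(s - 1 / 2))) := by
          intro v
          rw [hf2]
          simp only
          rw [hqN, v.2, if_pos hk, hx]
          push_cast
          ring
        rw [tsum_congr h3, tsum_mul_right]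
        have h4 : Z3_y W k = ∑' v : {v : HeightOneSpectrum (𝓞 K) // Fam.N v = k},
            Zfr.xK W v.1 := by
          unfold Z3_y
          rw [if_pos hk]
        simp only
        rw [h4, Complex.ofReal_mul, Complex.ofReal_tsum]
        ring
    beta_reduce
    rw [h1, h2, ← hB.tsum_eq]
    ring

end Pool.Agent.MPfb225e.Zd
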