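import Mathlib
import Pool.Agent.Lib.MP_fb225e_nt.Zfr.Local
import Pool.Agent.Lib.MP_fb225e_nt.Szf.LocalFac

/-!
MP_fb225e_nt, project ZD, module Z2: Landau's local lemma with the analytic zero-free factor.
-/

set_option autoImplicit false

namespace Pool.Agent.MPfb225e.Zd

open Filter Topology Complex Metric

/-- removing the zeros near the centre one after the other, keeping the entire factor -/
theorem z2_ind (k : ℕ) : ∀ (f : ℂ → ℂ) (c : ℂ) (r B : ℝ), 0 < r →
    Differentiable ℂ f →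
    (∀ z ∈ closedBall c (4 * r), ‖f z‖ ≤ B) →
    B < 2 ^ k * ‖f c‖ → f c ≠ 0 →
    ∃ (m : ℕ) (ρ : Fin m → ℂ) (g : ℂ → ℂ), Differentiable ℂ g ∧
      (∀ z, f z = (∏ j, (z - ρ j)) * g z) ∧ (∀ z ∈ closedBall c r, g z ≠ 0) ∧
      ∀ s ∈ closedBall c r, ‖deriv g s / g s‖ ≤ 84 * (k : ℝ) / r := by
  induction k with
  | zero =>
    intro f c r B hr _ hB hBk _
    exfalso
    have h1 := hB c (mem_closedBall_self (by positivity))
    rw [pow_zero, one_mul] at hBk
    linarith
  | succ k ih =>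
    intro f c r B hr hd hB hBk hfc
    by_cases hex : ∃ ρ ∈ closedBall c (4 / 3 * r), f ρ = 0
    · obtain ⟨ρ, hρ, hρ0⟩ := hex
      rw [mem_closedBall, dist_eq_norm] at hρ
      set h : ℂ → ℂ := dslope f ρ with hh
      have hfh : ∀ z, f z = (z - ρ) * h z := by
        intro z
        have := sub_smul_dslope f ρ z
        rw [hρ0, sub_zero, smul_eq_mul] at this
        exact this.symm
      have hdh : Differentiable ℂ h := by
        have h1 : DifferentiableOn ℂ (dslope f ρ) Set.univ :=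
          (Complex.differentiableOn_dslope Filter.univ_mem).mpr hd.differentiableOn
        exact differentiableOn_univ.mp h1
      have hhc : h c ≠ 0 := fun h0 => hfc (by rw [hfh, h0, mul_zero])
      have hbd : ∀ z ∈ closedBall c (4 * r), ‖h z‖ ≤ B / (8 / 3 * r) := by
        refine Zfr.locA_max (by positivity) (fun z _ => hdh z) ?_
        intro z hz'
        have h1 : 8 / 3 * r ≤ ‖z - ρ‖ := by
          have h2 : ‖z - c‖ ≤ ‖z - ρ‖ + ‖ρ - c‖ := by
            have : z - c = (z - ρ) + (ρ - c) := by ring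
            rw [this]
            exact norm_add_le _ _
          linarith
        have h3 := hB z (by rw [mem_closedBall, dist_eq_norm]; exact hz'.le)
        rw [hfh, norm_mul] at h3
        rw [le_div_iff₀ (by positivity)]
        calc ‖h z‖ * (8 / 3 * r) ≤ ‖h z‖ * ‖z - ρ‖ := by gcongr
          _ = ‖z - ρ‖ * ‖h z‖ := mul_comm _ _
          _ ≤ B := h3
      have hlow : B / (8 / 3 * r) < 2 ^ k * ‖h c‖ := by
        rw [div_lt_iff₀ (by positivity)]
        refine lt_of_lt_of_le hBk ?_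
        rw [hfh c, norm_mul, pow_succ]
        have h1 : ‖c - ρ‖ ≤ 4 / 3 * r := by rw [norm_sub_rev]; exact hρ
        calc 2 ^ k * 2 * (‖c - ρ‖ * ‖h c‖) ≤ 2 ^ k * 2 * (4 / 3 * r * ‖h c‖) := by gcongr
          _ = 2 ^ k * ‖h c‖ * (8 / 3 * r) := by ring
      obtain ⟨m, σ, g, hg, hfac, hg0, hm⟩ := ih h c r (B / (8 / 3 * r)) hr hdh hbd hlow hhc
      refine ⟨m + 1, Fin.cons ρ σ, g, hg, ?_, hg0, ?_⟩
      · intro z
        rw [hfh, hfac, Fin.prod_univ_succ, Fin.cons_zero]
        simp only [Fin.cons_succ]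
        ring
      · intro s hsc
        refine (hm s hsc).trans ?_
        push_cast
        gcongr
        linarith
    · push Not at hex
      refine ⟨0, Fin.elim0, f, hd, fun z => by simp, ?_, ?_⟩
      · intro z hz
        refine hex z (closedBall_subset_closedBall ?_ hz)
        linarith
      · intro s hsc
        rw [mem_closedBall, dist_eq_norm] at hsc
        exact Szf.locF_nozero f c s r B k hr (fun z _ => hd z) hB hBk hfc hsc hex

/-- Z2 (file Zd/Local.lean). The local lemma with the analytic factor. -/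
theorem local_factor' : ∃ C : ℝ, 0 < C ∧ ∀ (f : ℂ → ℂ) (c : ℂ) (r B L : ℝ), 0 < r → 0 ≤ L →
    Differentiable ℂ f → (∀ z ∈ Metric.closedBall c (4 * r), ‖f z‖ ≤ B) →
    B ≤ Real.exp L * ‖f c‖ → f c ≠ 0 →
    ∃ (k : ℕ) (ρ : Fin k → ℂ) (g : ℂ → ℂ), Differentiable ℂ g ∧
      (∀ z, f z = (∏ j, (z - ρ j)) * g z) ∧ (∀ z ∈ Metric.closedBall c r, g z ≠ 0) ∧
      ∀ z ∈ Metric.closedBall c r, ‖deriv g z / g z‖ ≤ C * (L + 1) / r := by
  refine ⟨168, by norm_num, ?_⟩
  intro f c r B L hr hL hd hB hBL hfc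
  set k : ℕ := ⌊2 * L⌋₊ + 1 with hk
  have hk1 : 2 * L < (k : ℝ) := by
    rw [hk]
    push_cast
    exact Nat.lt_floor_add_one _
  have hk2 : (k : ℝ) ≤ 2 * L + 1 := by
    rw [hk]
    push_cast
    have := Nat.floor_le (a := 2 * L) (by positivity)
    linarith
  have hfc0 : 0 < ‖f c‖ := norm_pos_iff.mpr hfc
  have hlog : (1 : ℝ) / 2 < Real.log 2 := by
    have := Real.log_two_gt_d9
    linarith
  have hexp : Real.exp L < 2 ^ k := by
    have h1 : Real.exp L < Real.exp (k * Real.log 2) := by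
      rw [Real.exp_lt_exp]
      nlinarith
    have h2 : Real.exp (k * Real.log 2) = 2 ^ k := by
      rw [← Real.log_pow, Real.exp_log (by positivity)]
    rwa [h2] at h1
  have hBk : B < 2 ^ k * ‖f c‖ := lt_of_le_of_lt hBL (mul_lt_mul_of_pos_right hexp hfc0)
  obtain ⟨m, ρ, g, hg, hfac, hg0, hm⟩ := z2_ind k f c r B hr hd hB hBk hfc
  refine ⟨m, ρ, g, hg, hfac, hg0, fun s hsc => (hm s hsc).trans ?_⟩
  have h84 : 84 * (k : ℝ) ≤ 168 * (L + 1) := by linarith
  exact div_le_div_of_nonneg_right h84 hr.le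

end Pool.Agent.MPfb225e.Zd
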