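import Mathlib
import Pool.Agent.Lib.MP_fb225e_nt.Zfr.Main
import Pool.Agent.Lib.MP_fb225e_nt.Szf.Mul

/-!
MP_fb225e_nt, project ZD, module Z4: lower bound for `L(W/K, s)` to the right of the edge.
-/

namespace Pool.Agent.MPfb225e.Zd

open Filter Topology Complex
open NumberField IsDedekindDomain

universe u

open Zfr

theorem low_tele {ε : ℝ} (hε : 0 < ε) (m : ℕ) (hm : 1 ≤ m) :
    ε * ((m + 1 : ℕ) : ℝ) ^ (-(1 + ε)) ≤ (m : ℝ) ^ (-ε) - ((m + 1 : ℕ) : ℝ) ^ (-ε) := by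
  have hm0 : (0 : ℝ) < m := by exact_mod_cast hm
  have hM : (0 : ℝ) < ((m + 1 : ℕ) : ℝ) := by positivity
  have hMm : ((m + 1 : ℕ) : ℝ) = m + 1 := by push_cast; ring
  set M : ℝ := ((m + 1 : ℕ) : ℝ) with hMdef
  have h1 : (m : ℝ) ^ (-ε) = M ^ (-ε) * ((m : ℝ) / M) ^ (-ε) := by
    rw [← Real.mul_rpow hM.le (by positivity)]
    congr 1
    field_simp
  have h2 : 1 + ε / M ≤ ((m : ℝ) / M) ^ (-ε) := by
    have h3 : 0 < (m : ℝ) / M := by positivity
    rw [Real.rpow_def_of_pos h3]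
    have h4 := Real.log_le_sub_one_of_pos h3
    have h5 : (m : ℝ) / M - 1 = -(1 / M) := by
      rw [hMm]
      field_simp
      ring
    rw [h5] at h4
    have h6 := Real.add_one_le_exp (Real.log ((m : ℝ) / M) * -ε)
    have h7 : ε * (1 / M) ≤ Real.log ((m : ℝ) / M) * -ε := by nlinarith
    have h8 : ε / M = ε * (1 / M) := by ring
    linarith
  have h3 : M ^ (-(1 + ε)) = M ^ (-ε) * (1 / M) := by
    rw [show -(1 + ε) = -ε + -1 by ring, Real.rpow_add hM, Real.rpow_neg_one, one_div]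
  have h4 : 0 < M ^ (-ε) := Real.rpow_pos_of_pos hM _
  rw [h1, h3]
  have h5 : M ^ (-ε) * (1 + ε / M) ≤ M ^ (-ε) * ((m : ℝ) / M) ^ (-ε) :=
    mul_le_mul_of_nonneg_left h2 h4.le
  have h6 : ε * (M ^ (-ε) * (1 / M)) = M ^ (-ε) * (1 + ε / M) - M ^ (-ε) := by ring
  linarith

theorem low_sum_aux {ε : ℝ} (hε : 0 < ε) (N : ℕ) :
    ∑ m ∈ Finset.range (N + 2), (m : ℝ) ^ (-(1 + ε)) ≤
      1 + (1 - ((N + 1 : ℕ) : ℝ) ^ (-ε)) / ε := by
  induction N with
  | zero =>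
    have h0 : ((0 : ℕ) : ℝ) ^ (-(1 + ε)) = 0 := by
      rw [Nat.cast_zero, Real.zero_rpow (by linarith)]
    rw [Finset.sum_range_succ, Finset.sum_range_one, h0]
    simp
  | succ N ih =>
    rw [Finset.sum_range_succ]
    have h := low_tele hε (N + 1) (by omega)
    have h1 : ((N + 1 + 1 : ℕ) : ℝ) ^ (-(1 + ε)) ≤
        (((N + 1 : ℕ) : ℝ) ^ (-ε) - ((N + 1 + 1 : ℕ) : ℝ) ^ (-ε)) / ε := by
      rw [le_div_iff₀ hε]
      linarith
    have h2 : (1 - ((N + 1 + 1 : ℕ) : ℝ) ^ (-ε)) / ε = (1 - ((N + 1 : ℕ) : ℝ) ^ (-ε)) / ε +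
        (((N + 1 : ℕ) : ℝ) ^ (-ε) - ((N + 1 + 1 : ℕ) : ℝ) ^ (-ε)) / ε := by ring
    rw [h2]
    have h3 : N + 1 + 1 = N + 2 := rfl
    rw [h3] at h1 ⊢
    linarith

theorem low_tsum {ε : ℝ} (hε : 0 < ε) : ∑' m : ℕ, (m : ℝ) ^ (-(1 + ε)) ≤ 1 + 1 / ε := by
  refine Real.tsum_le_of_sum_range_le (fun m => Real.rpow_nonneg (by positivity) _) fun N => ?_
  have h1 : ∑ m ∈ Finset.range N, (m : ℝ) ^ (-(1 + ε)) ≤
      ∑ m ∈ Finset.range (N + 2), (m : ℝ) ^ (-(1 + ε)) :=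
    Finset.sum_le_sum_of_subset_of_nonneg (Finset.range_subset_range.2 (by omega))
      fun m _ _ => Real.rpow_nonneg (by positivity) _
  refine h1.trans ((low_sum_aux hε N).trans ?_)
  have h2 : 0 < ((N + 1 : ℕ) : ℝ) ^ (-ε) := Real.rpow_pos_of_pos (by positivity) _
  have h3 : (1 - ((N + 1 : ℕ) : ℝ) ^ (-ε)) / ε ≤ 1 / ε :=
    div_le_div_of_nonneg_right (by linarith) hε.le
  linarith

/-- the completely multiplicative function `m ^ (-(1+ε))` -/
noncomputable def lowF (ε : ℝ) : ℕ →* ℝ where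
  toFun m := (m : ℝ) ^ (-(1 + ε))
  map_one' := by simp
  map_mul' a b := by rw [Nat.cast_mul, Real.mul_rpow (by positivity) (by positivity)]

theorem low_primes {ε : ℝ} (hε : 0 < ε) (P : Finset ℕ) (hP : ∀ p ∈ P, p.Prime) :
    ∑ p ∈ P, (p : ℝ) ^ (-(1 + ε)) ≤ Real.log (1 + 1 / ε) := by
  have hs : Summable fun m : ℕ => (m : ℝ) ^ (-(1 + ε)) := Real.summable_nat_rpow.2 (by linarith)
  have hs' : Summable (lowF ε) := hs
  have hnn : ∀ m : ℕ, 0 ≤ (m : ℝ) ^ (-(1 + ε)) := fun m => Real.rpow_nonneg (by positivity) _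
  have h1 := EulerProduct.prod_filter_prime_geometric_eq_tsum_factoredNumbers hs' P
  rw [Finset.filter_true_of_mem hP] at h1
  have h2 : ∑' m : Nat.factoredNumbers P, lowF ε m ≤ 1 + 1 / ε :=
    (Summable.tsum_subtype_le (lowF ε) _ hnn hs').trans (low_tsum hε)
  rw [← h1] at h2
  have hlt : ∀ p ∈ P, lowF ε p < 1 := by
    intro p hp
    refine Real.rpow_lt_one_of_one_lt_of_neg ?_ (by linarith)
    exact_mod_cast (hP p hp).one_lt
  have h3 : Real.log (∏ p ∈ P, (1 - lowF ε p)⁻¹) = ∑ p ∈ P, Real.log ((1 - lowF ε p)⁻¹) := by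
    rw [Real.log_prod]
    intro p hp
    have := hlt p hp
    exact inv_ne_zero (by linarith)
  have h4 : ∑ p ∈ P, (p : ℝ) ^ (-(1 + ε)) ≤ ∑ p ∈ P, Real.log ((1 - lowF ε p)⁻¹) := by
    refine Finset.sum_le_sum fun p hp => ?_
    rw [Real.log_inv]
    have h5 := hlt p hp
    have h6 := Real.log_le_sub_one_of_pos (show 0 < 1 - lowF ε p by linarith)
    have h7 : lowF ε p = (p : ℝ) ^ (-(1 + ε)) := rfl
    linarith
  rw [← h3] at h4
  refine h4.trans (Real.log_le_log ?_ h2)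
  refine Finset.prod_pos fun p hp => ?_
  have := hlt p hp
  exact inv_pos.2 (by linarith)

section

variable {K : Type u} [Field K] [NumberField K]

theorem low_places {ε : ℝ} (hε : 0 < ε) :
    (∑' v : HeightOneSpectrum (𝓞 K), (Curve.qv v : ℝ) ^ (-(1 + ε))) ≤
      (Module.finrank ℚ K : ℝ) * Real.log (1 + 1 / ε) := by
  classical
  have hlog : 0 ≤ Real.log (1 + 1 / ε) := Real.log_nonneg (by
    have : 0 < 1 / ε := by positivity
    linarith)
  refine tsum_le_of_sum_le' (mul_nonneg (by positivity) hlog) fun V => ?_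
  have hnn : ∀ m : ℕ, (0 : ℝ) ≤ (m : ℝ) ^ (-(1 + ε)) := fun m =>
    Real.rpow_nonneg (by positivity) _
  calc ∑ v ∈ V, (Curve.qv v : ℝ) ^ (-(1 + ε))
      ≤ ∑ v ∈ V, ((Fam.N v).minFac : ℝ) ^ (-(1 + ε)) := by
        refine Finset.sum_le_sum fun v _ => ?_
        rw [Curve.qv_eq]
        refine Real.rpow_le_rpow_of_nonpos ?_ ?_ (by linarith)
        · exact_mod_cast Nat.minFac_pos _
        · exact_mod_cast Nat.minFac_le (by have := Fam.one_lt_N v; omega)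
    _ = ∑ m ∈ V.image (fun v => (Fam.N v).minFac),
        ((V.filter fun v => (Fam.N v).minFac = m).card : ℝ) * (m : ℝ) ^ (-(1 + ε)) := by
        rw [Finset.sum_comp (fun m : ℕ => (m : ℝ) ^ (-(1 + ε))) fun v => (Fam.N v).minFac]
        simp only [nsmul_eq_mul]
    _ ≤ ∑ m ∈ V.image (fun v => (Fam.N v).minFac),
        (Module.finrank ℚ K : ℝ) * (m : ℝ) ^ (-(1 + ε)) := by
        refine Finset.sum_le_sum fun m hm => ?_
        obtain ⟨v, -, rfl⟩ := Finset.mem_image.1 hm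
        refine mul_le_mul_of_nonneg_right ?_ (hnn _)
        have h1 := Fam.one_lt_N v
        have h2 := Fam.card_above_le (Nat.minFac_prime (n := Fam.N v) (by omega))
          (V.filter fun w => (Fam.N w).minFac = (Fam.N v).minFac)
          fun w hw => (Finset.mem_filter.1 hw).2
        rw [NumberField.RingOfIntegers.rank] at h2
        exact_mod_cast h2
    _ = (Module.finrank ℚ K : ℝ) * ∑ m ∈ V.image (fun v => (Fam.N v).minFac),
        (m : ℝ) ^ (-(1 + ε)) := by rw [Finset.mul_sum]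
    _ ≤ _ := by
        refine mul_le_mul_of_nonneg_left (low_primes hε _ fun p hp => ?_) (by positivity)
        obtain ⟨v, -, rfl⟩ := Finset.mem_image.1 hp
        exact Nat.minFac_prime (by have := Fam.one_lt_N v; omega)

end

/-- Z4 (file Zd/Lower.lean). -/
theorem lower_centre (n : ℕ) : ∃ C : ℝ, 0 < C ∧ ∀ (K : Type u) [Field K] [NumberField K]
    (W : WeierstrassCurve K), Module.finrank ℚ K = n → ∀ s : ℂ, 3 / 2 < s.re → s.re ≤ 5 / 2 →
    Real.exp (-C) * (s.re - 3 / 2) ^ (2 * n) ≤ ‖W.LSeries s‖ := by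
  obtain ⟨C₀, hC₀⟩ := bd_le.{u} n
  have hlog2 : 0 < Real.log 2 := Real.log_pos (by norm_num)
  refine ⟨|C₀| + 2 * n * Real.log 2 + 1, by positivity, ?_⟩
  intro K _ _ W hn s hs1 hs2
  set ε : ℝ := s.re - 3 / 2 with hε
  have hε0 : 0 < ε := by linarith
  have hε1 : ε ≤ 1 := by linarith
  obtain ⟨a, b, α, β, c, D, hL, -⟩ := exists_data W
  have hs : s = ((3 / 2 + ε : ℝ) : ℂ) + s.im * I := by
    apply Complex.ext
    · simp [hε]
    · simp
  have h1 := log_lower D s.im ε hε0 hε1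
  rw [← hs, ← hL] at h1
  have h2 := (hC₀ K hn).1
  have h3 := low_places (K := K) hε0
  rw [hn] at h3
  have hne : 0 < ‖W.LSeries s‖ := norm_pos_iff.2 (LSeries_ne W hs1)
  have h4 : Real.log (1 + 1 / ε) ≤ Real.log 2 - Real.log ε := by
    rw [← Real.log_div (by norm_num) hε0.ne']
    refine Real.log_le_log (by positivity) ?_
    rw [le_div_iff₀ hε0, add_mul, one_div, inv_mul_cancel₀ hε0.ne']
    linarith
  have h5 : (n : ℝ) * Real.log (1 + 1 / ε) ≤ n * (Real.log 2 - Real.log ε) :=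
    mul_le_mul_of_nonneg_left h4 (by positivity)
  have h6 := le_abs_self C₀
  have h7 : -(|C₀| + 2 * n * Real.log 2 + 1) + (2 * n : ℕ) * Real.log ε ≤
      Real.log ‖W.LSeries s‖ := by
    push_cast
    nlinarith
  calc Real.exp (-(|C₀| + 2 * n * Real.log 2 + 1)) * ε ^ (2 * n)
      = Real.exp (-(|C₀| + 2 * n * Real.log 2 + 1) + (2 * n : ℕ) * Real.log ε) := by
        rw [Real.exp_add, Real.exp_nat_mul, Real.exp_log hε0]
    _ ≤ Real.exp (Real.log ‖W.LSeries s‖) := Real.exp_le_exp.2 h7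
    _ = ‖W.LSeries s‖ := Real.exp_log hne

end Pool.Agent.MPfb225e.Zd
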