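import Mathlib
import Pool.Agent.Lib.MP_fb225e_nt.Szf.Rational

/-!
MP_fb225e_nt, project ZD: orders of vanishing of a product, sums over the primes.
-/

namespace Pool.Agent.MPfb225e.Zd

open Filter Topology Complex

theorem order_prod {g : ℂ → ℂ} (hg : Differentiable ℂ g) {x : ℂ} (hx : g x ≠ 0) :
    ∀ (k : ℕ) (ρ : Fin k → ℂ) (F : ℂ → ℂ), (∀ z, F z = (∏ j, (z - ρ j)) * g z) →
      analyticOrderAt F x = ((Finset.univ.filter fun j => ρ j = x).card : ℕ) := by
  intro k
  induction k with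
  | zero =>
    intro ρ F hF
    have h1 : F = g := by
      funext z
      rw [hF z]
      simp
    rw [h1, (hg.analyticAt x).analyticOrderAt_eq_zero.2 hx]
    simp
  | succ k ih =>
    intro ρ F hF
    set F' : ℂ → ℂ := fun z => (∏ j : Fin k, (z - ρ j.succ)) * g z with hF'
    have hF'd : Differentiable ℂ F' := by
      rw [hF']
      fun_prop
    have h1 := ih (fun j => ρ j.succ) F' fun z => rfl
    have hlin : Differentiable ℂ (fun z : ℂ => z - ρ 0) := differentiable_id.sub_const (ρ 0)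
    have e : F = (fun z : ℂ => z - ρ 0) * F' := by
      funext z
      rw [hF z, Fin.prod_univ_succ, Pi.mul_apply, hF']
      ring
    rw [e, analyticOrderAt_mul (hlin.analyticAt x) (hF'd.analyticAt x), h1]
    have h2 : analyticOrderAt (fun z : ℂ => z - ρ 0) x = ((if ρ 0 = x then 1 else 0 : ℕ) : ℕ∞) := by
      split_ifs with h
      · have := analyticOrderAt_id_sub_const_self (𝕜 := ℂ) (c := ρ 0)
        rw [← h]
        have h3 : analyticOrderAt (fun z : ℂ => z - ρ 0) (ρ 0) = 1 := this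
        rw [h3]
        rfl
      · rw [(hlin.analyticAt x).analyticOrderAt_eq_zero.2 (sub_ne_zero.2 (Ne.symm h))]
        rfl
    rw [h2, ← Nat.cast_add]
    congr 1
    rw [Finset.card_filter, Finset.card_filter, Fin.sum_univ_succ]

/-- The orders of vanishing at the points of a finite set. -/
theorem orders_le {g : ℂ → ℂ} (hg : Differentiable ℂ g) {k : ℕ} (ρ : Fin k → ℂ) {F : ℂ → ℂ}
    (hF : ∀ z, F z = (∏ j, (z - ρ j)) * g z) (S : Finset ℂ) (hS : ∀ x ∈ S, g x ≠ 0)
    (P : Fin k → Prop) [DecidablePred P] (hP : ∀ j, ρ j ∈ S → P j) :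
    ∑ x ∈ S, analyticOrderNatAt F x ≤ (Finset.univ.filter P).card := by
  classical
  have h1 : ∑ x ∈ S, analyticOrderNatAt F x =
      ∑ x ∈ S, (Finset.univ.filter fun j => ρ j = x).card := by
    refine Finset.sum_congr rfl fun x hx => ?_
    unfold analyticOrderNatAt
    rw [order_prod hg (hS x hx) k ρ F hF]
    rfl
  rw [h1]
  have h2 : ∑ x ∈ S, (Finset.univ.filter fun j => ρ j = x).card =
      (Finset.univ.filter fun j => ρ j ∈ S).card := by
    rw [Finset.card_eq_sum_card_fiberwise (f := ρ) (t := S)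
      (s := Finset.univ.filter fun j => ρ j ∈ S)]
    · refine Finset.sum_congr rfl fun x hx => ?_
      congr 1
      ext j
      simp only [Finset.mem_filter, Finset.mem_univ, true_and]
      constructor
      · intro h; exact ⟨by rw [h]; exact hx, h⟩
      · intro h; exact h.2
    · intro j hj
      have := Finset.mem_coe.1 hj
      rw [Finset.mem_filter] at this
      exact this.2
  rw [h2]
  refine Finset.card_le_card fun j hj => ?_
  rw [Finset.mem_filter] at hj ⊢
  exact ⟨hj.1, hP j hj.2⟩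

/-- `Σ_p log p p ^ (-1-ε) ≤ C/ε`. -/
theorem sum_lp : ∃ C : ℝ, 0 < C ∧ ∀ ε : ℝ, 0 < ε → ε ≤ 1 → ∑' p, Szf.lp ε p ≤ C / ε := by
  have h := Szf.rat_one 1 one_pos
  rw [eventually_nhdsWithin_iff, Metric.eventually_nhds_iff] at h
  obtain ⟨r, hr, h⟩ := h
  set ε₁ : ℝ := min (r / 2) 1 with hε₁
  have hε₁0 : 0 < ε₁ := by positivity
  have h1 : ε₁ * ∑' p, Szf.lp ε₁ p ≤ 1 + 1 := h (y := ε₁) (by
    rw [Real.dist_eq, sub_zero, abs_of_pos hε₁0]
    have : ε₁ ≤ r / 2 := min_le_left _ _
    linarith) hε₁0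
  refine ⟨max 2 (2 / ε₁), by positivity, fun ε hε hε1 => ?_⟩
  rcases lt_or_ge ε ε₁ with h2 | h2
  · have h3 : ε * ∑' p, Szf.lp ε p ≤ 1 + 1 := h (y := ε) (by
      rw [Real.dist_eq, sub_zero, abs_of_pos hε]
      have : ε₁ ≤ r / 2 := min_le_left _ _
      linarith) hε
    rw [le_div_iff₀ hε, mul_comm]
    exact h3.trans (by norm_num)
  · have h3 : ∑' p, Szf.lp ε p ≤ ∑' p, Szf.lp ε₁ p := by
      refine (Szf.summable_lp hε).tsum_le_tsum (fun p => ?_) (Szf.summable_lp hε₁0)
      unfold Szf.lp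
      have hp : (1 : ℝ) ≤ p := by exact_mod_cast p.2.one_lt.le
      refine mul_le_mul_of_nonneg_left ?_ (Real.log_nonneg hp)
      exact Real.rpow_le_rpow_of_exponent_le hp (by linarith)
    have h4 : ∑' p, Szf.lp ε₁ p ≤ 2 / ε₁ := by
      rw [le_div_iff₀ hε₁0, mul_comm]
      exact h1.trans (by norm_num)
    calc ∑' p, Szf.lp ε p ≤ 2 / ε₁ := h3.trans h4
      _ ≤ max 2 (2 / ε₁) := le_max_right _ _
      _ ≤ max 2 (2 / ε₁) / ε := by
          rw [le_div_iff₀ hε]
          exact mul_le_of_le_one_right (by positivity) hε1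

end Pool.Agent.MPfb225e.Zd
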