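import Mathlib

/-!
MP_fb225e_nt, project ZD: power sums over the zeros.
-/

namespace Pool.Agent.MPfb225e.Zd

open Filter Topology Complex

/-- Turán's theorem for a finite subset. -/
theorem turan_finset {A : ℝ} (hT : ∀ (m N : ℕ) (z : Fin N → ℂ), N ≤ m → (∀ j, ‖z j‖ ≤ 1) →
    (∃ j, ‖z j‖ = 1) → ∃ k : ℕ, m + 1 ≤ k ∧ k ≤ 2 * m ∧ A⁻¹ ^ m ≤ ‖∑ j, z j ^ k‖)
    {ι : Type*} (S : Finset ι) (z : ι → ℂ) (m : ℕ) (hS : S.card ≤ m) (hz : ∀ j ∈ S, ‖z j‖ ≤ 1)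
    (hz1 : ∃ j ∈ S, ‖z j‖ = 1) :
    ∃ k : ℕ, m + 1 ≤ k ∧ k ≤ 2 * m ∧ A⁻¹ ^ m ≤ ‖∑ j ∈ S, z j ^ k‖ := by
  have e := S.equivFin
  obtain ⟨j₀, hj₀, hj1⟩ := hz1
  obtain ⟨k, h1, h2, h3⟩ := hT m S.card (fun i => z (e.symm i)) hS (fun i => hz _ (e.symm i).2)
    ⟨e ⟨j₀, hj₀⟩, by simpa using hj1⟩
  refine ⟨k, h1, h2, ?_⟩
  have h4 : ∑ i, z (e.symm i) ^ k = ∑ j ∈ S, z j ^ k := by
    rw [← Finset.sum_coe_sort S fun j => z j ^ k]
    exact Equiv.sum_comp e.symm fun j : S => z j ^ k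
  rwa [h4] at h3

/-- Detection of a zero by a power sum. -/
theorem power_detect {A : ℝ} (hA : 1 ≤ A) (hT : ∀ (m N : ℕ) (z : Fin N → ℂ), N ≤ m →
    (∀ j, ‖z j‖ ≤ 1) → (∃ j, ‖z j‖ = 1) →
    ∃ k : ℕ, m + 1 ≤ k ∧ k ≤ 2 * m ∧ A⁻¹ ^ m ≤ ‖∑ j, z j ^ k‖)
    {k : ℕ} (ρ : Fin k → ℂ) (s₀ : ℂ) {η S : ℝ} (m : ℕ) (hη : 0 < η)
    (hre : ∀ j, η ≤ (s₀ - ρ j).re) (hsum : ∑ j, (‖s₀ - ρ j‖⁻¹) ^ 2 ≤ S / η ^ 2)
    (hm : (12 * A) ^ 2 * S ≤ m) (j₀ : Fin k) (hj₀ : ‖s₀ - ρ j₀‖ ≤ 3 * η) :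
    ∃ q : ℕ, m + 1 ≤ q ∧ q ≤ 2 * m ∧
      3 / 4 * A⁻¹ ^ m * ((3 * η)⁻¹) ^ q ≤ ‖∑ j, ((s₀ - ρ j)⁻¹) ^ q‖ := by
  classical
  have hA0 : 0 < A := by linarith
  set D : ℝ := 12 * A with hD
  have hD0 : 0 < D := by positivity
  have hnorm : ∀ j, η ≤ ‖s₀ - ρ j‖ := fun j => (hre j).trans (Complex.re_le_norm _)
  have hpos : ∀ j, 0 < ‖s₀ - ρ j‖ := fun j => lt_of_lt_of_le hη (hnorm j)
  set near : Finset (Fin k) := Finset.univ.filter fun j => ‖s₀ - ρ j‖ ≤ D * η with hnear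
  have hj₀n : j₀ ∈ near := by
    rw [hnear, Finset.mem_filter]
    refine ⟨Finset.mem_univ _, hj₀.trans ?_⟩
    rw [hD]
    nlinarith
  -- the number of near zeros
  have hcard : (near.card : ℝ) ≤ D ^ 2 * S := by
    have h1 : ∑ j ∈ near, (D * η)⁻¹ ^ 2 ≤ ∑ j, (‖s₀ - ρ j‖⁻¹) ^ 2 := by
      refine (Finset.sum_le_sum fun j hj => ?_).trans (Finset.sum_le_univ_sum_of_nonneg
        fun j => by positivity)
      rw [hnear, Finset.mem_filter] at hj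
      exact pow_le_pow_left₀ (by positivity) (inv_anti₀ (hpos j) hj.2) 2
    rw [Finset.sum_const, nsmul_eq_mul] at h1
    have h2 := h1.trans hsum
    have h3 : (near.card : ℝ) * (D * η)⁻¹ ^ 2 = near.card / (D ^ 2 * η ^ 2) := by
      rw [inv_pow, mul_pow]; rfl
    rw [h3, div_le_div_iff₀ (by positivity) (by positivity)] at h2
    have h4 : (near.card : ℝ) * η ^ 2 ≤ (D ^ 2 * S) * η ^ 2 := by linarith
    exact le_of_mul_le_mul_right h4 (by positivity)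
  have hcard' : near.card ≤ m := by exact_mod_cast hcard.trans hm
  -- the nearest zero
  obtain ⟨j₁, hj₁, hmin⟩ := near.exists_min_image (fun j => ‖s₀ - ρ j‖) ⟨j₀, hj₀n⟩
  set d : ℝ := ‖s₀ - ρ j₁‖ with hd
  have hd0 : 0 < d := hpos j₁
  have hd3 : d ≤ 3 * η := (hmin j₀ hj₀n).trans hj₀
  obtain ⟨q, hq1, hq2, hq3⟩ := turan_finset hT near (fun j => d * (s₀ - ρ j)⁻¹) m hcard'
    (fun j hj => by
      rw [norm_mul, norm_inv, Complex.norm_real, Real.norm_eq_abs, abs_of_pos hd0,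
        ← div_eq_mul_inv, div_le_one (hpos j)]
      exact hmin j hj)
    ⟨j₁, hj₁, by
      rw [norm_mul, norm_inv, Complex.norm_real, Real.norm_eq_abs, abs_of_pos hd0, ← hd,
        mul_inv_cancel₀ hd0.ne']⟩
  refine ⟨q, hq1, hq2, ?_⟩
  have hm1 : 1 ≤ m := by
    by_contra h
    have h0 : m = 0 := by omega
    have h1 : 0 < near.card := Finset.card_pos.2 ⟨j₀, hj₀n⟩
    omega
  -- near part
  have hnearsum : A⁻¹ ^ m * ((3 * η)⁻¹) ^ q ≤ ‖∑ j ∈ near, ((s₀ - ρ j)⁻¹) ^ q‖ := by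
    have e1 : ∑ j ∈ near, ((d : ℂ) * (s₀ - ρ j)⁻¹) ^ q =
        (d : ℂ) ^ q * ∑ j ∈ near, ((s₀ - ρ j)⁻¹) ^ q := by
      rw [Finset.mul_sum]
      exact Finset.sum_congr rfl fun j _ => mul_pow _ _ _
    rw [e1, norm_mul, norm_pow, Complex.norm_real, Real.norm_eq_abs, abs_of_pos hd0] at hq3
    have h2 : ((3 * η)⁻¹) ^ q ≤ (d⁻¹) ^ q :=
      pow_le_pow_left₀ (by positivity) (inv_anti₀ hd0 hd3) q
    calc A⁻¹ ^ m * ((3 * η)⁻¹) ^ q ≤ A⁻¹ ^ m * (d⁻¹) ^ q :=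
          mul_le_mul_of_nonneg_left h2 (by positivity)
      _ ≤ (d ^ q * ‖∑ j ∈ near, ((s₀ - ρ j)⁻¹) ^ q‖) * (d⁻¹) ^ q :=
          mul_le_mul_of_nonneg_right hq3 (by positivity)
      _ = ‖∑ j ∈ near, ((s₀ - ρ j)⁻¹) ^ q‖ := by
          rw [inv_pow]
          field_simp
  -- far part
  have hfar : ‖∑ j ∈ Finset.univ.filter (fun j => ¬ ‖s₀ - ρ j‖ ≤ D * η), ((s₀ - ρ j)⁻¹) ^ q‖ ≤
      1 / 4 * A⁻¹ ^ m * ((3 * η)⁻¹) ^ q := by
    have h1 : ∀ j ∈ Finset.univ.filter (fun j => ¬ ‖s₀ - ρ j‖ ≤ D * η),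
        ‖((s₀ - ρ j)⁻¹) ^ q‖ ≤ ((D * η)⁻¹) ^ (q - 2) * (‖s₀ - ρ j‖⁻¹) ^ 2 := by
      intro j hj
      rw [Finset.mem_filter, not_le] at hj
      have e : q = (q - 2) + 2 := by omega
      rw [norm_pow, norm_inv]
      nth_rewrite 1 [e]
      rw [pow_add]
      refine mul_le_mul_of_nonneg_right ?_ (by positivity)
      exact pow_le_pow_left₀ (by positivity) (inv_anti₀ (by positivity) hj.2.le) _
    refine (norm_sum_le _ _).trans ((Finset.sum_le_sum h1).trans ?_)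
    rw [← Finset.mul_sum]
    have h2 : ∑ j ∈ Finset.univ.filter (fun j => ¬ ‖s₀ - ρ j‖ ≤ D * η), (‖s₀ - ρ j‖⁻¹) ^ 2 ≤
        S / η ^ 2 :=
      (Finset.sum_le_univ_sum_of_nonneg fun j => by positivity).trans hsum
    have hS : D ^ 2 * S ≤ m := hm
    have h3 : S / η ^ 2 ≤ m * (D * η)⁻¹ ^ 2 := by
      rw [div_le_iff₀ (by positivity)]
      have e : (m : ℝ) * (D * η)⁻¹ ^ 2 * η ^ 2 = m / D ^ 2 := by field_simp
      rw [e, le_div_iff₀ (by positivity)]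
      linarith
    calc ((D * η)⁻¹) ^ (q - 2) *
          ∑ j ∈ Finset.univ.filter (fun j => ¬ ‖s₀ - ρ j‖ ≤ D * η), (‖s₀ - ρ j‖⁻¹) ^ 2
        ≤ ((D * η)⁻¹) ^ (q - 2) * (m * (D * η)⁻¹ ^ 2) :=
          mul_le_mul_of_nonneg_left (h2.trans h3) (by positivity)
      _ = m * ((D * η)⁻¹) ^ q := by
          have e2 : ((D * η)⁻¹) ^ q = ((D * η)⁻¹) ^ (q - 2) * ((D * η)⁻¹) ^ 2 := by
            rw [← pow_add]
            congr 1
            omega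
          rw [e2]
          ring
      _ = (m * ((4 * A)⁻¹) ^ q) * ((3 * η)⁻¹) ^ q := by
          have e : (D * η)⁻¹ = (4 * A)⁻¹ * (3 * η)⁻¹ := by
            rw [hD]; field_simp; ring
          rw [e, mul_pow]
          ring
      _ ≤ (1 / 4 * A⁻¹ ^ m) * ((3 * η)⁻¹) ^ q := by
          refine mul_le_mul_of_nonneg_right ?_ (by positivity)
          have h4 : ((4 * A)⁻¹) ^ q ≤ ((4 * A)⁻¹) ^ (m + 1) :=
            pow_le_pow_of_le_one (by positivity) (inv_le_one_of_one_le₀ (by linarith)) hq1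
          have h5 : (m : ℝ) ≤ 4 ^ m := by
            have := Nat.lt_pow_self (n := m) (show 1 < 4 by norm_num)
            exact_mod_cast this.le
          have h6 : ((4 * A)⁻¹) ^ (m + 1) = (4 ^ m)⁻¹ * (1 / 4) * (A⁻¹ ^ m * A⁻¹) := by
            rw [mul_inv, mul_pow, pow_succ, pow_succ]
            have : ((4 : ℝ)⁻¹) ^ m = (4 ^ m)⁻¹ := inv_pow _ _
            rw [this]
            ring
          have h7 : (m : ℝ) * (4 ^ m)⁻¹ ≤ 1 := by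
            rw [← div_eq_mul_inv, div_le_one (by positivity)]
            exact h5
          have h8 : A⁻¹ ≤ 1 := inv_le_one_of_one_le₀ hA
          calc (m : ℝ) * ((4 * A)⁻¹) ^ q ≤ m * ((4 * A)⁻¹) ^ (m + 1) :=
                mul_le_mul_of_nonneg_left h4 (Nat.cast_nonneg _)
            _ = (m * (4 ^ m)⁻¹) * (1 / 4 * A⁻¹ ^ m) * A⁻¹ := by rw [h6]; ring
            _ ≤ 1 * (1 / 4 * A⁻¹ ^ m) * 1 := by
                refine mul_le_mul (mul_le_mul_of_nonneg_right h7 (by positivity)) h8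
                  (by positivity) (by positivity)
            _ = 1 / 4 * A⁻¹ ^ m := by ring
  have hsplit := Finset.sum_filter_add_sum_filter_not Finset.univ (fun j => ‖s₀ - ρ j‖ ≤ D * η)
    (fun j => ((s₀ - ρ j)⁻¹) ^ q)
  rw [← hsplit]
  have h5 := norm_sub_norm_le (∑ j ∈ near, ((s₀ - ρ j)⁻¹) ^ q)
    (-∑ j ∈ Finset.univ.filter (fun j => ¬ ‖s₀ - ρ j‖ ≤ D * η), ((s₀ - ρ j)⁻¹) ^ q)
  rw [norm_neg, sub_neg_eq_add] at h5
  linarith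

end Pool.Agent.MPfb225e.Zd
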