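import Mathlib

/-!
# Comparison of the Taylor coefficients of the logarithmic derivative
-/

namespace Pool.Agent.MPfb225e.Zd

open Filter Topology Complex
open scoped Nat

/-- the coefficients of the sum over the primes as an L-series -/
noncomputable def Z5_f (a : ℕ → ℝ) (n : ℕ) : ℂ :=
  if n.Prime then (a n : ℂ) * (n : ℂ) ^ ((1 : ℂ) / 2) else 0

theorem Z5_logMul_iter (f : ℕ → ℂ) (m n : ℕ) :
    (LSeries.logMul^[m] f) n = (Real.log n : ℂ) ^ m * f n := by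
  induction m generalizing f with
  | zero => simp
  | succ m ih =>
    rw [Function.iterate_succ_apply, ih]
    unfold LSeries.logMul
    rw [← Complex.natCast_log]
    ring

theorem Z5_LSeries (a : ℕ → ℝ) (m : ℕ) (s : ℂ) :
    LSeries (LSeries.logMul^[m] (Z5_f a)) s =
      ∑' p : Nat.Primes, ((a p * Real.log p ^ m : ℝ) : ℂ) * (p : ℂ) ^ (-(s - 1 / 2)) := by
  unfold LSeries
  have hinj : Function.Injective (fun p : Nat.Primes => (p : ℕ)) := Nat.Primes.coe_nat_injective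
  rw [← hinj.tsum_eq]
  · refine tsum_congr fun p => ?_
    have hp0 : (p : ℕ) ≠ 0 := p.2.ne_zero
    have hp1 : ((p : ℕ) : ℂ) ≠ 0 := by exact_mod_cast hp0
    rw [LSeries.term_of_ne_zero hp0, Z5_logMul_iter]
    unfold Z5_f
    rw [if_pos p.2]
    have e : ((p : ℕ) : ℂ) ^ (-(s - 1 / 2)) = ((p : ℕ) : ℂ) ^ ((1 : ℂ) / 2) / ((p : ℕ) : ℂ) ^ s := by
      rw [← Complex.cpow_sub _ _ hp1]
      congr 1
      ring
    rw [e]
    push_cast
    ring
  · intro n hn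
    rw [Function.mem_support] at hn
    by_contra hcon
    apply hn
    have hnp : ¬ n.Prime := fun h => hcon ⟨⟨n, h⟩, rfl⟩
    rcases eq_or_ne n 0 with rfl | hn0
    · simp
    · rw [LSeries.term_of_ne_zero hn0, Z5_logMul_iter]
      unfold Z5_f
      rw [if_neg hnp]
      simp

theorem Z5_norm_le (B : ℝ) (a : ℕ → ℝ) (ha : ∀ p, |a p| ≤ B * Real.log p) {ε : ℝ} (hε : 0 < ε)
    (n : ℕ) (hn : n ≠ 0) : ‖Z5_f a n‖ ≤ |B| / ε * (n : ℝ) ^ (1 / 2 + ε) := by
  have hn0 : (0 : ℝ) < n := by exact_mod_cast Nat.pos_of_ne_zero hn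
  unfold Z5_f
  split_ifs with h
  · rw [norm_mul, Complex.norm_real, Real.norm_eq_abs]
    have h1 : ‖(n : ℂ) ^ ((1 : ℂ) / 2)‖ = (n : ℝ) ^ ((1 : ℝ) / 2) := by
      rw [← Complex.ofReal_natCast, Complex.norm_cpow_eq_rpow_re_of_pos hn0]
      norm_num
    rw [h1, Real.rpow_add hn0]
    have hlog : 0 ≤ Real.log n := Real.log_natCast_nonneg n
    have h2 : |a n| ≤ |B| / ε * (n : ℝ) ^ ε := by
      calc |a n| ≤ B * Real.log n := ha n
        _ ≤ |B| * Real.log n := mul_le_mul_of_nonneg_right (le_abs_self B) hlog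
        _ ≤ |B| * ((n : ℝ) ^ ε / ε) :=
            mul_le_mul_of_nonneg_left (Real.log_le_rpow_div hn0.le hε) (abs_nonneg B)
        _ = |B| / ε * (n : ℝ) ^ ε := by ring
    calc |a n| * (n : ℝ) ^ ((1 : ℝ) / 2)
        ≤ (|B| / ε * (n : ℝ) ^ ε) * (n : ℝ) ^ ((1 : ℝ) / 2) :=
          mul_le_mul_of_nonneg_right h2 (Real.rpow_nonneg hn0.le _)
      _ = |B| / ε * ((n : ℝ) ^ ((1 : ℝ) / 2) * (n : ℝ) ^ ε) := by ring
  · rw [norm_zero]
    positivity

theorem Z5_abscissa (B : ℝ) (a : ℕ → ℝ) (ha : ∀ p, |a p| ≤ B * Real.log p) {x : ℝ}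
    (hx : 3 / 2 < x) : LSeries.abscissaOfAbsConv (Z5_f a) < x := by
  have hε : 0 < (x - 3 / 2) / 2 := by linarith
  have h1 := LSeries.abscissaOfAbsConv_le_of_le_const_mul_rpow (f := Z5_f a)
    (x := 1 / 2 + (x - 3 / 2) / 2)
    ⟨|B| / ((x - 3 / 2) / 2), fun n hn => Z5_norm_le B a ha hε n hn⟩
  refine h1.trans_lt ?_
  have h2 : (((1 / 2 + (x - 3 / 2) / 2 : ℝ) : EReal) + 1) =
      ((1 / 2 + (x - 3 / 2) / 2 + 1 : ℝ) : EReal) := by push_cast; rfl
  rw [h2]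
  exact_mod_cast (by linarith : (1 / 2 + (x - 3 / 2) / 2 + 1 : ℝ) < x)

theorem Z5_iter_inv (ρ s : ℂ) (m : ℕ) :
    iteratedDeriv m (fun z : ℂ => (z - ρ)⁻¹) s = (-1) ^ m * m ! * ((s - ρ)⁻¹) ^ (m + 1) := by
  rw [iteratedDeriv_eq_iterate]
  have h := congrFun (iter_deriv_inv_linear_sub (𝕜 := ℂ) m 1 ρ) s
  simp only [one_mul, one_pow, mul_one] at h
  rw [h]
  congr 1
  rw [show (-1 - (m : ℤ)) = -((m + 1 : ℕ) : ℤ) by push_cast; ring, zpow_neg, zpow_natCast, inv_pow]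

/-- Z5. Comparison of the Taylor coefficients. -/
theorem taylor_compare (B : ℝ) (a : ℕ → ℝ) (ha : ∀ p, |a p| ≤ B * Real.log p) (F g E : ℂ → ℂ)
    (k : ℕ) (ρ : Fin k → ℂ) (s₀ : ℂ) (R G : ℝ) (hR : 0 < R) (hs₀ : 3 / 2 < s₀.re)
    (hg : Differentiable ℂ g) (hfac : ∀ z, F z = (∏ j, (z - ρ j)) * g z)
    (hρ : ∀ j, (ρ j).re ≤ 3 / 2) (hg0 : ∀ z ∈ Metric.closedBall s₀ R, g z ≠ 0)
    (hgb : ∀ z ∈ Metric.closedBall s₀ R, ‖deriv g z / g z‖ ≤ G)
    (hE : ∀ z ∈ Metric.closedBall s₀ R, DifferentiableAt ℂ E z)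
    (hEb : ∀ z ∈ Metric.closedBall s₀ R, ‖E z‖ ≤ G)
    (hexp : ∀ s : ℂ, 3 / 2 < s.re → deriv F s / F s =
      E s - ∑' p : Nat.Primes, (a p : ℂ) * (p : ℂ) ^ (-(s - 1 / 2))) (m : ℕ) :
    ‖(∑' p : Nat.Primes, ((a p * (Real.log p ^ m / m !) : ℝ) : ℂ) * (p : ℂ) ^ (-(s₀ - 1 / 2))) +
      ∑ j, ((s₀ - ρ j)⁻¹) ^ (m + 1)‖ ≤ 2 * G * (R⁻¹) ^ m := by
  set f := Z5_f a with hf
  set H : ℂ → ℂ := fun z => E z - deriv g z / g z with hH
  -- the sum over the primes as an L-series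
  have hP : ∀ s : ℂ, (∑' p : Nat.Primes, (a p : ℂ) * (p : ℂ) ^ (-(s - 1 / 2))) = LSeries f s := by
    intro s
    have h := Z5_LSeries a 0 s
    simp only [pow_zero, mul_one, Function.iterate_zero, id] at h
    exact h.symm
  have hne : ∀ z : ℂ, 3 / 2 < z.re → ∀ j, z - ρ j ≠ 0 := by
    intro z hz j h0
    have h1 : z = ρ j := sub_eq_zero.mp h0
    have h2 := hρ j
    rw [← h1] at h2
    linarith
  -- the identity near the centre
  have hloc : (fun z => LSeries f z + ∑ j, (z - ρ j)⁻¹) =ᶠ[𝓝 s₀] H := by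
    have h1 : ∀ᶠ z in 𝓝 s₀, 3 / 2 < z.re :=
      (isOpen_lt continuous_const Complex.continuous_re).mem_nhds hs₀
    have h2 : ∀ᶠ z in 𝓝 s₀, z ∈ Metric.closedBall s₀ R := Metric.closedBall_mem_nhds s₀ hR
    filter_upwards [h1, h2] with z hz1 hz2
    have hFd : deriv F z / F z = (∑ j, (z - ρ j)⁻¹) + deriv g z / g z := by
      have hF : F = fun z => (∏ j, (z - ρ j)) * g z := funext hfac
      have h3 : deriv F z / F z = logDeriv F z := rfl
      rw [h3, hF, logDeriv_mul (f := fun z => ∏ j, (z - ρ j)) (g := g) z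
        (Finset.prod_ne_zero_iff.mpr fun j _ => hne z hz1 j) (hg0 z hz2) (by fun_prop)
        (hg z)]
      rw [logDeriv_prod (f := fun j z => z - ρ j) (fun j _ => hne z hz1 j)
        (fun j _ => by fun_prop)]
      congr 1
      refine Finset.sum_congr rfl fun j _ => ?_
      rw [logDeriv_apply]
      simp
    have h4 := hexp z hz1
    rw [hFd, hP] at h4
    change LSeries f z + ∑ j, (z - ρ j)⁻¹ = E z - deriv g z / g z
    linear_combination h4
  -- derivatives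
  have habs : LSeries.abscissaOfAbsConv f < s₀.re := Z5_abscissa B a ha hs₀
  have hLan : ContDiffAt ℂ m (LSeries f) s₀ := (LSeries_analyticOnNhd f s₀ habs).contDiffAt
  have hinv : ∀ j, ContDiffAt ℂ m (fun z : ℂ => (z - ρ j)⁻¹) s₀ := fun j =>
    (contDiffAt_id.sub contDiffAt_const).inv (hne s₀ hs₀ j)
  have hD : iteratedDeriv m H s₀ = (-1) ^ m * (m ! : ℂ) *
      ((∑' p : Nat.Primes, ((a p * (Real.log p ^ m / m !) : ℝ) : ℂ) * (p : ℂ) ^ (-(s₀ - 1 / 2))) +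
      ∑ j, ((s₀ - ρ j)⁻¹) ^ (m + 1)) := by
    rw [← hloc.iteratedDeriv_eq m, iteratedDeriv_fun_add hLan
      (ContDiffAt.sum fun j _ => hinv j), iteratedDeriv_fun_sum fun j _ => hinv j,
      LSeries_iteratedDeriv m habs, Z5_LSeries]
    simp only [Z5_iter_inv]
    rw [mul_add, Finset.mul_sum]
    congr 1
    rw [mul_assoc ((-1 : ℂ) ^ m)]
    congr 1
    rw [← tsum_mul_left]
    refine tsum_congr fun p => ?_
    have hm : (m ! : ℂ) ≠ 0 := by exact_mod_cast Nat.factorial_ne_zero m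
    push_cast
    field_simp
  -- the Cauchy estimate
  have hHd : DiffContOnCl ℂ H (Metric.ball s₀ R) := by
    have h1 : ∀ z ∈ Metric.closedBall s₀ R, DifferentiableAt ℂ H z := fun z hz =>
      (hE z hz).sub (((hg.contDiff (n := 2)).differentiable_deriv_two z).div (hg z) (hg0 z hz))
    refine DifferentiableOn.diffContOnCl fun z hz => ?_
    rw [closure_ball s₀ hR.ne'] at hz
    exact (h1 z hz).differentiableWithinAt
  have hC := Complex.norm_iteratedDeriv_le_of_forall_mem_sphere_norm_le (C := 2 * G) m hR hHd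
    (fun z hz => by
      have hz' := Metric.sphere_subset_closedBall hz
      calc ‖H z‖ ≤ ‖E z‖ + ‖deriv g z / g z‖ := norm_sub_le _ _
        _ ≤ 2 * G := by linarith [hEb z hz', hgb z hz'])
  rw [hD, norm_mul, norm_mul, norm_pow, norm_neg, norm_one, one_pow, one_mul,
    Complex.norm_natCast, mul_div_assoc] at hC
  have hm : (0 : ℝ) < (m ! : ℝ) := by exact_mod_cast Nat.factorial_pos m
  have h5 := le_of_mul_le_mul_left hC hm
  rw [inv_pow, ← div_eq_mul_inv]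
  exact h5

end Pool.Agent.MPfb225e.Zd
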