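import Mathlib
import Pool.Agent.Lib.MP_fb225e_nt.Zd.Power
import Pool.Agent.Lib.MP_fb225e_nt.Zd.Orders
import Pool.Agent.Lib.MP_fb225e_nt.Zd.Local
import Pool.Agent.Lib.MP_fb225e_nt.Zd.Expansion
import Pool.Agent.Lib.MP_fb225e_nt.Zd.Lower
import Pool.Agent.Lib.MP_fb225e_nt.Zd.Taylor
import Pool.Agent.Lib.MP_fb225e_nt.Zfr.OneCurve

/-!
MP_fb225e_nt, project ZD: detection of the zeros by sums over the primes.
-/

namespace Pool.Agent.MPfb225e.Zd

open Filter Topology Complex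
open NumberField IsDedekindDomain
open scoped Nat

universe u

/-- norms of the terms of the prime sum -/
theorem norm_cpow_le (p : Nat.Primes) (s : ℂ) :
    ‖(p : ℂ) ^ (-(s - 1 / 2))‖ = (p : ℝ) ^ (-(s.re - 1 / 2)) := by
  have hp : (0 : ℝ) < (p : ℕ) := by exact_mod_cast p.2.pos
  have h := Complex.norm_cpow_eq_rpow_re_of_pos hp (-(s - 1 / 2))
  have e : (-(s - 1 / 2)).re = -(s.re - 1 / 2) := by
    rw [Complex.neg_re, Complex.sub_re]
    norm_num
  rw [e] at h
  exact_mod_cast h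

/-- The local data at height `t`. -/
theorem local_data (n : ℕ) : ∃ C₀ : ℝ, 0 < C₀ ∧ ∀ (K : Type u) [Field K] [NumberField K]
    (W : WeierstrassCurve K), Module.finrank ℚ K = n → ∃ y : ℕ → ℝ, (∀ p, |y p| ≤ 2 * n) ∧
    ∀ (F : ℂ → ℂ), Differentiable ℂ F → (∀ s : ℂ, 3 / 2 < s.re → F s = W.LSeries s) →
    ∀ (δ T M : ℝ), 0 < δ → δ ≤ 1 / 2 → 0 ≤ T → 2 ≤ M →
    (∀ s : ℂ, 3 / 2 - δ ≤ s.re → |s.im| ≤ T + 1 → ‖F s‖ ≤ M) →
    ∀ η : ℝ, 0 < η → 32 * η ≤ δ → ∀ t : ℝ, |t| ≤ T + 1 / 2 →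
    ∃ (k : ℕ) (ρ : Fin k → ℂ) (g : ℂ → ℂ), Differentiable ℂ g ∧
      (∀ z, F z = (∏ j, (z - ρ j)) * g z) ∧
      (∀ z : ℂ, 3 / 2 - η ≤ z.re → z.re ≤ 3 / 2 → |z.im - t| ≤ η → g z ≠ 0) ∧
      (∀ j, (ρ j).re ≤ 3 / 2) ∧
      ∑ j, (‖((3 / 2 + η : ℝ) : ℂ) + t * I - ρ j‖⁻¹) ^ 2 ≤
        C₀ * (1 + η * (Zfr.Lg M T δ / δ)) / η ^ 2 ∧
      ∀ m : ℕ, ‖(∑' p : Nat.Primes, ((y p * Real.log p * (Real.log p ^ m / m !) : ℝ) : ℂ) *
        (p : ℂ) ^ (-(((3 / 2 + η : ℝ) : ℂ) + t * I - 1 / 2))) +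
        ∑ j, ((((3 / 2 + η : ℝ) : ℂ) + t * I - ρ j)⁻¹) ^ (m + 1)‖ ≤
          C₀ * (Zfr.Lg M T δ / δ) * ((16 / δ) ^ m) := by
  obtain ⟨C₂, hC₂, hloc⟩ := local_factor'
  obtain ⟨C₃, hC₃, hexp⟩ := prime_expansion.{u} n
  obtain ⟨C₄, hC₄, hlow⟩ := lower_centre.{u} n
  obtain ⟨C₈, hC₈, hlp⟩ := sum_lp
  set CG : ℝ := 8 * C₂ * (C₄ + 6 * n + 2) + C₃ with hCG
  have hCG0 : 0 < CG := by positivity
  set CS : ℝ := 2 * n * C₈ + 2 * CG with hCS
  have hCS0 : 0 < CS := by positivity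
  refine ⟨CS + 2 * CG, by positivity, ?_⟩
  intro K _ _ W hn
  obtain ⟨y, E, hy, hE1, hE2, hE3⟩ := hexp K W hn
  refine ⟨y, hy, ?_⟩
  intro F hF hFL δ T M hδ hδ1 hT hM hFM η hη hηδ t ht
  have hLg := Zfr.two_le_Lg hδ hδ1 hT hM
  have hLM := Zfr.log_M_le hδ hδ1 hT hM
  have hLδ := Zfr.log_δ_le hδ hδ1 hT hM
  set Lg := Zfr.Lg M T δ with hLgdef
  set Λ : ℝ := Lg / δ with hΛ
  have hΛ1 : 1 ≤ Λ := by
    rw [hΛ, le_div_iff₀ hδ]
    linarith
  have hLgΛ : Lg ≤ Λ := by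
    rw [hΛ, le_div_iff₀ hδ]
    nlinarith
  set r : ℝ := δ / 8 with hr
  have hr0 : 0 < r := by positivity
  set c : ℂ := ((3 / 2 + r / 4 : ℝ) : ℂ) + t * I with hc
  set s₀ : ℂ := ((3 / 2 + η : ℝ) : ℂ) + t * I with hs₀
  have hcre : c.re = 3 / 2 + r / 4 := by simp [hc]
  have hcim : c.im = t := by simp [hc]
  have hs₀re : s₀.re = 3 / 2 + η := by simp [hs₀]
  have hs₀im : s₀.im = t := by simp [hs₀]
  -- the centre
  have hFc : Real.exp (-C₄) * (r / 4) ^ (2 * n) ≤ ‖F c‖ := by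
    have h1 := hlow K W hn c (by rw [hcre]; linarith) (by rw [hcre]; linarith)
    rw [hcre, add_sub_cancel_left] at h1
    rwa [hFL c (by rw [hcre]; linarith)]
  have hFc0 : F c ≠ 0 := by
    intro h
    rw [h, norm_zero] at hFc
    have : 0 < Real.exp (-C₄) * (r / 4) ^ (2 * n) := by positivity
    linarith
  set L' : ℝ := (C₄ + 6 * n + 1) * Lg with hL'
  have hL'0 : 0 ≤ L' := by positivity
  have hML : M ≤ Real.exp L' * ‖F c‖ := by
    have hlog32 : Real.log 32 ≤ 4 := by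
      have h1 : Real.log 32 = 5 * Real.log 2 := by
        rw [show (32 : ℝ) = 2 ^ 5 by norm_num, Real.log_pow]
        norm_num
      rw [h1]
      linarith [Real.log_two_lt_d9]
    have h1 : Real.log (r / 4) = Real.log δ - Real.log 32 := by
      rw [hr, ← Real.log_div (by positivity) (by norm_num)]
      congr 1
      ring
    have h2 : Real.log M ≤ L' + Real.log (Real.exp (-C₄) * (r / 4) ^ (2 * n)) := by
      rw [Real.log_mul (by positivity) (by positivity), Real.log_exp, Real.log_pow, h1, hL']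
      push_cast
      have h3 : C₄ ≤ C₄ * Lg := by nlinarith
      have h4 : (2 * n : ℝ) * (Real.log 32 - Real.log δ) ≤ 2 * n * (3 * Lg) := by
        refine mul_le_mul_of_nonneg_left ?_ (by positivity)
        linarith
      nlinarith
    have h5 : M ≤ Real.exp L' * (Real.exp (-C₄) * (r / 4) ^ (2 * n)) := by
      rw [← Real.log_le_log_iff (by linarith) (by positivity), Real.log_mul (by positivity)
        (by positivity), Real.log_exp]
      exact h2
    exact h5.trans (mul_le_mul_of_nonneg_left hFc (by positivity))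
  have hball : ∀ z ∈ Metric.closedBall c (4 * r), ‖F z‖ ≤ M := by
    intro z hz
    rw [Metric.mem_closedBall, dist_eq_norm] at hz
    have h1 := (Complex.abs_re_le_norm (z - c)).trans hz
    have h2 := (Complex.abs_im_le_norm (z - c)).trans hz
    rw [Complex.sub_re, hcre, abs_le] at h1
    rw [Complex.sub_im, hcim, abs_le] at h2
    rw [abs_le] at ht
    refine hFM z (by linarith [h1.1]) ?_
    rw [abs_le]
    constructor
    · linarith [h2.1]
    · linarith [h2.2]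
  obtain ⟨k, ρ, g, hg, hfac, hg0, hgb⟩ := hloc F c r M L' hr0 hL'0 hF hball hML hFc0
  have hρz : ∀ j, F (ρ j) = 0 := by
    intro j
    rw [hfac, Finset.prod_eq_zero (Finset.mem_univ j) (sub_self _), zero_mul]
  have hρre : ∀ j, (ρ j).re ≤ 3 / 2 := fun j => Zfr.re_le_of_zero W hFL (hρz j)
  set G : ℝ := CG * Λ with hG
  have hG0 : 0 < G := by positivity
  have hGb : C₂ * (L' + 1) / r ≤ G - C₃ := by
    have h1 : C₂ * (L' + 1) / r = 8 * C₂ * (L' + 1) / δ := by rw [hr]; field_simp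
    have h2 : L' + 1 ≤ (C₄ + 6 * n + 2) * Lg := by rw [hL']; nlinarith
    have h3 : 8 * C₂ * (L' + 1) / δ ≤ 8 * C₂ * ((C₄ + 6 * n + 2) * Lg) / δ := by
      gcongr
    have h4 : 8 * C₂ * ((C₄ + 6 * n + 2) * Lg) / δ = 8 * C₂ * (C₄ + 6 * n + 2) * Λ := by
      rw [hΛ]; ring
    have h5 : C₃ ≤ C₃ * Λ := by nlinarith
    rw [h1, hG, hCG]
    nlinarith
  have hsub : Metric.closedBall s₀ (δ / 16) ⊆ Metric.closedBall c r := by
    refine Metric.closedBall_subset_closedBall' ?_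
    have h1 : dist s₀ c ≤ r / 4 := by
      rw [dist_eq_norm, hs₀, hc]
      have e : ((3 / 2 + η : ℝ) : ℂ) + t * I - (((3 / 2 + r / 4 : ℝ) : ℂ) + t * I) =
          ((η - r / 4 : ℝ) : ℂ) := by push_cast; ring
      rw [e, Complex.norm_real, Real.norm_eq_abs, abs_le]
      constructor <;> linarith
    rw [hr] at h1 ⊢
    linarith
  have hregion : ∀ z : ℂ, 3 / 2 - η ≤ z.re → z.re ≤ 3 / 2 → |z.im - t| ≤ η → g z ≠ 0 := by
    intro z h1 h2 h3
    refine hg0 z ?_
    rw [Metric.mem_closedBall, dist_eq_norm]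
    refine (Complex.norm_le_abs_re_add_abs_im _).trans ?_
    rw [Complex.sub_re, Complex.sub_im, hcre, hcim]
    have h4 : |z.re - (3 / 2 + r / 4)| ≤ η + r / 4 := by
      rw [abs_le]
      constructor <;> linarith
    linarith
  have hE3' : ∀ s : ℂ, 3 / 2 < s.re → deriv F s / F s = E s -
      ∑' p : Nat.Primes, ((y p * Real.log p : ℝ) : ℂ) * (p : ℂ) ^ (-(s - 1 / 2)) :=
    fun s hs => hE3 F hFL s hs
  have hlogn : ∀ p : ℕ, |y p * Real.log p| ≤ 2 * n * Real.log p := by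
    intro p
    rw [abs_mul, abs_of_nonneg (Real.log_natCast_nonneg _)]
    exact mul_le_mul_of_nonneg_right (hy p) (Real.log_natCast_nonneg _)
  have hcomp := taylor_compare (2 * n) (fun p => y p * Real.log p) hlogn F g E k ρ s₀ (δ / 16) G
    (by positivity) (by rw [hs₀re]; linarith) hg hfac hρre (fun z hz => hg0 z (hsub hz))
    (fun z hz => (hgb z (hsub hz)).trans (by linarith [hGb]))
    (fun z hz => hE1 z (by
      rw [Metric.mem_closedBall, dist_eq_norm] at hz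
      have h1 := (Complex.abs_re_le_norm (z - s₀)).trans hz
      rw [Complex.sub_re, hs₀re, abs_le] at h1
      linarith [h1.1]))
    (fun z hz => (hE2 z (by
      rw [Metric.mem_closedBall, dist_eq_norm] at hz
      have h1 := (Complex.abs_re_le_norm (z - s₀)).trans hz
      rw [Complex.sub_re, hs₀re, abs_le] at h1
      linarith [h1.1])).trans (by
        have h5 : C₃ ≤ C₃ * Λ := by nlinarith
        have h6 : 0 ≤ 8 * C₂ * (C₄ + 6 * n + 2) * Λ := by positivity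
        rw [hG, hCG]
        linarith))
    hE3'
  refine ⟨k, ρ, g, hg, hfac, hregion, hρre, ?_, ?_⟩
  · -- the sum over the zeros
    have hgs : g s₀ ≠ 0 := hg0 s₀ (hsub (Metric.mem_closedBall_self (by positivity)))
    have hne : ∀ j, s₀ - ρ j ≠ 0 := by
      intro j h
      have h1 := congrArg Complex.re h
      rw [Complex.sub_re, hs₀re, Complex.zero_re] at h1
      linarith [hρre j]
    have hF0 : F s₀ ≠ 0 := by
      rw [hfac]
      exact mul_ne_zero (Finset.prod_ne_zero_iff.2 fun j _ => hne j) hgs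
    have hld : deriv F s₀ / F s₀ = (∑ j, (s₀ - ρ j)⁻¹) + deriv g s₀ / g s₀ := by
      have h1 : logDeriv F s₀ = logDeriv (fun z => ∏ j, (z - ρ j)) s₀ + logDeriv g s₀ := by
        have e : F = fun z => (∏ j, (z - ρ j)) * g z := funext hfac
        conv_lhs => rw [e]
        exact logDeriv_mul s₀ (Finset.prod_ne_zero_iff.2 fun j _ => hne j) hgs
          (by fun_prop) (hg s₀)
      have h2 : logDeriv (fun z => ∏ j, (z - ρ j)) s₀ = ∑ j, (s₀ - ρ j)⁻¹ := by
        rw [logDeriv_prod (s := Finset.univ) (f := fun j z => z - ρ j) (fun j _ => hne j)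
          (fun j _ => by fun_prop)]
        refine Finset.sum_congr rfl fun j _ => ?_
        rw [logDeriv_apply, deriv_sub_const, deriv_id'', one_div]
      rw [h2] at h1
      simpa only [logDeriv_apply] using h1
    have hEs : ‖E s₀‖ ≤ C₃ := hE2 s₀ (by rw [hs₀re]; linarith)
    have hPs : ‖∑' p : Nat.Primes, ((y p * Real.log p : ℝ) : ℂ) * (p : ℂ) ^ (-(s₀ - 1 / 2))‖ ≤
        2 * n * (C₈ / η) := by
      have hb : ∀ p : Nat.Primes,
          ‖((y p * Real.log p : ℝ) : ℂ) * (p : ℂ) ^ (-(s₀ - 1 / 2))‖ ≤ 2 * n * Szf.lp η p := by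
        intro p
        rw [norm_mul, norm_cpow_le, Complex.norm_real, Real.norm_eq_abs, hs₀re]
        have e : -(3 / 2 + η - 1 / 2) = -(1 + η) := by ring
        rw [e]
        unfold Szf.lp
        rw [← mul_assoc]
        exact mul_le_mul_of_nonneg_right (hlogn p) (Real.rpow_nonneg (by positivity) _)
      have h1 := tsum_of_norm_bounded ((Szf.summable_lp hη).mul_left (2 * (n : ℝ))).hasSum hb
      refine h1.trans ?_
      rw [tsum_mul_left]
      exact mul_le_mul_of_nonneg_left (hlp η hη (by linarith)) (by positivity)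
    have hgs' : ‖deriv g s₀ / g s₀‖ ≤ G - C₃ :=
      (hgb s₀ (hsub (Metric.mem_closedBall_self (by positivity)))).trans hGb
    have hsumre : ∑ j, ((s₀ - ρ j)⁻¹).re ≤ CS * (1 + η * Λ) / η := by
      have h1 : (∑ j, ((s₀ - ρ j)⁻¹).re) = (∑ j, (s₀ - ρ j)⁻¹).re := by
        rw [Complex.re_sum]
      have h2 : (∑ j, (s₀ - ρ j)⁻¹) = deriv F s₀ / F s₀ - deriv g s₀ / g s₀ := by
        rw [hld]; ring
      rw [h1, h2, hE3' s₀ (by rw [hs₀re]; linarith)]
      refine (Complex.re_le_norm _).trans ?_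
      refine (norm_sub_le _ _).trans ?_
      have h3 := norm_sub_le (E s₀)
        (∑' p : Nat.Primes, ((y p * Real.log p : ℝ) : ℂ) * (p : ℂ) ^ (-(s₀ - 1 / 2)))
      have h4 : CS * (1 + η * Λ) / η = 2 * n * (C₈ / η) + 2 * CG / η + CS * Λ := by
        rw [hCS]
        field_simp
      have h5 : G ≤ CS * Λ := by
        rw [hG, hCS]
        have : 0 ≤ (2 * n * C₈ + CG) * Λ := by positivity
        nlinarith
      have h6 : 0 ≤ 2 * CG / η := by positivity
      linarith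
    have hterm : ∀ j, (‖s₀ - ρ j‖⁻¹) ^ 2 ≤ ((s₀ - ρ j)⁻¹).re / η := by
      intro j
      have h1 : η ≤ (s₀ - ρ j).re := by
        rw [Complex.sub_re, hs₀re]
        linarith [hρre j]
      rw [Complex.inv_re, Complex.normSq_eq_norm_sq, inv_pow, div_div, le_div_iff₀ (by
        have := norm_pos_iff.2 (hne j)
        positivity)]
      have h2 : 0 < ‖s₀ - ρ j‖ ^ 2 := by
        have := norm_pos_iff.2 (hne j)
        positivity
      rw [inv_mul_eq_div, mul_div_assoc, mul_comm, div_mul_cancel_of_imp (fun h => absurd h h2.ne')]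
      exact h1
    calc ∑ j, (‖s₀ - ρ j‖⁻¹) ^ 2 ≤ ∑ j, ((s₀ - ρ j)⁻¹).re / η := Finset.sum_le_sum fun j _ => hterm j
      _ = (∑ j, ((s₀ - ρ j)⁻¹).re) / η := by rw [Finset.sum_div]
      _ ≤ (CS * (1 + η * Λ) / η) / η := div_le_div_of_nonneg_right hsumre hη.le
      _ = CS * (1 + η * Λ) / η ^ 2 := by rw [div_div, sq]
      _ ≤ (CS + 2 * CG) * (1 + η * Λ) / η ^ 2 := by
          gcongr
          linarith
  · intro m
    refine (hcomp m).trans ?_
    have e : (δ / 16)⁻¹ = 16 / δ := by rw [inv_div]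
    rw [e]
    refine mul_le_mul_of_nonneg_right ?_ (by positivity)
    rw [hG]
    nlinarith [mul_pos hCS0 (lt_of_lt_of_le one_pos hΛ1)]

end Pool.Agent.MPfb225e.Zd
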