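import Mathlib

/-!
# Turán's second main theorem for pure power sums
-/

namespace Pool.Agent.MPfb225e.Zd

open Finset Filter Topology Polynomial
open scoped Nat

lemma Z1_radius (N : ℕ) (hN : 1 ≤ N) (a : Fin N → ℝ) :
    ∃ r : ℝ, 1 / 4 ≤ r ∧ r ≤ 1 / 2 ∧ (1 / 24 : ℝ) ^ N ≤ ∏ j, |r - a j| := by
  classical
  have hN0 : (0 : ℝ) < N := by exact_mod_cast hN
  by_contra hcon
  push Not at hcon
  set b : Fin N → ℝ := fun j => (a j - 1 / 4) * (4 * N) with hb
  set P : ℝ[X] := ∏ j, (X - C (b j)) with hP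
  have hmonic : P.Monic := monic_prod_of_monic _ _ fun j _ => monic_X_sub_C _
  have hdeg : P.natDegree = N := by
    rw [hP, natDegree_prod_of_monic _ _ fun j _ => monic_X_sub_C _]
    simp
  have h1 := congrFun (Polynomial.fwdDiff_iter_degree_eq_factorial P) 0
  rw [fwdDiff_iter_eq_sum_shift, hmonic.leadingCoeff, hdeg] at h1
  have h2 : ∀ k ∈ range (N + 1), |P.eval (0 + k • (1 : ℝ))| < (N / 6 : ℝ) ^ N := by
    intro k hk
    have hk' : (k : ℝ) ≤ N := by
      have := mem_range.mp hk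
      exact_mod_cast (by omega : k ≤ N)
    have h3 := hcon (1 / 4 + k / (4 * N)) (by have : (0 : ℝ) ≤ k / (4 * N) := by positivity
                                              linarith) (by
      have : (k : ℝ) / (4 * N) ≤ 1 / 4 := by
        rw [div_le_iff₀ (by positivity)]
        linarith
      linarith)
    have h4 : P.eval (0 + k • (1 : ℝ)) = (4 * N) ^ N * ∏ j, (1 / 4 + k / (4 * N) - a j) := by
      rw [hP, eval_prod]
      have : ((4 : ℝ) * N) ^ N = ∏ _j : Fin N, (4 * (N : ℝ)) := by simp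
      rw [this, ← prod_mul_distrib]
      apply prod_congr rfl
      intro j _
      rw [eval_sub, eval_X, eval_C, hb]
      simp only [nsmul_eq_mul, mul_one, zero_add]
      field_simp
      ring
    rw [h4, abs_mul, abs_of_nonneg (by positivity : (0 : ℝ) ≤ (4 * N) ^ N), abs_prod]
    calc (4 * (N : ℝ)) ^ N * ∏ j, |1 / 4 + k / (4 * N) - a j|
        < (4 * (N : ℝ)) ^ N * (1 / 24) ^ N := mul_lt_mul_of_pos_left h3 (by positivity)
      _ = (N / 6 : ℝ) ^ N := by rw [← mul_pow]; congr 1; ring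
  have h5 : (N ! : ℝ) < 2 ^ N * (N / 6 : ℝ) ^ N := by
    have h6 : (N ! : ℝ) = ∑ k ∈ range (N + 1),
        ((-1 : ℤ) ^ (N - k) * N.choose k) • P.eval (0 + k • (1 : ℝ)) := by
      rw [h1]
      simp
    calc (N ! : ℝ) = |∑ k ∈ range (N + 1),
        ((-1 : ℤ) ^ (N - k) * N.choose k) • P.eval (0 + k • (1 : ℝ))| := by
          rw [← h6, abs_of_nonneg (by positivity)]
      _ ≤ ∑ k ∈ range (N + 1),
        |((-1 : ℤ) ^ (N - k) * N.choose k) • P.eval (0 + k • (1 : ℝ))| := abs_sum_le_sum_abs _ _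
      _ = ∑ k ∈ range (N + 1), (N.choose k : ℝ) * |P.eval (0 + k • (1 : ℝ))| := by
          apply sum_congr rfl
          intro k _
          rw [zsmul_eq_mul, abs_mul]
          congr 1
          push_cast
          rw [abs_mul, abs_pow, abs_neg, abs_one, one_pow, one_mul, Nat.abs_cast]
      _ < ∑ k ∈ range (N + 1), (N.choose k : ℝ) * (N / 6 : ℝ) ^ N := by
          apply sum_lt_sum_of_nonempty ⟨0, by simp⟩
          intro k hk
          apply mul_lt_mul_of_pos_left (h2 k hk)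
          have := Nat.choose_pos (by have := mem_range.mp hk; omega : k ≤ N)
          exact_mod_cast this
      _ = 2 ^ N * (N / 6 : ℝ) ^ N := by
          rw [← sum_mul]
          congr 1
          exact_mod_cast Nat.sum_range_choose N
  have h7 : (N : ℝ) ^ N / N ! ≤ 3 ^ N := by
    calc (N : ℝ) ^ N / N ! ≤ Real.exp N := Real.pow_div_factorial_le_exp _ hN0.le N
      _ = Real.exp 1 ^ N := by rw [← Real.exp_nat_mul, mul_one]
      _ ≤ 3 ^ N := by
        apply pow_le_pow_left₀ (Real.exp_pos 1).le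
        have := Real.exp_one_lt_d9
        linarith
  have hf : (0 : ℝ) < N ! := by exact_mod_cast Nat.factorial_pos N
  rw [div_le_iff₀ hf] at h7
  have h8 : (3 : ℝ) ^ N * (2 ^ N * (N / 6 : ℝ) ^ N) = N ^ N := by
    rw [← mul_pow, ← mul_pow]
    congr 1
    ring
  have h9 : (3 : ℝ) ^ N * N ! < 3 ^ N * (2 ^ N * (N / 6 : ℝ) ^ N) :=
    mul_lt_mul_of_pos_left h5 (by positivity)
  linarith

lemma Z1_average (M m : ℕ) (hm : m + 1 ≤ M) (ζ : ℂ) (hζ : IsPrimitiveRoot ζ M) (x : ℂ)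
    (hx : x ^ M ≠ 1) :
    ∑ l ∈ range M, (x * ζ ^ l) ^ (m + 1) / (1 - x * ζ ^ l) = M * (x ^ M / (1 - x ^ M)) := by
  have hx1 : 1 - x ^ M ≠ 0 := sub_ne_zero.mpr (Ne.symm hx)
  have h1 : ∀ l ∈ range M, (x * ζ ^ l) ^ (m + 1) / (1 - x * ζ ^ l) =
      (∑ i ∈ range M, (x * ζ ^ l) ^ (m + 1 + i)) / (1 - x ^ M) := by
    intro l _
    have h2 : (x * ζ ^ l) ^ M = x ^ M := by
      rw [mul_pow, ← pow_mul, mul_comm l M, pow_mul, hζ.pow_eq_one, one_pow, mul_one]
    have h3 : (1 - x * ζ ^ l) ≠ 0 := by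
      intro h
      apply hx
      rw [← h2, ← sub_eq_zero.mp h, one_pow]
    have h4 : (∑ i ∈ range M, (x * ζ ^ l) ^ i) * (1 - x * ζ ^ l) = 1 - x ^ M := by
      rw [geom_sum_mul_neg, h2]
    rw [div_eq_div_iff h3 hx1]
    calc (x * ζ ^ l) ^ (m + 1) * (1 - x ^ M)
        = (x * ζ ^ l) ^ (m + 1) * ((∑ i ∈ range M, (x * ζ ^ l) ^ i) * (1 - x * ζ ^ l)) := by
          rw [h4]
      _ = (∑ i ∈ range M, (x * ζ ^ l) ^ (m + 1 + i)) * (1 - x * ζ ^ l) := by
          rw [← mul_assoc, mul_sum]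
          simp only [pow_add]
  rw [sum_congr rfl h1, ← sum_div, sum_comm]
  have h5 : ∀ i ∈ range M, ∑ l ∈ range M, (x * ζ ^ l) ^ (m + 1 + i) =
      if i = M - (m + 1) then (M : ℂ) * x ^ M else 0 := by
    intro i hi
    have hi' := mem_range.mp hi
    have h6 : ∀ l ∈ range M, (x * ζ ^ l) ^ (m + 1 + i) =
        x ^ (m + 1 + i) * (ζ ^ (m + 1 + i)) ^ l := by
      intro l _
      rw [mul_pow, ← pow_mul, ← pow_mul, mul_comm l]
    rw [sum_congr rfl h6, ← mul_sum]
    split_ifs with h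
    · have h7 : m + 1 + i = M := by omega
      rw [h7, hζ.pow_eq_one]
      simp [mul_comm]
    · have h8 : ζ ^ (m + 1 + i) ≠ 1 := by
        intro h9
        have h10 := (hζ.pow_eq_one_iff_dvd _).mp h9
        obtain ⟨q, hq⟩ := h10
        have : q < 2 := by
          by_contra h11
          have : M * 2 ≤ M * q := Nat.mul_le_mul_left _ (by omega)
          omega
        interval_cases q
        · omega
        · omega
      have h12 : (ζ ^ (m + 1 + i)) ^ M = 1 := by
        rw [← pow_mul, mul_comm, pow_mul, hζ.pow_eq_one, one_pow]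
      have h13 := geom_sum_mul_neg (ζ ^ (m + 1 + i)) M
      rw [h12, sub_self] at h13
      rcases mul_eq_zero.mp h13 with h14 | h14
      · rw [h14, mul_zero]
      · exact absurd (sub_eq_zero.mp h14).symm h8
  rw [sum_congr rfl h5, sum_ite_eq' (range M) (M - (m + 1)), if_pos (mem_range.mpr (by omega))]
  ring

lemma Z1_coeff (N : ℕ) (z : Fin N → ℂ) (hz : ∀ j, ‖z j‖ ≤ 1) (i : ℕ) :
    ‖(∏ j, (X - C (z j)) : ℂ[X]).coeff i‖ ≤ N.choose i := by
  set P : ℂ[X] := ∏ j, (X - C (z j)) with hP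
  have hmonic : P.Monic := monic_prod_of_monic _ _ fun j _ => monic_X_sub_C _
  have hdeg : P.natDegree = N := by
    rw [hP, natDegree_prod_of_monic _ _ fun j _ => monic_X_sub_C _]
    simp
  have h := coeff_le_of_roots_le (p := P) (f := RingHom.id ℂ) (B := 1) i hmonic
    (IsAlgClosed.splits _) (by
      intro w hw
      rw [Polynomial.map_id, mem_roots hmonic.ne_zero, IsRoot.def, hP, eval_prod,
        prod_eq_zero_iff] at hw
      obtain ⟨j, _, hj⟩ := hw
      rw [eval_sub, eval_X, eval_C, sub_eq_zero] at hj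
      rw [hj]
      exact hz j)
  rw [Polynomial.map_id, one_pow, one_mul, hdeg] at h
  exact h

lemma Z1_identity (N m : ℕ) (z : Fin N → ℂ) (u : ℂ) (hu : ∀ j, u ≠ z j) :
    (∑ j, z j ^ (m + 1) / (u - z j)) * (∏ j, (X - C (z j)) : ℂ[X]).eval u =
      ∑ a ∈ range (N + 1), (∏ j, (X - C (z j)) : ℂ[X]).coeff a *
        ∑ b ∈ range a, u ^ (a - 1 - b) * ∑ j, z j ^ (m + 1 + b) := by
  set P : ℂ[X] := ∏ j, (X - C (z j)) with hP
  have hdeg : P.natDegree = N := by
    rw [hP, natDegree_prod_of_monic _ _ fun j _ => monic_X_sub_C _]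
    simp
  have heval : ∀ w : ℂ, P.eval w = ∑ a ∈ range (N + 1), P.coeff a * w ^ a := by
    intro w
    rw [eval_eq_sum_range, hdeg]
  have h0 : ∀ j, P.eval (z j) = 0 := by
    intro j
    rw [hP, eval_prod]
    exact prod_eq_zero (mem_univ j) (by simp)
  have h1 : ∀ j, P.eval u = (u - z j) *
      ∑ a ∈ range (N + 1), P.coeff a * ∑ b ∈ range a, u ^ (a - 1 - b) * z j ^ b := by
    intro j
    have h2 : P.eval u = P.eval u - P.eval (z j) := by rw [h0 j, sub_zero]
    rw [h2, heval u, heval (z j), ← sum_sub_distrib, mul_sum]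
    apply sum_congr rfl
    intro a _
    have h3 := (Commute.all u (z j)).mul_geom_sum₂ a
    have h4 : ∑ b ∈ range a, u ^ (a - 1 - b) * z j ^ b =
        ∑ b ∈ range a, u ^ b * z j ^ (a - 1 - b) := by
      rw [← sum_range_reflect]
      apply sum_congr rfl
      intro b hb
      have := mem_range.mp hb
      congr 2
      omega
    rw [h4, mul_left_comm, h3]
    ring
  rw [sum_mul]
  have h5 : ∀ j ∈ (univ : Finset (Fin N)), z j ^ (m + 1) / (u - z j) * P.eval u =
      ∑ a ∈ range (N + 1), P.coeff a *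
        ∑ b ∈ range a, u ^ (a - 1 - b) * z j ^ (m + 1 + b) := by
    intro j _
    have hne : u - z j ≠ 0 := sub_ne_zero.mpr (hu j)
    rw [h1 j, ← mul_assoc, div_mul_cancel₀ _ hne, mul_sum]
    apply sum_congr rfl
    intro a _
    rw [mul_left_comm, mul_sum]
    congr 1
    apply sum_congr rfl
    intro b _
    rw [pow_add]
    ring
  rw [sum_congr rfl h5, sum_comm]
  apply sum_congr rfl
  intro a _
  rw [← mul_sum, sum_comm]
  congr 1
  apply sum_congr rfl
  intro b _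
  rw [mul_sum]

lemma Z1_tendsto_small (x : ℂ) (hx : ‖x‖ < 1) :
    Tendsto (fun M : ℕ => x ^ M / (1 - x ^ M)) atTop (𝓝 0) := by
  have h1 := tendsto_pow_atTop_nhds_zero_of_norm_lt_one hx
  have h2 : Tendsto (fun M : ℕ => 1 - x ^ M) atTop (𝓝 (1 - 0)) := tendsto_const_nhds.sub h1
  have h3 : Tendsto (fun M : ℕ => x ^ M / (1 - x ^ M)) atTop (𝓝 (0 / (1 - 0))) :=
    h1.div h2 (by norm_num)
  simpa using h3

lemma Z1_tendsto_large (x : ℂ) (hx : 1 < ‖x‖) :
    Tendsto (fun M : ℕ => x ^ M / (1 - x ^ M)) atTop (𝓝 (-1)) := by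
  have hx0 : x ≠ 0 := by
    intro h
    rw [h, norm_zero] at hx
    linarith
  have h0 : ‖x⁻¹‖ < 1 := by
    rw [norm_inv]
    exact inv_lt_one_of_one_lt₀ hx
  have h1 := tendsto_pow_atTop_nhds_zero_of_norm_lt_one h0
  have h2 : Tendsto (fun M : ℕ => (x⁻¹) ^ M - 1) atTop (𝓝 (0 - 1)) := h1.sub tendsto_const_nhds
  have h3 := h2.inv₀ (by norm_num)
  have h4 : (fun M : ℕ => x ^ M / (1 - x ^ M)) = fun M : ℕ => ((x⁻¹) ^ M - 1)⁻¹ := by
    funext M
    have hxM : x ^ M ≠ 0 := pow_ne_zero M hx0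
    have h5 : 1 - x ^ M = x ^ M * ((x⁻¹) ^ M - 1) := by
      rw [mul_sub, inv_pow, mul_inv_cancel₀ hxM, mul_one]
    rw [h5, div_mul_eq_div_div, div_self hxM, one_div]
  rw [h4]
  have h6 : ((0 : ℂ) - 1)⁻¹ = -1 := by norm_num
  rw [h6] at h3
  exact h3

/-- Z1 (file Zd/Turan.lean). Turán's second main theorem for pure power sums. -/
theorem turan : ∃ A : ℝ, 1 ≤ A ∧ ∀ (m N : ℕ) (z : Fin N → ℂ), N ≤ m → (∀ j, ‖z j‖ ≤ 1) →
    (∃ j, ‖z j‖ = 1) → ∃ k : ℕ, m + 1 ≤ k ∧ k ≤ 2 * m ∧ A⁻¹ ^ m ≤ ‖∑ j, z j ^ k‖ := by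
  classical
  refine ⟨400, by norm_num, ?_⟩
  intro m N z hNm hz hj
  obtain ⟨j₀, hj₀⟩ := hj
  have hN : 1 ≤ N := by
    have := j₀.2
    omega
  by_contra hcon
  push Not at hcon
  obtain ⟨r, hr1, hr2, hr3⟩ := Z1_radius N hN fun j => ‖z j‖
  have hr0 : 0 < r := by linarith
  have hprod0 : 0 < ∏ j, |r - ‖z j‖| := lt_of_lt_of_le (by positivity) hr3
  have hne : ∀ j, ‖z j‖ ≠ r := by
    intro j h
    have : ∏ j, |r - ‖z j‖| = 0 := prod_eq_zero (mem_univ j) (by rw [h, sub_self, abs_zero])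
    linarith
  set ε : ℝ := (400 : ℝ)⁻¹ ^ m with hε
  have hε0 : 0 < ε := by positivity
  -- the bound on the circle
  have hcirc : ∀ u : ℂ, ‖u‖ = r → ‖(∑ j, z j ^ (m + 1) / (u - z j)) / u ^ m‖ ≤
      ε * 384 ^ m := by
    intro u hu
    have hune : ∀ j, u ≠ z j := by
      intro j h
      exact hne j (by rw [← h, hu])
    have hid := Z1_identity N m z u hune
    set P : ℂ[X] := ∏ j, (X - C (z j)) with hP
    have hPu : ∏ j, |r - ‖z j‖| ≤ ‖P.eval u‖ := by
      rw [hP, eval_prod, norm_prod]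
      apply Finset.prod_le_prod
      · intro j _
        exact abs_nonneg _
      · intro j _
        rw [eval_sub, eval_X, eval_C, ← hu]
        exact abs_norm_sub_norm_le u (z j)
    have hPu' : (1 / 24 : ℝ) ^ N ≤ ‖P.eval u‖ := hr3.trans hPu
    have hE : ‖∑ a ∈ range (N + 1), P.coeff a *
        ∑ b ∈ range a, u ^ (a - 1 - b) * ∑ j, z j ^ (m + 1 + b)‖ ≤ N * 2 ^ N * ε := by
      calc ‖∑ a ∈ range (N + 1), P.coeff a *
          ∑ b ∈ range a, u ^ (a - 1 - b) * ∑ j, z j ^ (m + 1 + b)‖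
          ≤ ∑ a ∈ range (N + 1), ‖P.coeff a *
          ∑ b ∈ range a, u ^ (a - 1 - b) * ∑ j, z j ^ (m + 1 + b)‖ := norm_sum_le _ _
        _ ≤ ∑ a ∈ range (N + 1), (N.choose a : ℝ) * (N * ε) := by
          apply sum_le_sum
          intro a ha
          have ha' := mem_range.mp ha
          rw [norm_mul]
          apply mul_le_mul (Z1_coeff N z hz a) _ (norm_nonneg _) (by positivity)
          calc ‖∑ b ∈ range a, u ^ (a - 1 - b) * ∑ j, z j ^ (m + 1 + b)‖
              ≤ ∑ b ∈ range a, ‖u ^ (a - 1 - b) * ∑ j, z j ^ (m + 1 + b)‖ := norm_sum_le _ _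
            _ ≤ ∑ b ∈ range a, ε := by
              apply sum_le_sum
              intro b hb
              have hb' := mem_range.mp hb
              rw [norm_mul, norm_pow, hu]
              have h1 : r ^ (a - 1 - b) ≤ 1 := pow_le_one₀ hr0.le (by linarith)
              have h2 := (hcon (m + 1 + b) (by omega) (by omega)).le
              calc r ^ (a - 1 - b) * ‖∑ j, z j ^ (m + 1 + b)‖
                  ≤ 1 * ε := mul_le_mul h1 h2 (norm_nonneg _) (by norm_num)
                _ = ε := one_mul _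
            _ = a * ε := by rw [sum_const, card_range, nsmul_eq_mul]
            _ ≤ N * ε := by
              apply mul_le_mul_of_nonneg_right _ hε0.le
              exact_mod_cast (by omega : a ≤ N)
        _ = N * 2 ^ N * ε := by
          rw [← sum_mul]
          have : (∑ a ∈ range (N + 1), (N.choose a : ℝ)) = 2 ^ N := by
            exact_mod_cast Nat.sum_range_choose N
          rw [this]
          ring
    rw [← hid, norm_mul] at hE
    have hG : ‖∑ j, z j ^ (m + 1) / (u - z j)‖ ≤ N * 2 ^ N * ε * 24 ^ N := by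
      have h1 : ‖∑ j, z j ^ (m + 1) / (u - z j)‖ * (1 / 24 : ℝ) ^ N ≤ N * 2 ^ N * ε :=
        (mul_le_mul_of_nonneg_left hPu' (norm_nonneg _)).trans hE
      have h2 := mul_le_mul_of_nonneg_right h1 (show (0 : ℝ) ≤ 24 ^ N by positivity)
      have h3 : ‖∑ j, z j ^ (m + 1) / (u - z j)‖ * (1 / 24 : ℝ) ^ N * 24 ^ N =
          ‖∑ j, z j ^ (m + 1) / (u - z j)‖ := by
        rw [mul_assoc, ← mul_pow]
        norm_num
      linarith
    rw [norm_div, norm_pow, hu, div_le_iff₀ (by positivity)]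
    have h4 : (1 / 4 : ℝ) ^ m ≤ r ^ m := pow_le_pow_left₀ (by norm_num) hr1 m
    have h5 : (N : ℝ) ≤ 2 ^ m := by
      have : N ≤ 2 ^ N := Nat.lt_two_pow_self.le
      have h6 : 2 ^ N ≤ 2 ^ m := Nat.pow_le_pow_right (by norm_num) hNm
      exact_mod_cast this.trans h6
    have h6 : (2 : ℝ) ^ N ≤ 2 ^ m := pow_le_pow_right₀ (by norm_num) hNm
    have h7 : (24 : ℝ) ^ N ≤ 24 ^ m := pow_le_pow_right₀ (by norm_num) hNm
    calc ‖∑ j, z j ^ (m + 1) / (u - z j)‖ ≤ N * 2 ^ N * ε * 24 ^ N := hG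
      _ ≤ 2 ^ m * 2 ^ m * ε * 24 ^ m := by gcongr
      _ = ε * 384 ^ m * (1 / 4 : ℝ) ^ m := by
        have : (384 : ℝ) ^ m * (1 / 4 : ℝ) ^ m = 2 ^ m * 2 ^ m * 24 ^ m := by
          rw [← mul_pow, ← mul_pow, ← mul_pow]
          norm_num
        rw [mul_assoc ε, this]
        ring
      _ ≤ ε * 384 ^ m * r ^ m := by gcongr
  -- averages
  have hav : ∀ M : ℕ, m + 1 ≤ M →
      ‖∑ j, (z j / r) ^ M / (1 - (z j / r) ^ M)‖ ≤ ε * 384 ^ m := by
    intro M hM
    have hM0 : M ≠ 0 := by omega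
    have hMpos : (0 : ℝ) < M := by exact_mod_cast Nat.pos_of_ne_zero hM0
    have hζ := Complex.isPrimitiveRoot_exp M hM0
    set ζ := Complex.exp (2 * Real.pi * Complex.I / M) with hζdef
    have hζn : ‖ζ‖ = 1 := Complex.norm_eq_one_of_pow_eq_one hζ.pow_eq_one hM0
    have hζ0 : ζ ≠ 0 := by
      intro h
      rw [h, norm_zero] at hζn
      norm_num at hζn
    have hrc : (r : ℂ) ≠ 0 := by exact_mod_cast hr0.ne'
    have hxM : ∀ j, (z j / r) ^ M ≠ 1 := by
      intro j h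
      have h1 : ‖z j / r‖ = 1 := Complex.norm_eq_one_of_pow_eq_one h hM0
      rw [norm_div, Complex.norm_real, Real.norm_of_nonneg hr0.le, div_eq_one_iff_eq hr0.ne'] at h1
      exact hne j h1
    have h1 : ∑ l ∈ range M, (∑ j, z j ^ (m + 1) / (r / ζ ^ l - z j)) / (r / ζ ^ l) ^ m =
        M * ∑ j, (z j / r) ^ M / (1 - (z j / r) ^ M) := by
      rw [mul_sum]
      rw [← sum_congr rfl fun j _ => Z1_average M m hM ζ hζ (z j / r) (hxM j)]
      rw [sum_comm]
      apply sum_congr rfl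
      intro l _
      rw [sum_div]
      apply sum_congr rfl
      intro j _
      have hl : ζ ^ l ≠ 0 := pow_ne_zero l hζ0
      have hnz : (r / ζ ^ l - z j) ≠ 0 := by
        intro h
        have h2 : (r : ℂ) / ζ ^ l = z j := sub_eq_zero.mp h
        apply hne j
        rw [← h2, norm_div, norm_pow, hζn, one_pow, div_one, Complex.norm_real,
          Real.norm_of_nonneg hr0.le]
      have hfac : (1 - z j / r * ζ ^ l) = (r / ζ ^ l - z j) * (ζ ^ l / r) := by
        field_simp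
      have hnz2 : (1 - z j / r * ζ ^ l) ≠ 0 := by
        rw [hfac]
        exact mul_ne_zero hnz (div_ne_zero hl hrc)
      rw [div_div, div_eq_div_iff (mul_ne_zero hnz (pow_ne_zero m (div_ne_zero hrc hl))) hnz2,
        hfac]
      have h3 : (z j / r * ζ ^ l) ^ (m + 1) = z j ^ (m + 1) * (ζ ^ l / r) ^ (m + 1) := by
        rw [← mul_pow]
        congr 1
        ring
      have h4 : (r / ζ ^ l) ^ m * (ζ ^ l / r) ^ m = 1 := by
        rw [← mul_pow]
        have : (r : ℂ) / ζ ^ l * (ζ ^ l / r) = 1 := by field_simp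
        rw [this, one_pow]
      rw [h3, pow_succ (ζ ^ l / (r : ℂ)) m]
      calc z j ^ (m + 1) * ((r / ζ ^ l - z j) * (ζ ^ l / r))
          = z j ^ (m + 1) * ((r / ζ ^ l - z j) * (ζ ^ l / r)) *
            ((r / ζ ^ l) ^ m * (ζ ^ l / r) ^ m) := by rw [h4, mul_one]
        _ = _ := by ring
    have h2 : ‖(M : ℂ) * ∑ j, (z j / r) ^ M / (1 - (z j / r) ^ M)‖ ≤ M * (ε * 384 ^ m) := by
      rw [← h1]
      calc ‖∑ l ∈ range M, (∑ j, z j ^ (m + 1) / (r / ζ ^ l - z j)) / (r / ζ ^ l) ^ m‖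
          ≤ ∑ l ∈ range M, ‖(∑ j, z j ^ (m + 1) / (r / ζ ^ l - z j)) / (r / ζ ^ l) ^ m‖ :=
            norm_sum_le _ _
        _ ≤ ∑ l ∈ range M, ε * 384 ^ m := by
          apply sum_le_sum
          intro l _
          apply hcirc
          rw [norm_div, norm_pow, hζn, one_pow, div_one, Complex.norm_real,
            Real.norm_of_nonneg hr0.le]
        _ = M * (ε * 384 ^ m) := by rw [sum_const, card_range, nsmul_eq_mul]
    rw [norm_mul, Complex.norm_natCast] at h2
    exact le_of_mul_le_mul_left h2 hMpos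
  -- the limit
  have hlim : Tendsto (fun M : ℕ => ∑ j, (z j / r) ^ M / (1 - (z j / r) ^ M)) atTop
      (𝓝 (∑ j, if r < ‖z j‖ then (-1 : ℂ) else 0)) := by
    apply tendsto_finsetSum
    intro j _
    split_ifs with h
    · apply Z1_tendsto_large
      rw [norm_div, Complex.norm_real, Real.norm_of_nonneg hr0.le, lt_div_iff₀ hr0, one_mul]
      exact h
    · apply Z1_tendsto_small
      rw [norm_div, Complex.norm_real, Real.norm_of_nonneg hr0.le, div_lt_iff₀ hr0, one_mul]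
      exact lt_of_le_of_ne (not_lt.mp h) (hne j)
  have hle : ‖∑ j, if r < ‖z j‖ then (-1 : ℂ) else 0‖ ≤ ε * 384 ^ m :=
    le_of_tendsto hlim.norm (eventually_atTop.mpr ⟨m + 1, hav⟩)
  have hge : 1 ≤ ‖∑ j, if r < ‖z j‖ then (-1 : ℂ) else 0‖ := by
    have h1 : (∑ j, if r < ‖z j‖ then (-1 : ℂ) else 0) =
        -(((univ.filter fun j => r < ‖z j‖).card : ℕ) : ℂ) := by
      rw [← sum_filter, sum_const, nsmul_eq_mul]
      ring
    rw [h1, norm_neg, Complex.norm_natCast]
    have h2 : 0 < (univ.filter fun j => r < ‖z j‖).card := by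
      apply card_pos.mpr
      exact ⟨j₀, by rw [mem_filter]; exact ⟨mem_univ _, by rw [hj₀]; linarith⟩⟩
    exact_mod_cast h2
  have hfin : ε * 384 ^ m < 1 := by
    rw [hε, ← mul_pow]
    apply pow_lt_one₀ (by norm_num) (by norm_num) (by omega)
  linarith

end Pool.Agent.MPfb225e.Zd
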