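import Mathlib
import Pool.Agent.Lib.MP_fb225e_nt.Zd.Detect
import Pool.Agent.Lib.MP_fb225e_nt.Zd.Turan

/-!
MP_fb225e_nt, project ZD: detection of the zeros, second part.
-/

namespace Pool.Agent.MPfb225e.Zd

open Filter Topology Complex
open NumberField IsDedekindDomain
open scoped Nat

universe u

/-- the point to the right of the edge at height `t` -/
noncomputable def pt (η t : ℝ) : ℂ := ((3 / 2 + η : ℝ) : ℂ) + t * I

theorem pt_re (η t : ℝ) : (pt η t).re = 3 / 2 + η := by simp [pt]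

theorem pt_im (η t : ℝ) : (pt η t).im = t := by simp [pt]

theorem order_eq_zero {F : ℂ → ℂ} (hF : Differentiable ℂ F) {x : ℂ} (hx : F x ≠ 0) :
    analyticOrderNatAt F x = 0 := by
  unfold analyticOrderNatAt
  rw [(hF.analyticAt x).analyticOrderAt_eq_zero.2 hx]
  rfl

/-- The prime sum at height `t`. -/
noncomputable def psum (y : ℕ → ℝ) (η t : ℝ) (m : ℕ) : ℂ :=
  ∑' p : Nat.Primes, ((y p * Real.log p * (Real.log p ^ m / m !) : ℝ) : ℂ) *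
    (p : ℂ) ^ (-(pt η t - 1 / 2))

theorem detect (n : ℕ) : ∃ A C₆ C₇ : ℝ, 1 ≤ A ∧ 0 < C₆ ∧ 0 < C₇ ∧ ∀ (K : Type u) [Field K]
    [NumberField K] (W : WeierstrassCurve K), Module.finrank ℚ K = n → ∃ y : ℕ → ℝ,
    (∀ p, |y p| ≤ 2 * n) ∧ ∀ (F : ℂ → ℂ), Differentiable ℂ F →
    (∀ s : ℂ, 3 / 2 < s.re → F s = W.LSeries s) →
    ∀ (δ T M : ℝ), 0 < δ → δ ≤ 1 / 2 → 0 ≤ T → 2 ≤ M →
    (∀ s : ℂ, 3 / 2 - δ ≤ s.re → |s.im| ≤ T + 1 → ‖F s‖ ≤ M) →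
    ∀ η : ℝ, 0 < η → C₇ * η ≤ δ → ∀ m : ℕ, C₆ * (1 + η * (Zfr.Lg M T δ / δ)) ≤ m →
    ∀ t : ℝ, |t| ≤ T + 1 / 2 →
    (∀ S : Finset ℂ, (∀ x ∈ S, 3 / 2 - η ≤ x.re ∧ |x.im - t| ≤ η) →
      ∑ x ∈ S, analyticOrderNatAt F x ≤ m) ∧
    ∀ x : ℂ, 3 / 2 - η ≤ x.re → |x.im - t| ≤ η → F x = 0 → ∃ q : ℕ, m ≤ q ∧ q + 1 ≤ 2 * m ∧
      1 / 2 * A⁻¹ ^ m * ((3 * η)⁻¹) ^ (q + 1) ≤ ‖psum y η t q‖ := by
  classical
  obtain ⟨A, hA, hTur⟩ := turan
  obtain ⟨C₀, hC₀, hdata⟩ := local_data.{u} n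
  have hA0 : 0 < A := by linarith
  refine ⟨A, (12 * A) ^ 2 * C₀ + 12 * C₀, 192 * A, hA, by positivity, by positivity, ?_⟩
  intro K _ _ W hn
  obtain ⟨y, hy, hdat⟩ := hdata K W hn
  refine ⟨y, hy, ?_⟩
  intro F hF hFL δ T M hδ hδ1 hT hM hFM η hη hηδ m hm t ht
  have h32 : 32 * η ≤ δ := by nlinarith
  obtain ⟨k, ρ, g, hg, hfac, hg0, hρ, hsum, hcomp⟩ :=
    hdat F hF hFL δ T M hδ hδ1 hT hM hFM η hη h32 t ht
  change ∑ j, (‖pt η t - ρ j‖⁻¹) ^ 2 ≤ _ at hsum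
  have hLg := Zfr.two_le_Lg hδ hδ1 hT hM
  set Λ : ℝ := Zfr.Lg M T δ / δ with hΛ
  have hΛ0 : 0 < Λ := by rw [hΛ]; positivity
  have hbase : 0 < 1 + η * Λ := by positivity
  have hre : ∀ j, η ≤ (pt η t - ρ j).re := by
    intro j
    rw [Complex.sub_re, pt_re]
    linarith [hρ j]
  have hpos : ∀ j, 0 < ‖pt η t - ρ j‖ := fun j =>
    lt_of_lt_of_le hη ((hre j).trans (Complex.re_le_norm _))
  have hdist : ∀ x : ℂ, 3 / 2 - η ≤ x.re → x.re ≤ 3 / 2 → |x.im - t| ≤ η →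
      ‖pt η t - x‖ ≤ 3 * η := by
    intro x h1 h2 h3
    refine (Complex.norm_le_abs_re_add_abs_im _).trans ?_
    rw [Complex.sub_re, Complex.sub_im, pt_re, pt_im, abs_sub_comm t]
    have h4 : |3 / 2 + η - x.re| ≤ 2 * η := by
      rw [abs_le]
      constructor <;> linarith
    linarith
  refine ⟨?_, ?_⟩
  · intro S hS
    have h1 : ∑ x ∈ S, analyticOrderNatAt F x =
        ∑ x ∈ S.filter (fun x => F x = 0), analyticOrderNatAt F x := by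
      rw [Finset.sum_filter]
      refine Finset.sum_congr rfl fun x _ => ?_
      split_ifs with h
      · rfl
      · exact order_eq_zero hF h
    rw [h1]
    have h2 := orders_le hg ρ hfac (S.filter fun x => F x = 0) (fun x hx => by
      rw [Finset.mem_filter] at hx
      exact hg0 x (hS x hx.1).1 (Zfr.re_le_of_zero W hFL hx.2) (hS x hx.1).2)
      (fun j => ‖pt η t - ρ j‖ ≤ 3 * η) (fun j hj => by
        rw [Finset.mem_filter] at hj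
        exact hdist _ (hS _ hj.1).1 (Zfr.re_le_of_zero W hFL hj.2) (hS _ hj.1).2)
    refine h2.trans ?_
    have h3 : ∑ j ∈ Finset.univ.filter (fun j => ‖pt η t - ρ j‖ ≤ 3 * η), (3 * η)⁻¹ ^ 2 ≤
        ∑ j, (‖pt η t - ρ j‖⁻¹) ^ 2 := by
      refine (Finset.sum_le_sum fun j hj => ?_).trans (Finset.sum_le_univ_sum_of_nonneg
        fun j => by positivity)
      rw [Finset.mem_filter] at hj
      exact pow_le_pow_left₀ (by positivity) (inv_anti₀ (hpos j) hj.2) 2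
    rw [Finset.sum_const, nsmul_eq_mul] at h3
    have h4 := h3.trans hsum
    have h5 : ((Finset.univ.filter fun j => ‖pt η t - ρ j‖ ≤ 3 * η).card : ℝ) * (3 * η)⁻¹ ^ 2 =
        ((Finset.univ.filter fun j => ‖pt η t - ρ j‖ ≤ 3 * η).card : ℝ) / (9 * η ^ 2) := by
      have e9 : (3 * η) ^ 2 = 9 * η ^ 2 := by ring
      rw [inv_pow, e9, div_eq_mul_inv]
    rw [h5, div_le_div_iff₀ (by positivity) (by positivity)] at h4
    have h6 : ((Finset.univ.filter fun j => ‖pt η t - ρ j‖ ≤ 3 * η).card : ℝ) * η ^ 2 ≤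
        (9 * (C₀ * (1 + η * Λ))) * η ^ 2 := by linarith
    have h7 := le_of_mul_le_mul_right h6 (by positivity)
    have h8 : 9 * (C₀ * (1 + η * Λ)) ≤ ((12 * A) ^ 2 * C₀ + 12 * C₀) * (1 + η * Λ) := by
      have h9 : 0 ≤ ((12 * A) ^ 2 * C₀ + 3 * C₀) * (1 + η * Λ) := by positivity
      nlinarith
    exact_mod_cast h7.trans (h8.trans hm)
  · intro x hx1 hx2 hx0
    have hx3 := Zfr.re_le_of_zero W hFL hx0
    have hgx := hg0 x hx1 hx3 hx2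
    obtain ⟨j₀, hj₀⟩ : ∃ j, x = ρ j := by
      have h1 := hfac x
      rw [hx0] at h1
      have h2 := (mul_eq_zero.1 h1.symm).resolve_right hgx
      obtain ⟨j, -, hj⟩ := Finset.prod_eq_zero_iff.1 h2
      exact ⟨j, sub_eq_zero.1 hj⟩
    have hm' : (12 * A) ^ 2 * (C₀ * (1 + η * Λ)) ≤ m := by
      refine le_trans ?_ hm
      have h9 : 0 ≤ 12 * C₀ * (1 + η * Λ) := by positivity
      nlinarith
    obtain ⟨q, hq1, hq2, hq3⟩ := power_detect hA hTur ρ (pt η t) m hη hre hsum hm' j₀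
      (by rw [← hj₀]; exact hdist x hx1 hx3 hx2)
    refine ⟨q - 1, by omega, by omega, ?_⟩
    have hq : q - 1 + 1 = q := by omega
    rw [hq]
    have h1 := hcomp (q - 1)
    rw [hq] at h1
    change ‖psum y η t (q - 1) + ∑ j, ((pt η t - ρ j)⁻¹) ^ q‖ ≤ _ at h1
    have h2 : ‖∑ j, ((pt η t - ρ j)⁻¹) ^ q‖ ≤ ‖psum y η t (q - 1)‖ +
        ‖psum y η t (q - 1) + ∑ j, ((pt η t - ρ j)⁻¹) ^ q‖ := by
      have h3 := norm_sub_norm_le (∑ j, ((pt η t - ρ j)⁻¹) ^ q)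
        (psum y η t (q - 1) + ∑ j, ((pt η t - ρ j)⁻¹) ^ q)
      have h4 : (∑ j, ((pt η t - ρ j)⁻¹) ^ q) -
          (psum y η t (q - 1) + ∑ j, ((pt η t - ρ j)⁻¹) ^ q) = -psum y η t (q - 1) := by ring
      rw [h4, norm_neg] at h3
      linarith
    have h3 : C₀ * Λ * (16 / δ) ^ (q - 1) ≤ 1 / 4 * A⁻¹ ^ m * ((3 * η)⁻¹) ^ q := by
      have e1 : ((3 * η)⁻¹) ^ q = ((3 * η)⁻¹) ^ (q - 1) * (3 * η)⁻¹ := by
        rw [← pow_succ, hq]
      have h4 : 16 / δ ≤ (4 * A)⁻¹ * (3 * η)⁻¹ := by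
        rw [← mul_inv, ← one_div, div_le_div_iff₀ hδ (by positivity)]
        nlinarith
      have h5 : (16 / δ) ^ (q - 1) ≤ ((4 * A)⁻¹) ^ (q - 1) * ((3 * η)⁻¹) ^ (q - 1) := by
        rw [← mul_pow]
        exact pow_le_pow_left₀ (by positivity) h4 _
      have h6 : ((4 * A)⁻¹) ^ (q - 1) ≤ ((4 * A)⁻¹) ^ m :=
        pow_le_pow_of_le_one (by positivity) (inv_le_one_of_one_le₀ (by linarith)) (by omega)
      have h7 : ((4 * A)⁻¹) ^ m = (4 ^ m)⁻¹ * A⁻¹ ^ m := by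
        rw [mul_inv, mul_pow, inv_pow]
      have h8 : 12 * (C₀ * (η * Λ)) ≤ m := by
        refine le_trans ?_ hm
        have h9 : 0 ≤ (12 * A) ^ 2 * C₀ * (1 + η * Λ) + 12 * C₀ := by positivity
        nlinarith
      have h9 : (m : ℝ) ≤ 4 ^ m := by
        have := Nat.lt_pow_self (n := m) (show 1 < 4 by norm_num)
        exact_mod_cast this.le
      have h10 : 12 * (C₀ * (η * Λ)) * (4 ^ m)⁻¹ ≤ 1 := by
        rw [← div_eq_mul_inv, div_le_one (by positivity)]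
        exact h8.trans h9
      calc C₀ * Λ * (16 / δ) ^ (q - 1)
          ≤ C₀ * Λ * (((4 ^ m)⁻¹ * A⁻¹ ^ m) * ((3 * η)⁻¹) ^ (q - 1)) := by
            refine mul_le_mul_of_nonneg_left (h5.trans ?_) (by positivity)
            rw [← h7]
            exact mul_le_mul_of_nonneg_right h6 (by positivity)
        _ = (12 * (C₀ * (η * Λ)) * (4 ^ m)⁻¹) * (1 / 4 * A⁻¹ ^ m * ((3 * η)⁻¹) ^ q) := by
            rw [e1]
            field_simp
            ring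
        _ ≤ 1 * (1 / 4 * A⁻¹ ^ m * ((3 * η)⁻¹) ^ q) :=
            mul_le_mul_of_nonneg_right h10 (by positivity)
        _ = _ := one_mul _
    have h5 : 3 / 4 * A⁻¹ ^ m * ((3 * η)⁻¹) ^ q - 1 / 4 * A⁻¹ ^ m * ((3 * η)⁻¹) ^ q =
        1 / 2 * A⁻¹ ^ m * ((3 * η)⁻¹) ^ q := by ring
    linarith

end Pool.Agent.MPfb225e.Zd
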