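import Mathlib

/-!
# PROJECT ZD (MP_fb225e_nt), module Z6a: the weights of Selberg (helper20)

The first part (Moebius sums, the diagonalisation) is the computation of helper74 for MP_848d44_nt.
-/

namespace Pool.Agent.MPfb225e.Zd

open Finset

namespace Z6a

noncomputable section

/-- the Moebius function as a real number -/
def mu (n : ℕ) : ℝ := (ArithmeticFunction.moebius n : ℝ)

def g (T d : ℕ) : ℝ := ∑ t ∈ (Icc 1 T).filter (fun t => d ∣ t), mu t ^ 2 / (t.totient : ℝ)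

lemma mu_abs_le (n : ℕ) : |mu n| ≤ 1 := by
  unfold mu
  have := ArithmeticFunction.abs_moebius_le_one (n := n)
  exact_mod_cast this

lemma mu_sq_le (n : ℕ) : mu n ^ 2 ≤ 1 := by
  have h := mu_abs_le n
  rw [← sq_abs]
  have := abs_nonneg (mu n)
  nlinarith

lemma mu_one : mu 1 = 1 := by simp [mu]

lemma mu_sq_sf {n : ℕ} (h : Squarefree n) : mu n ^ 2 = 1 := by
  unfold mu
  exact_mod_cast ArithmeticFunction.moebius_sq_eq_one_of_squarefree h

lemma mu_zero_of_not {n : ℕ} (h : ¬ Squarefree n) : mu n = 0 := by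
  unfold mu
  exact_mod_cast ArithmeticFunction.moebius_eq_zero_of_not_squarefree h

lemma mu_mul {a b : ℕ} (h : a.Coprime b) : mu (a * b) = mu a * mu b := by
  unfold mu
  rw [ArithmeticFunction.isMultiplicative_moebius.map_mul_of_coprime h]
  push_cast
  rfl

lemma sum_div_mu (u : ℕ) : ∑ v ∈ u.divisors, mu v = if u = 1 then 1 else 0 := by
  unfold mu
  have h : ((ArithmeticFunction.moebius : ArithmeticFunction ℤ) * (ArithmeticFunction.zeta : ArithmeticFunction ℤ)) u
      = (1 : ArithmeticFunction ℤ) u := by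
    rw [ArithmeticFunction.moebius_mul_coe_zeta]
  rw [ArithmeticFunction.coe_mul_zeta_apply, ArithmeticFunction.one_apply] at h
  have h2 : ((∑ v ∈ u.divisors, ArithmeticFunction.moebius v : ℤ) : ℝ) = ((if u = 1 then 1 else 0 : ℤ) : ℝ) := by
    rw [h]
  push_cast at h2
  exact h2

lemma inner_sum {T f t : ℕ} (hf : 1 ≤ f) (ht : t ∈ Icc 1 T) (hsf : Squarefree t) :
    ∑ d ∈ (Icc 1 T).filter (fun d => f ∣ d ∧ d ∣ t), mu d = if t = f then mu f else 0 := by
  rw [mem_Icc] at ht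
  by_cases hft : f ∣ t
  · obtain ⟨u, rfl⟩ := hft
    have hu : u ≠ 0 := by
      rintro rfl
      omega
    have hset : (Icc 1 T).filter (fun d => f ∣ d ∧ d ∣ f * u) = (u.divisors).image (fun v => f * v) := by
      ext d
      simp only [mem_filter, mem_Icc, mem_image, Nat.mem_divisors]
      constructor
      · rintro ⟨h1, ⟨v, rfl⟩, h3⟩
        exact ⟨v, ⟨Nat.dvd_of_mul_dvd_mul_left (by omega) h3, hu⟩, rfl⟩
      · rintro ⟨v, ⟨h1, h2⟩, rfl⟩
        refine ⟨⟨?_, ?_⟩, dvd_mul_right _ _, Nat.mul_dvd_mul_left f h1⟩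
        · have : v ≠ 0 := by
            rintro rfl
            exact hu (Nat.eq_zero_of_zero_dvd h1)
          have := Nat.mul_pos (show 0 < f by omega) (Nat.pos_of_ne_zero this)
          omega
        · have h4 : f * v ≤ f * u := Nat.mul_le_mul_left f (Nat.le_of_dvd (Nat.pos_of_ne_zero hu) h1)
          omega
    rw [hset, sum_image (fun a _ b _ h => Nat.eq_of_mul_eq_mul_left (by omega) h)]
    have h1 : ∀ v ∈ u.divisors, mu (f * v) = mu f * mu v := by
      intro v hv
      apply mu_mul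
      have h2 : f * v ∣ f * u := Nat.mul_dvd_mul_left f (Nat.dvd_of_mem_divisors hv)
      exact Nat.coprime_of_squarefree_mul (hsf.squarefree_of_dvd h2)
    rw [sum_congr rfl h1, ← mul_sum, sum_div_mu]
    have h3 : (f * u = f) ↔ u = 1 := by
      constructor
      · intro h
        exact Nat.eq_of_mul_eq_mul_left (show 0 < f by omega) (by rw [h, mul_one])
      · rintro rfl
        exact mul_one f
    simp only [h3]
    split_ifs <;> simp
  · have h1 : t ≠ f := by
      rintro rfl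
      exact hft dvd_rfl
    rw [if_neg h1]
    apply sum_eq_zero
    intro d hd
    rw [mem_filter] at hd
    exact absurd (dvd_trans hd.2.1 hd.2.2) hft

lemma yf {T f : ℕ} (hf : f ∈ Icc 1 T) :
    ∑ d ∈ (Icc 1 T).filter (fun d => f ∣ d), mu d * g T d = mu f * (mu f ^ 2 / (f.totient : ℝ)) := by
  have hf' := mem_Icc.mp hf
  unfold g
  have h1 : ∑ d ∈ (Icc 1 T).filter (fun d => f ∣ d), mu d *
      ∑ t ∈ (Icc 1 T).filter (fun t => d ∣ t), mu t ^ 2 / (t.totient : ℝ) =
      ∑ t ∈ Icc 1 T, (mu t ^ 2 / (t.totient : ℝ)) *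
        ∑ d ∈ (Icc 1 T).filter (fun d => f ∣ d ∧ d ∣ t), mu d := by
    simp_rw [mul_sum]
    rw [sum_filter]
    simp_rw [sum_filter]
    have h2 : ∀ d ∈ Icc 1 T, (if f ∣ d then ∑ t ∈ Icc 1 T, (if d ∣ t then mu d * (mu t ^ 2 / (t.totient : ℝ)) else 0) else 0)
        = ∑ t ∈ Icc 1 T, if f ∣ d ∧ d ∣ t then mu d * (mu t ^ 2 / (t.totient : ℝ)) else 0 := by
      intro d _
      split_ifs with h
      · apply sum_congr rfl
        intro t _
        simp [h]
      · simp [h]
    rw [sum_congr rfl h2, sum_comm]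
    apply sum_congr rfl
    intro t _
    apply sum_congr rfl
    intro d _
    split_ifs
    · ring
    · rfl
  rw [h1]
  have h3 : ∀ t ∈ Icc 1 T, (mu t ^ 2 / (t.totient : ℝ)) *
        ∑ d ∈ (Icc 1 T).filter (fun d => f ∣ d ∧ d ∣ t), mu d =
        if t = f then mu f * (mu f ^ 2 / (f.totient : ℝ)) else 0 := by
    intro t ht
    by_cases hs : Squarefree t
    · rw [inner_sum hf'.1 ht hs]
      split_ifs with h
      · subst h
        ring
      · ring
    · rw [mu_zero_of_not hs]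
      split_ifs with h
      · subst h
        rw [mu_zero_of_not hs]
        ring
      · ring
  rw [sum_congr rfl h3, sum_ite_eq' (Icc 1 T) f]
  rw [if_pos hf]

lemma inv_lcm {d e : ℕ} (T : ℕ) (hd : d ∈ Icc 1 T) (he : e ∈ Icc 1 T) :
    (1 : ℝ) / (Nat.lcm d e : ℝ) =
      (1 / ((d : ℝ) * e)) * ∑ f ∈ Icc 1 T, (if f ∣ d ∧ f ∣ e then (f.totient : ℝ) else 0) := by
  rw [mem_Icc] at hd he
  have h1 : ∑ f ∈ Icc 1 T, (if f ∣ d ∧ f ∣ e then (f.totient : ℝ) else 0) = (Nat.gcd d e : ℝ) := by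
    rw [← sum_filter]
    have h2 : (Icc 1 T).filter (fun f => f ∣ d ∧ f ∣ e) = (Nat.gcd d e).divisors := by
      ext f
      simp only [mem_filter, mem_Icc, Nat.mem_divisors, Nat.dvd_gcd_iff]
      constructor
      · rintro ⟨h1, h2, h3⟩
        refine ⟨⟨h2, h3⟩, ?_⟩
        intro h
        rw [Nat.gcd_eq_zero_iff] at h
        omega
      · rintro ⟨⟨h2, h3⟩, _⟩
        have h4 := Nat.le_of_dvd (by omega) h2
        have h5 : f ≠ 0 := by
          rintro rfl
          have := Nat.eq_zero_of_zero_dvd h2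
          omega
        exact ⟨⟨by omega, by omega⟩, h2, h3⟩
    rw [h2]
    exact_mod_cast Nat.sum_totient (Nat.gcd d e)
  rw [h1]
  have h3 : (Nat.gcd d e : ℝ) * (Nat.lcm d e : ℝ) = (d : ℝ) * e := by
    exact_mod_cast Nat.gcd_mul_lcm d e
  have h4 : (0 : ℝ) < (Nat.lcm d e : ℝ) := by
    exact_mod_cast Nat.lcm_pos (by omega) (by omega)
  have h5 : (0 : ℝ) < (d : ℝ) * e := by
    have : (1 : ℝ) ≤ d := by exact_mod_cast hd.1
    have : (1 : ℝ) ≤ e := by exact_mod_cast he.1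
    positivity
  rw [div_mul_eq_mul_div, one_mul, div_eq_div_iff h4.ne' h5.ne', h3, one_mul]

def bb (T d : ℕ) : ℝ := d * (mu d * g T d)

lemma QQ_eq (T : ℕ) : ∑ d ∈ Icc 1 T, ∑ e ∈ Icc 1 T, bb T d * bb T e / (Nat.lcm d e : ℝ) = g T 1 := by
  have h1 : ∀ d ∈ Icc 1 T, ∀ e ∈ Icc 1 T, bb T d * bb T e / (Nat.lcm d e : ℝ) =
      ∑ f ∈ Icc 1 T, (f.totient : ℝ) * ((if f ∣ d then mu d * g T d else 0) *
        (if f ∣ e then mu e * g T e else 0)) := by
    intro d hd e he
    have hd' : (d : ℝ) ≠ 0 := by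
      have := (mem_Icc.mp hd).1
      positivity
    have he' : (e : ℝ) ≠ 0 := by
      have := (mem_Icc.mp he).1
      positivity
    rw [div_eq_mul_one_div, inv_lcm T hd he]
    unfold bb
    rw [← mul_assoc]
    have h2 : (d : ℝ) * (mu d * g T d) * (e * (mu e * g T e)) * (1 / ((d : ℝ) * e)) =
        mu d * g T d * (mu e * g T e) := by
      field_simp
    rw [h2, mul_sum]
    apply sum_congr rfl
    intro f _
    by_cases h3 : f ∣ d <;> by_cases h4 : f ∣ e <;> simp [h3, h4] <;> ring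
  rw [sum_congr rfl (fun d hd => sum_congr rfl (h1 d hd))]
  have h5 : ∑ d ∈ Icc 1 T, ∑ e ∈ Icc 1 T, ∑ f ∈ Icc 1 T, (f.totient : ℝ) *
      ((if f ∣ d then mu d * g T d else 0) * (if f ∣ e then mu e * g T e else 0)) =
      ∑ f ∈ Icc 1 T, (f.totient : ℝ) * (∑ d ∈ Icc 1 T, (if f ∣ d then mu d * g T d else 0)) ^ 2 := by
    have h6 : ∀ d ∈ Icc 1 T, ∑ e ∈ Icc 1 T, ∑ f ∈ Icc 1 T, (f.totient : ℝ) *
      ((if f ∣ d then mu d * g T d else 0) * (if f ∣ e then mu e * g T e else 0)) =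
      ∑ f ∈ Icc 1 T, ∑ e ∈ Icc 1 T, (f.totient : ℝ) *
      ((if f ∣ d then mu d * g T d else 0) * (if f ∣ e then mu e * g T e else 0)) :=
      fun d _ => sum_comm
    rw [sum_congr rfl h6, sum_comm]
    apply sum_congr rfl
    intro f _
    rw [sq, sum_mul_sum, mul_sum]
    apply sum_congr rfl
    intro d _
    rw [mul_sum]
  rw [h5]
  have h8 : g T 1 = ∑ f ∈ Icc 1 T, mu f ^ 2 / (f.totient : ℝ) := by
    unfold g
    simp only [one_dvd, filter_true]
  rw [h8]
  apply sum_congr rfl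
  intro f hf
  have h7 := yf hf
  rw [sum_filter] at h7
  rw [h7]
  have hphi : (f.totient : ℝ) ≠ 0 := by
    have := Nat.totient_pos.mpr (show 0 < f from (mem_Icc.mp hf).1)
    positivity
  by_cases hs : Squarefree f
  · rw [mul_pow]
    rw [mu_sq_sf hs]
    field_simp
  · rw [mu_zero_of_not hs]
    simp


/-- `g T d` vanishes for `T < d` -/
lemma g_zero {T d : ℕ} (h : T < d) : g T d = 0 := by
  unfold g
  apply sum_eq_zero
  intro t ht
  rw [mem_filter, mem_Icc] at ht
  have := Nat.le_of_dvd (by omega) ht.2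
  omega

lemma g_nonneg (T d : ℕ) : 0 ≤ g T d := by
  unfold g
  apply sum_nonneg
  intro t _
  positivity

lemma sum_inv_totient {d : ℕ} (hd : Squarefree d) :
    ∑ l ∈ d.divisors, (1 : ℝ) / (l.totient : ℝ) = d / (d.totient : ℝ) := by
  have hd0 : 0 < d := Nat.pos_of_ne_zero hd.ne_zero
  have hphi : (0 : ℝ) < (d.totient : ℝ) := by
    exact_mod_cast Nat.totient_pos.mpr hd0
  rw [eq_div_iff hphi.ne', sum_mul]
  have h1 : ∀ l ∈ d.divisors, (1 : ℝ) / (l.totient : ℝ) * (d.totient : ℝ) =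
      (((d / l).totient : ℕ) : ℝ) := by
    intro l hl
    have hld := Nat.dvd_of_mem_divisors hl
    obtain ⟨m, rfl⟩ := hld
    have hl0 : 0 < l := Nat.pos_of_mul_pos_right hd0
    have hc : l.Coprime m := Nat.coprime_of_squarefree_mul hd
    rw [Nat.mul_div_cancel_left m hl0, Nat.totient_mul hc]
    have : (0 : ℝ) < (l.totient : ℝ) := by
      exact_mod_cast Nat.totient_pos.mpr hl0
    push_cast
    field_simp
  rw [sum_congr rfl h1]
  have h2 := Nat.sum_div_divisors d (fun l => l.totient)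
  rw [Nat.sum_totient] at h2
  exact_mod_cast h2

/-- the inequality of Selberg -/
lemma d_mul_g_le {T d : ℕ} (hd : Squarefree d) : (d : ℝ) * g T d ≤ g T 1 := by
  have hd0 : 0 < d := Nat.pos_of_ne_zero hd.ne_zero
  have hphi : (0 : ℝ) < (d.totient : ℝ) := by
    exact_mod_cast Nat.totient_pos.mpr hd0
  let M : Finset ℕ := (Icc 1 (T / d)).filter (fun m => Squarefree m ∧ d.Coprime m)
  let H : ℝ := ∑ m ∈ M, 1 / (m.totient : ℝ)
  have h1 : g T d = 1 / (d.totient : ℝ) * H := by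
    have h2 : g T d = ∑ t ∈ (Icc 1 T).filter (fun t => d ∣ t ∧ Squarefree t),
        1 / (t.totient : ℝ) := by
      unfold g
      rw [sum_filter, sum_filter]
      apply sum_congr rfl
      intro t _
      by_cases hs : Squarefree t
      · rw [mu_sq_sf hs]
        simp [hs]
      · rw [mu_zero_of_not hs]
        simp [hs]
    have h3 : (Icc 1 T).filter (fun t => d ∣ t ∧ Squarefree t) = M.image (fun m => d * m) := by
      ext t
      simp only [M, mem_filter, mem_Icc, mem_image]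
      constructor
      · rintro ⟨⟨h4, h5⟩, ⟨m, rfl⟩, h6⟩
        refine ⟨m, ⟨⟨?_, ?_⟩, h6.squarefree_of_dvd (dvd_mul_left m d),
          Nat.coprime_of_squarefree_mul h6⟩, rfl⟩
        · by_contra h7
          have : m = 0 := by omega
          subst this
          omega
        · rw [Nat.le_div_iff_mul_le hd0, mul_comm]
          exact h5
      · rintro ⟨m, ⟨⟨h4, h5⟩, h6, h7⟩, rfl⟩
        refine ⟨⟨Nat.mul_pos hd0 h4, ?_⟩, dvd_mul_right _ _, ?_⟩
        · rw [Nat.le_div_iff_mul_le hd0, mul_comm] at h5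
          exact h5
        · exact (Nat.squarefree_mul h7).mpr ⟨hd, h6⟩
    rw [h2, h3, sum_image (fun a _ b _ h => Nat.eq_of_mul_eq_mul_left hd0 h), mul_sum]
    apply sum_congr rfl
    intro m hm
    have hm' := (mem_filter.mp hm).2.2
    rw [Nat.totient_mul hm']
    push_cast
    rw [one_div_mul_one_div]
  have h4 : (∑ l ∈ d.divisors, (1 : ℝ) / (l.totient : ℝ)) * H ≤ g T 1 := by
    have h5 : g T 1 = ∑ t ∈ (Icc 1 T).filter (fun t => Squarefree t), 1 / (t.totient : ℝ) := by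
      unfold g
      simp only [one_dvd, filter_true]
      rw [sum_filter]
      apply sum_congr rfl
      intro t _
      by_cases hs : Squarefree t
      · rw [mu_sq_sf hs]
        simp [hs]
      · rw [mu_zero_of_not hs]
        simp [hs]
    have hinj : Set.InjOn (fun p : ℕ × ℕ => p.1 * p.2) (d.divisors ×ˢ M : Finset (ℕ × ℕ)) := by
      rintro ⟨l, m⟩ hlm ⟨l', m'⟩ hlm' h
      simp only [coe_product, Set.mem_prod, mem_coe] at hlm hlm'
      simp only at h
      have h6 := Nat.dvd_of_mem_divisors hlm.1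
      have h7 := Nat.dvd_of_mem_divisors hlm'.1
      have h8 := (mem_filter.mp hlm.2).2.2
      have h9 := (mem_filter.mp hlm'.2).2.2
      have h10 : l ∣ l' := by
        have h11 : l ∣ l' * m' := by
          rw [← h]
          exact dvd_mul_right _ _
        exact (Nat.Coprime.coprime_dvd_left h6 h9).dvd_of_dvd_mul_right h11
      have h12 : l' ∣ l := by
        have h11 : l' ∣ l * m := by
          rw [h]
          exact dvd_mul_right _ _
        exact (Nat.Coprime.coprime_dvd_left h7 h8).dvd_of_dvd_mul_right h11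
      have h13 : l = l' := Nat.dvd_antisymm h10 h12
      subst h13
      have hl0 : 0 < l := Nat.pos_of_dvd_of_pos h6 hd0
      rw [Nat.eq_of_mul_eq_mul_left hl0 h]
    rw [sum_mul_sum, ← sum_product', h5]
    have h14 : ∑ p ∈ d.divisors ×ˢ M, 1 / (p.1.totient : ℝ) * (1 / (p.2.totient : ℝ)) =
        ∑ t ∈ (d.divisors ×ˢ M).image (fun p : ℕ × ℕ => p.1 * p.2), 1 / (t.totient : ℝ) := by
      rw [sum_image hinj]
      apply sum_congr rfl
      rintro ⟨l, m⟩ hlm
      rw [mem_product] at hlm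
      have h15 : l.Coprime m := Nat.Coprime.coprime_dvd_left (Nat.dvd_of_mem_divisors hlm.1)
        (mem_filter.mp hlm.2).2.2
      simp only
      rw [Nat.totient_mul h15]
      push_cast
      rw [one_div_mul_one_div]
    rw [h14]
    apply sum_le_sum_of_subset_of_nonneg
    · intro t ht
      rw [mem_image] at ht
      obtain ⟨⟨l, m⟩, hlm, rfl⟩ := ht
      rw [mem_product] at hlm
      have h6 := Nat.dvd_of_mem_divisors hlm.1
      obtain ⟨h16, h17, h18⟩ := mem_filter.mp hlm.2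
      rw [mem_Icc] at h16
      have h15 : l.Coprime m := Nat.Coprime.coprime_dvd_left h6 h18
      rw [mem_filter, mem_Icc]
      have hl0 : 0 < l := Nat.pos_of_dvd_of_pos h6 hd0
      refine ⟨⟨Nat.mul_pos hl0 h16.1, ?_⟩, ?_⟩
      · have h19 : l ≤ d := Nat.le_of_dvd hd0 h6
        have h20 := h16.2
        rw [Nat.le_div_iff_mul_le hd0, mul_comm] at h20
        exact (Nat.mul_le_mul_right m h19).trans h20
      · exact (Nat.squarefree_mul h15).mpr ⟨hd.squarefree_of_dvd h6, h17⟩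
    · intro t _ _
      positivity
  rw [sum_inv_totient hd] at h4
  rw [h1]
  calc (d : ℝ) * (1 / (d.totient : ℝ) * H) = d / (d.totient : ℝ) * H := by ring
    _ ≤ g T 1 := h4

/-- the radical -/
def rad (k : ℕ) : ℕ := ∏ p ∈ k.primeFactors, p

lemma rad_dvd (k : ℕ) : rad k ∣ k := Nat.prod_primeFactors_dvd k

lemma rad_pos (k : ℕ) : 0 < rad k := prod_pos fun _ hp => (Nat.prime_of_mem_primeFactors hp).pos

lemma rad_primeFactors (k : ℕ) : (rad k).primeFactors = k.primeFactors :=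
  Nat.primeFactors_prod fun _ hp => Nat.prime_of_mem_primeFactors hp

lemma rad_squarefree (k : ℕ) : Squarefree (rad k) := by
  refine Finset.squarefree_prod_of_pairwise_isCoprime (fun p hp q hq hpq => ?_) (fun p hp => ?_)
  · rw [Function.onFun, ← Nat.coprime_iff_isRelPrime, Nat.coprime_primes]
    · exact hpq
    · exact Nat.prime_of_mem_primeFactors hp
    · exact Nat.prime_of_mem_primeFactors hq
  · exact (Nat.prime_of_mem_primeFactors hp).prime.squarefree

/-- the reciprocals of the integers as a homomorphism -/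
def ivh : ℕ →* ℝ where
  toFun k := (k : ℝ)⁻¹
  map_one' := by simp
  map_mul' a b := by
    push_cast
    rw [mul_inv]

lemma sum_rad_le (A : Finset ℕ) {e : ℕ} (he : 0 < e)
    (hA : ∀ k ∈ A, k ≠ 0 ∧ rad k = e) :
    ∑ k ∈ A, (1 : ℝ) / k ≤ 1 / (e.totient : ℝ) := by
  have hlt : ∀ {p : ℕ}, p.Prime → ‖ivh p‖ < 1 := by
    intro p hp
    show ‖(p : ℝ)⁻¹‖ < 1
    rw [norm_inv, Real.norm_natCast]
    exact inv_lt_one_of_one_lt₀ (by exact_mod_cast hp.one_lt)
  obtain ⟨-, hs⟩ := EulerProduct.summable_and_hasSum_factoredNumbers_prod_filter_prime_geometric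
    (f := ivh) hlt e.primeFactors
  have h1 : ∀ k ∈ A, e ∣ k := fun k hk => (hA k hk).2 ▸ rad_dvd k
  have h2 : ∀ k ∈ A, k / e ∈ Nat.factoredNumbers e.primeFactors := by
    intro k hk
    obtain ⟨h3, h4⟩ := hA k hk
    have h5 : k / e ∣ k := Nat.div_dvd_of_dvd (h1 k hk)
    apply Nat.mem_factoredNumbers_of_primeFactors_subset
    · exact (Nat.div_pos (Nat.le_of_dvd (Nat.pos_of_ne_zero h3) (h1 k hk)) he).ne'
    · rw [← h4, rad_primeFactors]
      exact Nat.primeFactors_mono (h4 ▸ h5) h3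
  have h3 : ∑ k ∈ A, (1 : ℝ) / k = (e : ℝ)⁻¹ * ∑ k ∈ A.attach, ivh (k.1 / e) := by
    rw [mul_sum, ← sum_attach]
    apply sum_congr rfl
    rintro ⟨k, hk⟩ _
    show (1 : ℝ) / k = (e : ℝ)⁻¹ * ((k / e : ℕ) : ℝ)⁻¹
    obtain ⟨m, hm⟩ := h1 k hk
    rw [hm, Nat.mul_div_cancel_left m he]
    push_cast
    rw [one_div, mul_inv]
  have h4 : ∑ k ∈ A.attach, ivh (k.1 / e) ≤ ∏ p ∈ e.primeFactors with p.Prime, (1 - ivh p)⁻¹ := by
    have h5 : ∑ k ∈ A.attach, ivh (k.1 / e) =
        ∑ m ∈ A.attach.image (fun k => (⟨k.1 / e, h2 k.1 k.2⟩ : Nat.factoredNumbers e.primeFactors)),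
          ivh m := by
      rw [sum_image]
      rintro ⟨k, hk⟩ _ ⟨k', hk'⟩ _ h
      have h6 : k / e = k' / e := congrArg Subtype.val h
      apply Subtype.ext
      show k = k'
      rw [← Nat.div_mul_cancel (h1 k hk), ← Nat.div_mul_cancel (h1 k' hk'), h6]
    rw [h5]
    apply sum_le_hasSum _ _ hs
    intro m _
    show (0 : ℝ) ≤ ((m : ℕ) : ℝ)⁻¹
    positivity
  have h5 : (e.primeFactors.filter Nat.Prime) = e.primeFactors :=
    filter_true_of_mem fun p hp => Nat.prime_of_mem_primeFactors hp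
  rw [h5] at h4
  have h6 : (e.totient : ℝ) = e * ∏ p ∈ e.primeFactors, (1 - (p : ℝ)⁻¹) := by
    have h7 := congrArg (fun x : ℚ => (x : ℝ)) (Nat.totient_eq_mul_prod_factors e)
    push_cast at h7
    exact h7
  rw [h3, h6, one_div, mul_inv, ← prod_inv_distrib]
  exact mul_le_mul_of_nonneg_left h4 (by positivity)

lemma harm_le_g (T : ℕ) : ∑ n ∈ Icc 1 T, (1 : ℝ) / n ≤ g T 1 := by
  have h1 : ∀ k ∈ Icc 1 T, rad k ∈ (Icc 1 T).filter Squarefree := by
    intro k hk
    rw [mem_Icc] at hk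
    rw [mem_filter, mem_Icc]
    exact ⟨⟨rad_pos k, (Nat.le_of_dvd (by omega) (rad_dvd k)).trans hk.2⟩, rad_squarefree k⟩
  rw [← sum_fiberwise_of_maps_to h1]
  have h5 : g T 1 = ∑ t ∈ (Icc 1 T).filter Squarefree, 1 / (t.totient : ℝ) := by
    unfold g
    simp only [one_dvd, filter_true]
    rw [sum_filter]
    apply sum_congr rfl
    intro t _
    by_cases hs : Squarefree t
    · rw [mu_sq_sf hs]
      simp [hs]
    · rw [mu_zero_of_not hs]
      simp [hs]
  rw [h5]
  apply sum_le_sum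
  intro e he
  rw [mem_filter, mem_Icc] at he
  apply sum_rad_le _ he.1.1
  intro k hk
  rw [mem_filter, mem_Icc] at hk
  exact ⟨by omega, hk.2⟩

lemma log_le_harm (T : ℕ) : Real.log T ≤ ∑ n ∈ Icc 1 T, (1 : ℝ) / n := by
  rcases Nat.eq_zero_or_pos T with rfl | hT
  · simp
  have h1 := log_add_one_le_harmonic T
  have h2 : (harmonic T : ℝ) = ∑ n ∈ Icc 1 T, (1 : ℝ) / n := by
    rw [harmonic_eq_sum_Icc]
    push_cast
    simp [one_div]
  have h3 : Real.log T ≤ Real.log ((T + 1 : ℕ) : ℝ) := by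
    apply Real.log_le_log
    · exact_mod_cast hT
    · exact_mod_cast Nat.le_succ T
  rw [← h2]
  refine h3.trans ?_
  simpa using h1


end

end Z6a

/-- Z6a (file Zd/Selberg.lean). Selberg's weights. -/
theorem selberg_weights (R : ℕ) (hR : 2 ≤ R) : ∃ w : ℕ → ℝ, w 0 = 0 ∧ w 1 = 1 ∧
    (∀ d, |w d| ≤ 1) ∧ (∀ d, R < d → w d = 0) ∧
    ∑ d ∈ Finset.range (R + 1), ∑ e ∈ Finset.range (R + 1), w d * w e / (Nat.lcm d e : ℝ) ≤
      1 / Real.log R := by
  have hlog : 0 < Real.log R := Real.log_pos (by exact_mod_cast (by omega : 1 < R))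
  have hg : Real.log R ≤ Z6a.g R 1 := (Z6a.log_le_harm R).trans (Z6a.harm_le_g R)
  have hg0 : 0 < Z6a.g R 1 := hlog.trans_le hg
  refine ⟨fun d => Z6a.bb R d / Z6a.g R 1, ?_, ?_, ?_, ?_, ?_⟩
  · simp [Z6a.bb]
  · simp only [Z6a.bb, Z6a.mu_one, Nat.cast_one, one_mul]
    exact div_self hg0.ne'
  · intro d
    rw [abs_div, abs_of_pos hg0, div_le_one hg0]
    by_cases hs : Squarefree d
    · have h1 := Z6a.d_mul_g_le (T := R) hs
      have h2 := Z6a.mu_abs_le d
      have h3 := Z6a.g_nonneg R d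
      unfold Z6a.bb
      rw [abs_mul, abs_mul, Nat.abs_cast, abs_of_nonneg h3]
      calc (d : ℝ) * (|Z6a.mu d| * Z6a.g R d) ≤ (d : ℝ) * (1 * Z6a.g R d) := by gcongr
        _ = (d : ℝ) * Z6a.g R d := by rw [one_mul]
        _ ≤ Z6a.g R 1 := h1
    · unfold Z6a.bb
      rw [Z6a.mu_zero_of_not hs]
      simp [hg0.le]
  · intro d hd
    simp only [Z6a.bb, Z6a.g_zero hd, mul_zero, zero_div]
  · have h1 : ∀ f : ℕ → ℕ → ℝ, (∀ e, f 0 e = 0) → (∀ d, f d 0 = 0) →
        ∑ d ∈ Finset.range (R + 1), ∑ e ∈ Finset.range (R + 1), f d e =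
        ∑ d ∈ Icc 1 R, ∑ e ∈ Icc 1 R, f d e := by
      intro f h0 h0'
      have h2 : ∀ a : ℕ → ℝ, a 0 = 0 → ∑ d ∈ Finset.range (R + 1), a d = ∑ d ∈ Icc 1 R, a d := by
        intro a ha
        rw [Finset.range_eq_Ico, Finset.sum_eq_sum_Ico_succ_bot (by omega), ha, zero_add]
        rfl
      rw [h2 _ (by simp [h0])]
      exact Finset.sum_congr rfl fun d _ => h2 _ (h0' d)
    rw [h1 _ (by simp [Z6a.bb]) (by simp [Z6a.bb])]
    have h3 : ∀ d e : ℕ, Z6a.bb R d / Z6a.g R 1 * (Z6a.bb R e / Z6a.g R 1) / (Nat.lcm d e : ℝ) =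
        (Z6a.bb R d * Z6a.bb R e / (Nat.lcm d e : ℝ)) * (1 / Z6a.g R 1 ^ 2) := by
      intro d e
      ring
    simp only [h3]
    simp only [← Finset.sum_mul]
    have h4 : Z6a.g R 1 * (1 / Z6a.g R 1 ^ 2) = 1 / Z6a.g R 1 := by
      field_simp
    rw [Z6a.QQ_eq, h4]
    exact one_div_le_one_div_of_le hlog hg

end Pool.Agent.MPfb225e.Zd
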