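import Mathlib
import Pool.Agent.Lib.MP_fb225e_nt.Zd.Selberg

/-!
# The Brun-Titchmarsh inequality (module Z6b)
-/

namespace Pool.Agent.MPfb225e.Zd

/-- the number of multiples of `m` in an interval -/
theorem Z6b_card_dvd (a b m : ℕ) (hab : a ≤ b) (hm : 0 < m) :
    |(((Finset.Ioc a b).filter (fun k => m ∣ k)).card : ℝ) - ((b : ℝ) - a) / m| ≤ 1 := by
  have hc : ((Finset.Ioc 0 b).filter (fun k => m ∣ k)).card =
      ((Finset.Ioc 0 a).filter (fun k => m ∣ k)).card +
        ((Finset.Ioc a b).filter (fun k => m ∣ k)).card := by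
    rw [← Finset.Ioc_union_Ioc_eq_Ioc (Nat.zero_le a) hab, Finset.filter_union,
      Finset.card_union_of_disjoint]
    apply Finset.disjoint_filter_filter
    rw [Finset.disjoint_left]
    intro k hk hk'
    rw [Finset.mem_Ioc] at hk hk'
    omega
  rw [Nat.Ioc_filter_dvd_card_eq_div, Nat.Ioc_filter_dvd_card_eq_div] at hc
  have hc' : (((Finset.Ioc a b).filter (fun k => m ∣ k)).card : ℝ) =
      ((b / m : ℕ) : ℝ) - ((a / m : ℕ) : ℝ) := by
    have : ((b / m : ℕ) : ℝ) = ((a / m : ℕ) : ℝ) +
        (((Finset.Ioc a b).filter (fun k => m ∣ k)).card : ℝ) := by exact_mod_cast hc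
    linarith
  have hm' : (0 : ℝ) < m := by exact_mod_cast hm
  have hfl : ∀ n : ℕ, ((n / m : ℕ) : ℝ) ≤ (n : ℝ) / m ∧ (n : ℝ) / m < ((n / m : ℕ) : ℝ) + 1 := by
    intro n
    refine ⟨Nat.cast_div_le, ?_⟩
    rw [div_lt_iff₀ hm']
    have h1 : n < (n / m + 1) * m := by
      have h2 := Nat.div_add_mod n m
      have h3 := Nat.mod_lt n hm
      have h4 : (n / m + 1) * m = m * (n / m) + m := by ring
      omega
    exact_mod_cast h1
  have ha := hfl a
  have hb := hfl b
  rw [hc', sub_div, abs_le]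
  constructor <;> linarith [ha.1, ha.2, hb.1, hb.2]

/-- the sieve inequality -/
theorem Z6b_sieve (R a b : ℕ) (hR : 2 ≤ R) (hab : a ≤ b) :
    (((Finset.Ioc a b).filter Nat.Prime).card : ℝ) ≤
      (R + 1) + ((b : ℝ) - a) / Real.log R + (R + 1) ^ 2 := by
  classical
  obtain ⟨w, hw0, hw1, hwb, hwR, hsum⟩ := selberg_weights R hR
  have hlog : 0 < Real.log R := Real.log_pos (by exact_mod_cast (by omega : 1 < R))
  -- the divisor sum
  obtain ⟨S, hS⟩ : ∃ S : ℕ → ℝ, S = fun k => ∑ d ∈ Finset.range (R + 1),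
      if d ∣ k then w d else 0 := ⟨_, rfl⟩
  have hSp : ∀ q : ℕ, q.Prime → R < q → S q = 1 := by
    intro q hq hRq
    rw [hS]
    show (∑ d ∈ Finset.range (R + 1), if d ∣ q then w d else 0) = 1
    rw [Finset.sum_eq_single 1]
    · rw [if_pos (one_dvd _), hw1]
    · intro d hd hd1
      rw [if_neg]
      intro hdq
      rcases (Nat.dvd_prime hq).1 hdq with h | h
      · exact hd1 h
      · rw [Finset.mem_range] at hd
        omega
    · intro h
      exact absurd (Finset.mem_range.2 (by omega)) h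
  -- split the primes
  have hsub : (Finset.Ioc a b).filter Nat.Prime ⊆
      Finset.range (R + 1) ∪ ((Finset.Ioc a b).filter (fun q => q.Prime ∧ R < q)) := by
    intro q hq
    rw [Finset.mem_filter] at hq
    rw [Finset.mem_union, Finset.mem_range, Finset.mem_filter]
    by_cases h : R < q
    · exact Or.inr ⟨hq.1, hq.2, h⟩
    · exact Or.inl (by omega)
  have h1 : (((Finset.Ioc a b).filter Nat.Prime).card : ℝ) ≤
      (R + 1) + (((Finset.Ioc a b).filter (fun q => q.Prime ∧ R < q)).card : ℝ) := by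
    have := (Finset.card_le_card hsub).trans (Finset.card_union_le _ _)
    rw [Finset.card_range] at this
    exact_mod_cast this
  have h2 : (((Finset.Ioc a b).filter (fun q => q.Prime ∧ R < q)).card : ℝ) ≤
      ∑ k ∈ Finset.Ioc a b, S k ^ 2 := by
    calc (((Finset.Ioc a b).filter (fun q => q.Prime ∧ R < q)).card : ℝ)
        = ∑ k ∈ (Finset.Ioc a b).filter (fun q => q.Prime ∧ R < q), S k ^ 2 := by
          rw [Finset.card_eq_sum_ones, Nat.cast_sum]
          apply Finset.sum_congr rfl
          intro k hk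
          rw [Finset.mem_filter] at hk
          rw [hSp k hk.2.1 hk.2.2]
          norm_num
      _ ≤ ∑ k ∈ Finset.Ioc a b, S k ^ 2 := by
          apply Finset.sum_le_sum_of_subset_of_nonneg (Finset.filter_subset _ _)
          intro k _ _
          positivity
  have h3 : ∑ k ∈ Finset.Ioc a b, S k ^ 2 =
      ∑ d ∈ Finset.range (R + 1), ∑ e ∈ Finset.range (R + 1),
        w d * w e * (((Finset.Ioc a b).filter (fun k => Nat.lcm d e ∣ k)).card : ℝ) := by
    calc ∑ k ∈ Finset.Ioc a b, S k ^ 2
        = ∑ k ∈ Finset.Ioc a b, ∑ d ∈ Finset.range (R + 1), ∑ e ∈ Finset.range (R + 1),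
            (if Nat.lcm d e ∣ k then w d * w e else 0) := by
          apply Finset.sum_congr rfl
          intro k _
          rw [hS]
          show (∑ d ∈ Finset.range (R + 1), if d ∣ k then w d else 0) ^ 2 = _
          rw [sq, Finset.sum_mul_sum]
          apply Finset.sum_congr rfl
          intro d _
          apply Finset.sum_congr rfl
          intro e _
          by_cases hd : d ∣ k
          · by_cases he : e ∣ k
            · rw [if_pos hd, if_pos he, if_pos (Nat.lcm_dvd hd he)]
            · rw [if_pos hd, if_neg he, if_neg (fun h => he ((Nat.dvd_lcm_right d e).trans h)),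
                mul_zero]
          · rw [if_neg hd, if_neg (fun h => hd ((Nat.dvd_lcm_left d e).trans h)), zero_mul]
      _ = ∑ d ∈ Finset.range (R + 1), ∑ k ∈ Finset.Ioc a b, ∑ e ∈ Finset.range (R + 1),
            (if Nat.lcm d e ∣ k then w d * w e else 0) := Finset.sum_comm
      _ = _ := by
          apply Finset.sum_congr rfl
          intro d _
          rw [Finset.sum_comm]
          apply Finset.sum_congr rfl
          intro e _
          rw [← Finset.sum_filter, Finset.sum_const, nsmul_eq_mul, mul_comm]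
  have h4 : ∀ d ∈ Finset.range (R + 1), ∀ e ∈ Finset.range (R + 1),
      w d * w e * (((Finset.Ioc a b).filter (fun k => Nat.lcm d e ∣ k)).card : ℝ) ≤
        ((b : ℝ) - a) * (w d * w e / (Nat.lcm d e : ℝ)) + 1 := by
    intro d _ e _
    rcases Nat.eq_zero_or_pos d with hd | hd
    · rw [hd, hw0]
      norm_num
    rcases Nat.eq_zero_or_pos e with he | he
    · rw [he, hw0]
      norm_num
    have hl : 0 < Nat.lcm d e := Nat.lcm_pos hd he
    have hcd := Z6b_card_dvd a b (Nat.lcm d e) hab hl
    have hww : |w d * w e| ≤ 1 := by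
      rw [abs_mul]
      exact mul_le_one₀ (hwb d) (abs_nonneg _) (hwb e)
    have h5 : w d * w e * ((((Finset.Ioc a b).filter (fun k => Nat.lcm d e ∣ k)).card : ℝ) -
        ((b : ℝ) - a) / (Nat.lcm d e : ℝ)) ≤ 1 := by
      refine (le_abs_self _).trans ?_
      rw [abs_mul]
      exact mul_le_one₀ hww (abs_nonneg _) hcd
    have e1 : w d * w e * (((Finset.Ioc a b).filter (fun k => Nat.lcm d e ∣ k)).card : ℝ) =
        w d * w e * ((((Finset.Ioc a b).filter (fun k => Nat.lcm d e ∣ k)).card : ℝ) -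
        ((b : ℝ) - a) / (Nat.lcm d e : ℝ)) +
        ((b : ℝ) - a) * (w d * w e / (Nat.lcm d e : ℝ)) := by ring
    rw [e1]
    linarith
  have h6 : ∑ k ∈ Finset.Ioc a b, S k ^ 2 ≤ ((b : ℝ) - a) / Real.log R + (R + 1) ^ 2 := by
    rw [h3]
    have hba : (0 : ℝ) ≤ (b : ℝ) - a := sub_nonneg.2 (by exact_mod_cast hab)
    calc ∑ d ∈ Finset.range (R + 1), ∑ e ∈ Finset.range (R + 1),
        w d * w e * (((Finset.Ioc a b).filter (fun k => Nat.lcm d e ∣ k)).card : ℝ)
        ≤ ∑ d ∈ Finset.range (R + 1), ∑ e ∈ Finset.range (R + 1),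
          (((b : ℝ) - a) * (w d * w e / (Nat.lcm d e : ℝ)) + 1) :=
          Finset.sum_le_sum fun d hd => Finset.sum_le_sum fun e he => h4 d hd e he
      _ = ((b : ℝ) - a) * (∑ d ∈ Finset.range (R + 1), ∑ e ∈ Finset.range (R + 1),
            w d * w e / (Nat.lcm d e : ℝ)) + (R + 1) ^ 2 := by
          simp only [Finset.sum_add_distrib, Finset.mul_sum, Finset.sum_const,
            Finset.card_range, nsmul_eq_mul, Nat.cast_add, Nat.cast_one, mul_one]
          ring
      _ ≤ ((b : ℝ) - a) * (1 / Real.log R) + (R + 1) ^ 2 := by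
          have := mul_le_mul_of_nonneg_left hsum hba
          linarith
      _ = _ := by ring
  linarith

/-- Z6b. The Brun-Titchmarsh inequality. -/
theorem brun_titchmarsh : ∃ C : ℝ, 0 < C ∧ ∀ x h : ℝ, 0 ≤ x → 2 ≤ h →
    (((Finset.Ioc ⌊x⌋₊ ⌊x + h⌋₊).filter Nat.Prime).card : ℝ) ≤ C * h / Real.log h := by
  refine ⟨36, by norm_num, fun x h hx hh => ?_⟩
  have hlogh : 0 < Real.log h := Real.log_pos (by linarith)
  obtain ⟨a, ha⟩ : ∃ a, a = ⌊x⌋₊ := ⟨_, rfl⟩
  obtain ⟨b, hb⟩ : ∃ b, b = ⌊x + h⌋₊ := ⟨_, rfl⟩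
  rw [← ha, ← hb]
  have hab : a ≤ b := by
    rw [ha, hb]
    exact Nat.floor_mono (by linarith)
  have hba : (b : ℝ) - a ≤ h + 1 := by
    have h1 : (b : ℝ) ≤ x + h := by
      rw [hb]
      exact Nat.floor_le (by linarith)
    have h2 : x < (a : ℝ) + 1 := by
      rw [ha]
      exact Nat.lt_floor_add_one x
    linarith
  have hba0 : (0 : ℝ) ≤ (b : ℝ) - a := sub_nonneg.2 (by exact_mod_cast hab)
  by_cases hsmall : h < 64
  · -- trivial bound
    have h1 : (((Finset.Ioc a b).filter Nat.Prime).card : ℝ) ≤ (b : ℝ) - a := by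
      have h2 : ((Finset.Ioc a b).filter Nat.Prime).card ≤ b - a := by
        refine (Finset.card_filter_le _ _).trans ?_
        rw [Nat.card_Ioc]
      have h3 : (((Finset.Ioc a b).filter Nat.Prime).card : ℝ) ≤ ((b - a : ℕ) : ℝ) := by
        exact_mod_cast h2
      rwa [Nat.cast_sub hab] at h3
    have h4 : Real.log h ≤ 6 := by
      calc Real.log h ≤ Real.log 64 := Real.log_le_log (by linarith) hsmall.le
        _ = 6 * Real.log 2 := by
          rw [show (64 : ℝ) = 2 ^ 6 by norm_num, Real.log_pow]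
          norm_num
        _ ≤ 6 := by
          have := Real.log_two_lt_d9
          linarith
    rw [le_div_iff₀ hlogh]
    calc (((Finset.Ioc a b).filter Nat.Prime).card : ℝ) * Real.log h ≤ (h + 1) * 6 := by
          apply mul_le_mul (by linarith) h4 hlogh.le (by linarith)
      _ ≤ 36 * h := by linarith
  · push Not at hsmall
    -- the cube root
    obtain ⟨y, hy⟩ : ∃ y : ℝ, y = h ^ ((1 : ℝ) / 3) := ⟨_, rfl⟩
    have hy3 : y ^ 3 = h := by
      rw [hy, ← Real.rpow_natCast, ← Real.rpow_mul (by linarith)]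
      norm_num
    have hy0 : 0 < y := by
      rw [hy]
      exact Real.rpow_pos_of_pos (by linarith) _
    have hy4 : 4 ≤ y := by
      by_contra hlt
      push Not at hlt
      have : y ^ 3 < 4 ^ 3 := pow_lt_pow_left₀ hlt hy0.le (by norm_num)
      rw [hy3] at this
      linarith
    obtain ⟨R, hRd⟩ : ∃ R, R = ⌊y⌋₊ := ⟨_, rfl⟩
    have hR4 : 4 ≤ R := by
      rw [hRd]
      exact Nat.le_floor (by exact_mod_cast hy4)
    have hRy : (R : ℝ) ≤ y := by
      rw [hRd]
      exact Nat.floor_le hy0.le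
    have hyR : y < (R : ℝ) + 1 := by
      rw [hRd]
      exact Nat.lt_floor_add_one y
    have hlogy : Real.log h = 3 * Real.log y := by
      rw [← hy3, Real.log_pow]
      norm_num
    have hlogR : Real.log h / 6 ≤ Real.log R := by
      have h1 : y / 2 ≤ R := by linarith
      have h2 : Real.log (y / 2) ≤ Real.log R := Real.log_le_log (by linarith) h1
      rw [Real.log_div hy0.ne' (by norm_num)] at h2
      have h3 : Real.log 4 ≤ Real.log y := Real.log_le_log (by norm_num) hy4
      have h4 : Real.log 4 = 2 * Real.log 2 := by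
        rw [show (4 : ℝ) = 2 ^ 2 by norm_num, Real.log_pow]
        norm_num
      rw [hlogy]
      linarith
    have hRpos : 0 < Real.log R := by linarith
    have hsv := Z6b_sieve R a b (by omega) hab
    have h5 : ((b : ℝ) - a) / Real.log R ≤ 12 * h / Real.log h := by
      rw [div_le_div_iff₀ hRpos hlogh]
      calc ((b : ℝ) - a) * Real.log h ≤ (2 * h) * (6 * Real.log R) := by
            apply mul_le_mul (by linarith) (by linarith) hlogh.le (by linarith)
        _ = 12 * h * Real.log R := by ring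
    have h6 : (R + 1 : ℝ) + (R + 1) ^ 2 ≤ 8 * y ^ 2 := by nlinarith
    have h7 : 8 * y ^ 2 ≤ 24 * h / Real.log h := by
      rw [le_div_iff₀ hlogh, hlogy, ← hy3]
      have h8 : Real.log y ≤ y := by
        have := Real.log_le_sub_one_of_pos hy0
        linarith
      calc 8 * y ^ 2 * (3 * Real.log y) ≤ 8 * y ^ 2 * (3 * y) := by
            apply mul_le_mul_of_nonneg_left (by linarith) (by positivity)
        _ = 24 * y ^ 3 := by ring
    calc (((Finset.Ioc a b).filter Nat.Prime).card : ℝ)
        ≤ (R + 1) + ((b : ℝ) - a) / Real.log R + (R + 1) ^ 2 := hsv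
      _ ≤ 24 * h / Real.log h + 12 * h / Real.log h := by linarith
      _ = 36 * h / Real.log h := by ring

end Pool.Agent.MPfb225e.Zd
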