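import Mathlib
import Pool.Agent.Lib.MP_fb225e_nt.Zd.BrunTitchmarsh

/-!
MP_fb225e_nt, project ZD, module Z7: primes in short logarithmic windows, Gaussian weights.
-/

namespace Pool.Agent.MPfb225e.Zd

open Filter Topology Complex
open NumberField IsDedekindDomain
open scoped Nat

universe u

/-- The primes with logarithm in a window of length `2 / T`. -/
theorem z7_window : ∃ C : ℝ, 0 < C ∧ ∀ T u : ℝ, 1 ≤ T → 2 + 2 * Real.log T ≤ u →
    ∀ P : Finset Nat.Primes, (∀ p ∈ P, u < Real.log p ∧ Real.log p ≤ u + 2 / T) →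
    ∑ p ∈ P, Real.log p / p ≤ C / T := by
  obtain ⟨C, hC, hbt⟩ := brun_titchmarsh
  refine ⟨8 * Real.exp 2 * C, by positivity, ?_⟩
  intro T u hT hu P hP
  have hT0 : 0 < T := by linarith
  have hlT : 0 ≤ Real.log T := Real.log_nonneg hT
  have hu2 : 2 ≤ u := by linarith
  have hu0 : 0 < u := by linarith
  have hy0 : 0 < 2 / T := by positivity
  have hy2 : 2 / T ≤ 2 := by
    rw [div_le_iff₀ hT0]
    nlinarith
  obtain ⟨h, hh⟩ : ∃ h : ℝ, h = Real.exp u * (Real.exp (2 / T) - 1) := ⟨_, rfl⟩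
  have hxh : Real.exp u + h = Real.exp (u + 2 / T) := by
    rw [hh, Real.exp_add]
    ring
  have heu : 0 < Real.exp u := Real.exp_pos u
  have h1 : Real.exp (u / 2) ≤ h := by
    have h2 : Real.exp (u / 2) ≤ Real.exp (u - Real.log T) := by
      apply Real.exp_le_exp.2
      linarith
    rw [Real.exp_sub, Real.exp_log hT0] at h2
    have h3 : Real.exp u * (2 / T) ≤ h := by
      rw [hh]
      refine mul_le_mul_of_nonneg_left ?_ heu.le
      have := Real.add_one_le_exp (2 / T)
      linarith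
    have h4 : Real.exp u / T ≤ Real.exp u * (2 / T) := by
      rw [div_eq_mul_inv, div_eq_mul_inv]
      have : 0 < Real.exp u * T⁻¹ := by positivity
      nlinarith
    linarith
  have hh2 : 2 ≤ h := by
    have := Real.add_one_le_exp (u / 2)
    linarith
  have hh0 : 0 < h := by linarith
  have hlogh : u / 2 ≤ Real.log h := (Real.le_log_iff_exp_le hh0).2 h1
  have hup : h ≤ Real.exp u * (2 / T * Real.exp 2) := by
    rw [hh]
    refine mul_le_mul_of_nonneg_left ?_ heu.le
    have h5 := Real.add_one_le_exp (-(2 / T))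
    have h6 : Real.exp (-(2 / T)) * Real.exp (2 / T) = 1 := by
      rw [← Real.exp_add]
      simp
    have h7 : 0 < Real.exp (2 / T) := Real.exp_pos _
    have h8 : (-(2 / T) + 1) * Real.exp (2 / T) ≤ 1 := by
      have h12 := mul_le_mul_of_nonneg_right h5 h7.le
      rwa [h6] at h12
    have h9 : Real.exp (2 / T) ≤ Real.exp 2 := Real.exp_le_exp.2 hy2
    have h10 : 2 / T * Real.exp (2 / T) ≤ 2 / T * Real.exp 2 :=
      mul_le_mul_of_nonneg_left h9 hy0.le
    linarith
  have hcard : (P.card : ℝ) ≤ C * h / Real.log h := by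
    refine le_trans ?_ (hbt (Real.exp u) h heu.le hh2)
    have : P.card ≤ ((Finset.Ioc ⌊Real.exp u⌋₊ ⌊Real.exp u + h⌋₊).filter Nat.Prime).card := by
      apply Finset.card_le_card_of_injOn (fun p : Nat.Primes => (p : ℕ))
      · intro p hp
        have hp' := hP p hp
        have hp0 : (0 : ℝ) < ((p : ℕ) : ℝ) := Nat.cast_pos.2 p.2.pos
        simp only [Finset.coe_filter, Finset.mem_Ioc, Set.mem_ofPred_eq]
        refine ⟨⟨?_, ?_⟩, p.2⟩
        · rw [Nat.floor_lt heu.le]
          exact (Real.lt_log_iff_exp_lt hp0).1 hp'.1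
        · apply Nat.le_floor
          rw [hxh]
          exact (Real.log_le_iff_le_exp hp0).1 hp'.2
      · intro p _ q _ hpq
        exact Subtype.ext hpq
    exact_mod_cast this
  have hcard2 : (P.card : ℝ) ≤ C * (Real.exp u * (2 / T * Real.exp 2)) / (u / 2) := by
    refine hcard.trans ?_
    apply div_le_div₀ (by positivity) (mul_le_mul_of_nonneg_left hup hC.le) (by positivity) hlogh
  have hterm : ∀ p ∈ P, Real.log p / p ≤ (u + 2) / Real.exp u := by
    intro p hp
    have hp' := hP p hp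
    have hp0 : (0 : ℝ) < ((p : ℕ) : ℝ) := Nat.cast_pos.2 p.2.pos
    refine div_le_div₀ (by positivity) (by linarith) heu ?_
    exact ((Real.lt_log_iff_exp_lt hp0).1 hp'.1).le
  refine (Finset.sum_le_card_nsmul P _ _ hterm).trans ?_
  rw [nsmul_eq_mul]
  refine (mul_le_mul_of_nonneg_right hcard2 (by positivity)).trans ?_
  have hid : C * (Real.exp u * (2 / T * Real.exp 2)) / (u / 2) * ((u + 2) / Real.exp u) =
      4 * Real.exp 2 * C / T * ((u + 2) / u) := by
    field_simp
    ring
  rw [hid]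
  have h11 : (u + 2) / u ≤ 2 := by
    rw [div_le_iff₀ hu0]
    linarith
  have h12 : 0 ≤ 4 * Real.exp 2 * C / T := by positivity
  calc 4 * Real.exp 2 * C / T * ((u + 2) / u) ≤ 4 * Real.exp 2 * C / T * 2 :=
        mul_le_mul_of_nonneg_left h11 h12
    _ = 8 * Real.exp 2 * C / T := by ring

/-- The weights are summable over the integers. -/
theorem z7_summable : Summable (fun i : ℤ => Real.exp (-|(i : ℝ)| / 2)) := by
  have hg : Summable (fun n : ℕ => Real.exp (-(n : ℝ) / 2)) := by
    have h1 : (fun n : ℕ => Real.exp (-(n : ℝ) / 2)) = fun n : ℕ => (Real.exp (-(1 / 2))) ^ n := by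
      funext n
      rw [← Real.exp_nat_mul]
      congr 1
      ring
    rw [h1]
    apply summable_geometric_of_lt_one (Real.exp_pos _).le
    rw [Real.exp_lt_one_iff]
    norm_num
  apply Summable.of_nat_of_neg
  · simpa using hg
  · simpa using hg

/-- The Gaussian weight against the integer part. -/
theorem z7_weight (y : ℝ) : Real.exp (-y ^ 2 / 4) ≤
    Real.exp (3 / 4) * Real.exp (-|((⌊y⌋ : ℤ) : ℝ)| / 2) := by
  rw [← Real.exp_add]
  apply Real.exp_le_exp.2
  have h1 : |((⌊y⌋ : ℤ) : ℝ)| ≤ |y| + 1 := by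
    have h2 := Int.floor_le y
    have h3 := Int.lt_floor_add_one y
    rw [abs_le]
    constructor
    · have := neg_abs_le y
      linarith
    · have := le_abs_self y
      linarith
  have h4 : y ^ 2 = |y| ^ 2 := (sq_abs y).symm
  rw [h4]
  nlinarith [sq_nonneg (|y| - 1)]

/-- Z7 (file Zd/Window.lean). -/
theorem gauss_window : ∃ C U₀ : ℝ, 0 < C ∧ 0 < U₀ ∧ ∀ T U x : ℝ, 1 ≤ T →
    U₀ + 2 * Real.log T ≤ U → ∀ P : Finset Nat.Primes, (∀ p ∈ P, U < Real.log p) →
    ∑ p ∈ P, Real.log p / p * Real.exp (-((Real.log p - x) * T) ^ 2 / 4) ≤ C / T := by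
  obtain ⟨C, hC, hw⟩ := z7_window
  have hS0 : 0 ≤ ∑' i : ℤ, Real.exp (-|(i : ℝ)| / 2) := tsum_nonneg fun i => (Real.exp_pos _).le
  refine ⟨C * (Real.exp (3 / 4) * (∑' i : ℤ, Real.exp (-|(i : ℝ)| / 2) + 1)), 3, by positivity,
    by norm_num, ?_⟩
  intro T U x hT hU P hP
  have hT0 : 0 < T := by linarith
  have hlT : 0 ≤ Real.log T := Real.log_nonneg hT
  have hiT : 1 / T ≤ 1 := by
    rw [div_le_iff₀ hT0]
    linarith
  have hiT0 : 0 < 1 / T := by positivity
  obtain ⟨idx, hidx⟩ : ∃ idx : Nat.Primes → ℤ, ∀ p, idx p = ⌊(Real.log p - x) * T⌋ :=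
    ⟨_, fun _ => rfl⟩
  rw [← Finset.sum_fiberwise_of_maps_to (s := P) (t := P.image idx) (g := idx)
    (fun p hp => Finset.mem_image_of_mem _ hp)]
  have hin : ∀ i ∈ P.image idx, ∑ p ∈ P.filter (fun p => idx p = i),
      Real.log p / p * Real.exp (-((Real.log p - x) * T) ^ 2 / 4) ≤
      C / T * Real.exp (3 / 4) * Real.exp (-|(i : ℝ)| / 2) := by
    intro i _
    have h1 : ∀ p ∈ P.filter (fun p => idx p = i),
        Real.log p / p * Real.exp (-((Real.log p - x) * T) ^ 2 / 4) ≤
        Real.log p / p * (Real.exp (3 / 4) * Real.exp (-|(i : ℝ)| / 2)) := by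
      intro p hp
      have hp2 := (Finset.mem_filter.1 hp).2
      have h2 := z7_weight ((Real.log p - x) * T)
      rw [← hidx p, hp2] at h2
      refine mul_le_mul_of_nonneg_left h2 ?_
      have hp1 : (1 : ℝ) ≤ ((p : ℕ) : ℝ) := by exact_mod_cast p.2.pos
      exact div_nonneg (Real.log_nonneg hp1) (by linarith)
    refine (Finset.sum_le_sum h1).trans ?_
    rw [← Finset.sum_mul]
    have h3 : ∑ p ∈ P.filter (fun p => idx p = i), Real.log p / p ≤ C / T := by
      obtain ⟨v, hv⟩ : ∃ v : ℝ, v = max (x + i / T) U := ⟨_, rfl⟩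
      have hvU : U ≤ v := hv ▸ le_max_right _ _
      have hvx : x + i / T ≤ v := hv ▸ le_max_left _ _
      apply hw T (v - 1 / T) hT (by linarith)
      intro p hp
      obtain ⟨hp1, hp2⟩ := Finset.mem_filter.1 hp
      rw [hidx p] at hp2
      have h4 := Int.floor_le ((Real.log p - x) * T)
      have h5 := Int.lt_floor_add_one ((Real.log p - x) * T)
      rw [hp2] at h4 h5
      have h6 : x + i / T ≤ Real.log p := by
        have : (i : ℝ) / T ≤ Real.log p - x := (div_le_iff₀ hT0).2 h4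
        linarith
      have h7 : Real.log p < x + i / T + 1 / T := by
        have : Real.log p - x < ((i : ℝ) + 1) / T := (lt_div_iff₀ hT0).2 h5
        rw [add_div] at this
        linarith
      have h8 := hP p hp1
      have h9 : v ≤ Real.log p := hv ▸ max_le h6 h8.le
      have h10 : (2 : ℝ) / T = 1 / T + 1 / T := by ring
      constructor
      · linarith
      · rw [h10]
        linarith
    calc (∑ p ∈ P.filter (fun p => idx p = i), Real.log p / p) *
          (Real.exp (3 / 4) * Real.exp (-|(i : ℝ)| / 2)) ≤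
          C / T * (Real.exp (3 / 4) * Real.exp (-|(i : ℝ)| / 2)) :=
          mul_le_mul_of_nonneg_right h3 (by positivity)
      _ = C / T * Real.exp (3 / 4) * Real.exp (-|(i : ℝ)| / 2) := by ring
  refine (Finset.sum_le_sum hin).trans ?_
  rw [← Finset.mul_sum]
  have h11 : ∑ i ∈ P.image idx, Real.exp (-|(i : ℝ)| / 2) ≤
      ∑' i : ℤ, Real.exp (-|(i : ℝ)| / 2) :=
    z7_summable.sum_le_tsum _ fun i _ => (Real.exp_pos _).le
  calc C / T * Real.exp (3 / 4) * ∑ i ∈ P.image idx, Real.exp (-|(i : ℝ)| / 2) ≤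
        C / T * Real.exp (3 / 4) * (∑' i : ℤ, Real.exp (-|(i : ℝ)| / 2) + 1) :=
        mul_le_mul_of_nonneg_left (by linarith) (by positivity)
    _ = C * (Real.exp (3 / 4) * (∑' i : ℤ, Real.exp (-|(i : ℝ)| / 2) + 1)) / T := by ring

end Pool.Agent.MPfb225e.Zd
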