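import Mathlib
import Pool.Agent.Lib.MP_fb225e_nt.Zd.Trunc
import Pool.Agent.Lib.MP_fb225e_nt.Zd.Window
import Pool.Agent.Lib.MP_fb225e_nt.Zd.MeanValue

/-!
MP_fb225e_nt, project ZD: mean values of the prime sums.
-/

namespace Pool.Agent.MPfb225e.Zd

open Filter Topology Complex
open scoped Nat

theorem factorial_two_mul_le (q : ℕ) : ((2 * q) ! : ℝ) ≤ 4 ^ q * (q ! : ℝ) ^ 2 := by
  have h1 : (2 * q).choose q * q ! * (2 * q - q) ! = (2 * q) ! :=
    Nat.choose_mul_factorial_mul_factorial (by omega)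
  have h2 : 2 * q - q = q := by omega
  rw [h2] at h1
  have h3 : (2 * q).choose q ≤ 2 ^ (2 * q) := Nat.choose_le_two_pow _ _
  have h4 : ((2 * q).choose q : ℝ) ≤ 4 ^ q := by
    have h5 : ((2 * q).choose q : ℝ) ≤ 2 ^ (2 * q) := by exact_mod_cast h3
    rwa [pow_mul, show ((2 : ℝ) ^ 2) = 4 by norm_num] at h5
  have h6 : ((2 * q) ! : ℝ) = (2 * q).choose q * (q !) ^ 2 := by
    rw [← h1]
    push_cast
    ring
  rw [h6]
  exact mul_le_mul_of_nonneg_right h4 (by positivity)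

theorem log_pow_sq_le {η : ℝ} (hη : 0 < η) (q : ℕ) (p : Nat.Primes) :
    (Real.log p ^ q / q !) ^ 2 ≤ 4 ^ q * (η⁻¹) ^ (2 * q) * (p : ℝ) ^ η := by
  have h1 := log_pow_le hη (2 * q) p
  have h2 := factorial_two_mul_le q
  have hl : 0 ≤ Real.log p := Real.log_natCast_nonneg _
  have h3 : (Real.log p ^ q / q !) ^ 2 ≤ 4 ^ q * (Real.log p ^ (2 * q) / (2 * q) !) := by
    rw [div_pow, ← pow_mul, mul_comm q 2, ← mul_div_assoc, div_le_div_iff₀ (by positivity)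
      (by positivity)]
    calc Real.log p ^ (2 * q) * ((2 * q) ! : ℝ) ≤ Real.log p ^ (2 * q) * (4 ^ q * (q ! : ℝ) ^ 2) :=
          mul_le_mul_of_nonneg_left h2 (by positivity)
      _ = 4 ^ q * Real.log p ^ (2 * q) * (q ! : ℝ) ^ 2 := by ring
  refine h3.trans ?_
  rw [mul_assoc]
  exact mul_le_mul_of_nonneg_left h1 (by positivity)

/-- The mean square of the truncated prime sums. -/
theorem mean_psum (n : ℕ) : ∃ C₉ U₀ : ℝ, 0 < C₉ ∧ 0 < U₀ ∧ ∀ y : ℕ → ℝ, (∀ p, |y p| ≤ 2 * n) →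
    ∀ η : ℝ, 0 < η → η ≤ 1 → ∀ T U : ℝ, 1 ≤ T → U₀ + 2 * Real.log T ≤ U →
    ∀ P : Finset Nat.Primes, (∀ p ∈ P, U < Real.log p) → ∀ q : ℕ,
    ∫ t : ℝ in (-T)..T, ‖∑ p ∈ P, (bq y η q p : ℂ) * cexp (-(t * Real.log p : ℝ) * I)‖ ^ 2 ≤
      C₉ * 4 ^ q * (η⁻¹) ^ (2 * q + 1) := by
  obtain ⟨C, U₀, hC, hU₀, hwin⟩ := gauss_window
  obtain ⟨C₈, hC₈, hlp⟩ := sum_lp
  refine ⟨20 * n ^ 2 * C * C₈ + 1, U₀, by positivity, hU₀, ?_⟩
  intro y hy η hη hη1 T U hT hU P hP q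
  have hT0 : 0 < T := by linarith
  set w : Nat.Primes → ℝ := fun p => 2 * n * (Real.log p / p) with hw
  set j : Nat.Primes → ℝ := fun p => (p : ℝ) ^ (-η) * (Real.log p ^ q / q !) with hj
  have hw0 : ∀ p, 0 ≤ w p := fun p => by
    have : 0 ≤ Real.log p := Real.log_natCast_nonneg _
    rw [hw]; positivity
  have hj0 : ∀ p, 0 ≤ j p := fun p => by
    have : 0 ≤ Real.log p := Real.log_natCast_nonneg _
    rw [hj]; positivity
  have hlp' : ∀ p : Nat.Primes, Szf.lp η p = Real.log p / p * (p : ℝ) ^ (-η) := by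
    intro p
    have hp : (0 : ℝ) < (p : ℕ) := by exact_mod_cast p.2.pos
    unfold Szf.lp
    rw [neg_add, Real.rpow_add hp, Real.rpow_neg_one]
    ring
  have h1 := mean_value P (fun p : Nat.Primes => Real.log p) w j (fun p => (bq y η q p : ℂ)) T
    (2 * n * (C / T)) hT0 hw0 hj0 (fun p _ => by
      rw [Complex.norm_real, Real.norm_eq_abs]
      refine (abs_bq_le hy q p).trans (le_of_eq ?_)
      rw [hlp', hw, hj]
      ring) (fun i hi => by
      have h2 := hwin T U (Real.log i) hT hU P hP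
      have h3 : ∑ k ∈ P, w k * Real.exp (-((Real.log k - Real.log i) * T) ^ 2 / 4) =
          2 * n * ∑ k ∈ P, Real.log k / k * Real.exp (-((Real.log k - Real.log i) * T) ^ 2 / 4) := by
        rw [Finset.mul_sum]
        refine Finset.sum_congr rfl fun k _ => ?_
        rw [hw]
        ring
      rw [h3]
      exact mul_le_mul_of_nonneg_left h2 (by positivity))
  refine h1.trans ?_
  have h4 : ∑ p ∈ P, w p * j p ^ 2 ≤ 2 * n * (4 ^ q * (η⁻¹) ^ (2 * q)) * (C₈ / η) := by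
    have h5 : ∀ p ∈ P, w p * j p ^ 2 ≤ 2 * n * (4 ^ q * (η⁻¹) ^ (2 * q)) * Szf.lp η p := by
      intro p _
      have hp : (0 : ℝ) < (p : ℕ) := by exact_mod_cast p.2.pos
      have h6 := log_pow_sq_le hη q p
      have h7 : w p * j p ^ 2 =
          2 * n * (Real.log p / p) * ((p : ℝ) ^ (-η)) ^ 2 * (Real.log p ^ q / q !) ^ 2 := by
        rw [hw, hj]
        ring
      have hl : 0 ≤ Real.log p := Real.log_natCast_nonneg _
      rw [h7]
      calc 2 * n * (Real.log p / p) * ((p : ℝ) ^ (-η)) ^ 2 * (Real.log p ^ q / q !) ^ 2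
          ≤ 2 * n * (Real.log p / p) * ((p : ℝ) ^ (-η)) ^ 2 *
              (4 ^ q * (η⁻¹) ^ (2 * q) * (p : ℝ) ^ η) := mul_le_mul_of_nonneg_left h6 (by positivity)
        _ = 2 * n * (4 ^ q * (η⁻¹) ^ (2 * q)) * (Real.log p / p * (p : ℝ) ^ (-η)) *
              ((p : ℝ) ^ (-η) * (p : ℝ) ^ η) := by ring
        _ = _ := by
            rw [← Real.rpow_add hp, neg_add_cancel, Real.rpow_zero, mul_one, hlp']
    refine (Finset.sum_le_sum h5).trans ?_
    rw [← Finset.mul_sum]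
    refine mul_le_mul_of_nonneg_left ?_ (by positivity)
    exact ((Szf.summable_lp hη).sum_le_tsum P fun p _ => Szf.lp_nonneg η p).trans (hlp η hη hη1)
  calc 5 * T * (2 * n * (C / T)) * ∑ p ∈ P, w p * j p ^ 2
      ≤ 5 * T * (2 * n * (C / T)) * (2 * n * (4 ^ q * (η⁻¹) ^ (2 * q)) * (C₈ / η)) :=
        mul_le_mul_of_nonneg_left h4 (by positivity)
    _ = 20 * n ^ 2 * (T * (C / T)) * C₈ * 4 ^ q * ((η⁻¹) ^ (2 * q) * η⁻¹) := by
        rw [div_eq_mul_inv C₈ η]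
        ring
    _ = 20 * n ^ 2 * C * C₈ * 4 ^ q * (η⁻¹) ^ (2 * q + 1) := by
        have e : T * (C / T) = C := by field_simp
        rw [e, pow_succ η⁻¹]
    _ ≤ (20 * n ^ 2 * C * C₈ + 1) * 4 ^ q * (η⁻¹) ^ (2 * q + 1) := by
        gcongr
        linarith

end Pool.Agent.MPfb225e.Zd
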