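import Mathlib
import Pool.Agent.Lib.MP_fb225e_nt.Zd.MeanSum

/-!
MP_fb225e_nt, project ZD: counting the zeros.
-/

namespace Pool.Agent.MPfb225e.Zd

open Filter Topology Complex MeasureTheory
open scoped Nat

/-- Counting of zeros by an integral. -/
theorem count_zeros {F : ℂ → ℂ} (hF : Differentiable ℂ F) {η T : ℝ} (hη : 0 < η) (hη1 : 4 * η ≤ 1)
    (hT : 0 ≤ T) (m : ℕ) {Φ : ℝ → ℝ} (hΦ : Continuous Φ) (hΦ0 : ∀ t, 0 ≤ Φ t)
    (hcount : ∀ t : ℝ, |t| ≤ T + 1 / 2 → ∀ S : Finset ℂ,
      (∀ x ∈ S, 3 / 2 - η ≤ x.re ∧ |x.im - t| ≤ η) → ∑ x ∈ S, analyticOrderNatAt F x ≤ m)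
    (hdet : ∀ t : ℝ, |t| ≤ T + 1 / 2 → ∀ x : ℂ, 3 / 2 - η ≤ x.re → |x.im - t| ≤ η → F x = 0 →
      1 ≤ Φ t) (S : Finset ℂ) (hS : ∀ x ∈ S, 3 / 2 - η ≤ x.re ∧ |x.im| ≤ T) :
    η * ∑ x ∈ S, (analyticOrderNatAt F x : ℝ) ≤ m * ∫ t in (-(T + 1))..(T + 1), Φ t := by
  classical
  set S' : Finset ℂ := S.filter fun x => F x = 0 with hS'
  have h1 : ∑ x ∈ S, (analyticOrderNatAt F x : ℝ) = ∑ x ∈ S', (analyticOrderNatAt F x : ℝ) := by
    rw [hS', Finset.sum_filter]
    refine Finset.sum_congr rfl fun x _ => ?_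
    split_ifs with h
    · rfl
    · rw [order_eq_zero hF h, Nat.cast_zero]
  set R : ℕ := ⌊2 * T / η⌋₊ + 1 with hR
  set idx : ℂ → ℕ := fun x => ⌊(x.im + T) / η⌋₊ with hidx
  have hmaps : ∀ x ∈ S', idx x ∈ Finset.range R := by
    intro x hx
    have hx' := (hS x (Finset.mem_filter.1 hx).1).2
    rw [abs_le] at hx'
    rw [Finset.mem_range, hR, hidx]
    refine Nat.lt_succ_of_le (Nat.floor_le_floor ?_)
    exact div_le_div_of_nonneg_right (by linarith [hx'.2]) hη.le
  have hRη : R * η ≤ 2 * T + η := by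
    rw [hR]
    push_cast
    have h2 : (⌊2 * T / η⌋₊ : ℝ) ≤ 2 * T / η := Nat.floor_le (by positivity)
    rw [le_div_iff₀ hη] at h2
    linarith
  set a : ℕ → ℝ := fun i => -T + i * η with ha
  have hint : ∀ u v : ℝ, IntervalIntegrable Φ volume u v := fun u v => hΦ.intervalIntegrable u v
  have hcell : ∀ i ∈ Finset.range R,
      η * ∑ x ∈ S'.filter (fun x => idx x = i), (analyticOrderNatAt F x : ℝ) ≤
        m * ∫ t in (a i)..(a (i + 1)), Φ t := by
    intro i hi
    have hai : a (i + 1) - a i = η := by rw [ha]; push_cast; ring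
    have hle : a i ≤ a (i + 1) := by linarith
    have hnn : 0 ≤ ∫ t in (a i)..(a (i + 1)), Φ t :=
      intervalIntegral.integral_nonneg hle fun t _ => hΦ0 t
    rw [Finset.mem_range] at hi
    have hiR : (i : ℝ) + 1 ≤ R := by exact_mod_cast hi
    have hrange : ∀ t ∈ Set.Icc (a i) (a (i + 1)), |t| ≤ T + 1 / 2 := by
      intro t ht
      have h2 : a (i + 1) ≤ T + η := by
        rw [ha]
        push_cast
        nlinarith
      have h3 : -T ≤ a i := by
        rw [ha]
        have : (0 : ℝ) ≤ i * η := by positivity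
        simp only
        linarith
      rw [abs_le]
      constructor <;> linarith [ht.1, ht.2]
    by_cases hemp : (S'.filter fun x => idx x = i).Nonempty
    · have hx : ∀ x ∈ S'.filter (fun x => idx x = i), a i ≤ x.im ∧ x.im ≤ a (i + 1) := by
        intro x hx
        rw [Finset.mem_filter] at hx
        have hx' := (hS x (Finset.mem_filter.1 hx.1).1).2
        rw [abs_le] at hx'
        have h2 : (i : ℝ) ≤ (x.im + T) / η := by
          rw [← hx.2, hidx]
          exact Nat.floor_le (div_nonneg (by linarith [hx'.1]) hη.le)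
        have h3 : (x.im + T) / η < i + 1 := by
          rw [← hx.2, hidx]
          exact Nat.lt_floor_add_one _
        rw [le_div_iff₀ hη] at h2
        rw [div_lt_iff₀ hη] at h3
        rw [ha]
        push_cast
        constructor <;> linarith
      have h4 : ∑ x ∈ S'.filter (fun x => idx x = i), analyticOrderNatAt F x ≤ m := by
        refine hcount (a i) (hrange _ ⟨le_rfl, hle⟩) _ fun x hx2 => ?_
        obtain ⟨h5, h6⟩ := hx x hx2
        rw [Finset.mem_filter] at hx2
        refine ⟨(hS x (Finset.mem_filter.1 hx2.1).1).1, ?_⟩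
        rw [abs_le]
        constructor <;> linarith
      obtain ⟨x, hx0⟩ := hemp
      obtain ⟨h5, h6⟩ := hx x hx0
      rw [Finset.mem_filter] at hx0
      have hx3 := (Finset.mem_filter.1 hx0.1)
      have h7 : ∀ t ∈ Set.Icc (a i) (a (i + 1)), 1 ≤ Φ t := by
        intro t ht
        refine hdet t (hrange t ht) x (hS x hx3.1).1 ?_ hx3.2
        rw [abs_le]
        constructor <;> linarith [ht.1, ht.2]
      have h8 : η ≤ ∫ t in (a i)..(a (i + 1)), Φ t := by
        have h9 : ∫ _t in (a i)..(a (i + 1)), (1 : ℝ) ≤ ∫ t in (a i)..(a (i + 1)), Φ t :=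
          intervalIntegral.integral_mono_on hle (by simp) (hint _ _) h7
        rw [intervalIntegral.integral_const, smul_eq_mul, mul_one, hai] at h9
        exact h9
      have h10 : (∑ x ∈ S'.filter (fun x => idx x = i), (analyticOrderNatAt F x : ℝ)) ≤ m := by
        exact_mod_cast h4
      calc η * ∑ x ∈ S'.filter (fun x => idx x = i), (analyticOrderNatAt F x : ℝ) ≤ η * m :=
            mul_le_mul_of_nonneg_left h10 hη.le
        _ = m * η := mul_comm _ _
        _ ≤ _ := mul_le_mul_of_nonneg_left h8 (Nat.cast_nonneg _)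
    · rw [Finset.not_nonempty_iff_eq_empty] at hemp
      rw [hemp, Finset.sum_empty, mul_zero]
      positivity
  have h2 : ∑ x ∈ S', (analyticOrderNatAt F x : ℝ) =
      ∑ i ∈ Finset.range R, ∑ x ∈ S'.filter (fun x => idx x = i), (analyticOrderNatAt F x : ℝ) :=
    (Finset.sum_fiberwise_of_maps_to hmaps _).symm
  rw [h1, h2, Finset.mul_sum]
  refine (Finset.sum_le_sum hcell).trans ?_
  rw [← Finset.mul_sum]
  refine mul_le_mul_of_nonneg_left ?_ (Nat.cast_nonneg _)
  rw [intervalIntegral.sum_integral_adjacent_intervals fun i _ => hint _ _]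
  have ha0 : a 0 = -T := by rw [ha]; simp
  have haR : a R ≤ T + 1 := by
    rw [ha]
    simp only
    linarith
  have haR0 : -T ≤ a R := by
    rw [ha]
    have : (0 : ℝ) ≤ R * η := by positivity
    simp only
    linarith
  rw [ha0]
  refine intervalIntegral.integral_mono_interval (by linarith) haR0 haR ?_ (hint _ _)
  exact Eventually.of_forall fun t => hΦ0 t

end Pool.Agent.MPfb225e.Zd
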