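import Mathlib
import Pool.Agent.Lib.MP_fb225e_nt.Zd.Count

/-!
MP_fb225e_nt, project ZD: the zero density theorem.
-/

namespace Pool.Agent.MPfb225e.Zd

open Filter Topology Complex MeasureTheory
open NumberField IsDedekindDomain
open scoped Nat

universe u

/-- The density theorem for widths between `1/Λ` and `c δ`. -/
theorem density_aux (n : ℕ) : ∃ C C₇ : ℝ, 0 < C ∧ 1 ≤ C₇ ∧ ∀ (K : Type u) [Field K] [NumberField K]
    (W : WeierstrassCurve K), Module.finrank ℚ K = n → ∀ (F : ℂ → ℂ), Differentiable ℂ F →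
    (∀ s : ℂ, 3 / 2 < s.re → F s = W.LSeries s) →
    ∀ (δ T M : ℝ), 0 < δ → δ ≤ 1 / 2 → 0 ≤ T → 2 ≤ M →
    (∀ s : ℂ, 3 / 2 - δ ≤ s.re → |s.im| ≤ T + 1 → ‖F s‖ ≤ M) →
    ∀ η : ℝ, 0 < η → C₇ * η ≤ δ → ∀ S : Finset ℂ, (∀ x ∈ S, 3 / 2 - η ≤ x.re ∧ |x.im| ≤ T) →
    ∑ x ∈ S, (analyticOrderNatAt F x : ℝ) ≤ Real.exp (C * (1 + η * (Zfr.Lg M T δ / δ))) := by
  classical
  obtain ⟨A, C₆, C₇, hA, hC₆, hC₇, hdet⟩ := detect.{u} n
  obtain ⟨κ₁, hκ₁, htrunc⟩ := trunc n A hA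
  obtain ⟨C₉, U₀, hC₉, hU₀, hmean⟩ := mean_psum n
  have hA0 : 0 < A := by linarith
  set C' : ℝ := C₆ + (1 + U₀) / κ₁ + 1 with hC'
  have hC'0 : 1 ≤ C' := by
    have : 0 < (1 + U₀) / κ₁ := by positivity
    linarith
  -- the final constant
  set B : ℝ := 1296 * A ^ 2 with hB
  have hB1 : 1 ≤ B := by
    rw [hB]
    nlinarith
  set C : ℝ := (C' + 1) * (Real.log (144 * C₉ + 1) + 2 + Real.log B) with hC
  have hlog1 : 0 ≤ Real.log (144 * C₉ + 1) := Real.log_nonneg (by linarith)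
  have hlog2 : 0 ≤ Real.log B := Real.log_nonneg hB1
  have hC0 : 0 < C := by positivity
  refine ⟨C, max C₇ 4, hC0, le_trans (by norm_num) (le_max_right _ _), ?_⟩
  intro K _ _ W hn F hF hFL δ T M hδ hδ1 hT hM hFM η hη hηδ S hS
  have h4η : 4 * η ≤ δ := (mul_le_mul_of_nonneg_right (le_max_right _ _) hη.le).trans hηδ
  have h7η : C₇ * η ≤ δ := (mul_le_mul_of_nonneg_right (le_max_left _ _) hη.le).trans hηδ
  obtain ⟨y, hy, hdet'⟩ := hdet K W hn
  have hLg := Zfr.two_le_Lg hδ hδ1 hT hM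
  set Lg := Zfr.Lg M T δ with hLgdef
  set Λ : ℝ := Lg / δ with hΛ
  have hΛ0 : 0 < Λ := by rw [hΛ]; positivity
  have h2Lg : 2 * Lg ≤ Λ := by
    rw [hΛ, le_div_iff₀ hδ]
    nlinarith
  have hbase : 1 ≤ 1 + η * Λ := by
    have : 0 ≤ η * Λ := by positivity
    linarith
  set m : ℕ := ⌈C' * (1 + η * Λ)⌉₊ with hm
  have hm1 : C' * (1 + η * Λ) ≤ m := Nat.le_ceil _
  have hm2 : (m : ℝ) ≤ (C' + 1) * (1 + η * Λ) := by
    have := Nat.ceil_lt_add_one (a := C' * (1 + η * Λ)) (by positivity)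
    rw [← hm] at this
    nlinarith
  have hmpos : 1 ≤ m := by
    rw [hm, Nat.one_le_ceil_iff]
    positivity
  have hm6 : C₆ * (1 + η * Λ) ≤ m := by
    refine le_trans (mul_le_mul_of_nonneg_right ?_ (by linarith)) hm1
    have : 0 < (1 + U₀) / κ₁ := by positivity
    linarith
  obtain ⟨P, hP1, hP2⟩ := htrunc y hy η hη (by linarith) m hmpos
  -- the truncation point
  have hU : U₀ + 2 * Real.log (T + 1) ≤ κ₁ * m / η := by
    rw [le_div_iff₀ hη]
    have h1 : Real.log (T + 1) ≤ Lg := by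
      rw [hLgdef]
      unfold Zfr.Lg
      refine Real.log_le_log (by linarith) ?_
      rw [le_div_iff₀ hδ]
      nlinarith
    have h2 : (1 + U₀) * (η * Λ) ≤ κ₁ * m := by
      have h3 : (1 + U₀) / κ₁ * (η * Λ) ≤ m := by
        refine le_trans ?_ hm1
        have h4 : (1 + U₀) / κ₁ ≤ C' := by linarith
        have h5 : η * Λ ≤ 1 + η * Λ := by linarith
        exact mul_le_mul h4 h5 (by positivity) (by positivity)
      rw [div_mul_eq_mul_div, div_le_iff₀ hκ₁] at h3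
      linarith
    have h3 : (U₀ + 2 * Real.log (T + 1)) * η ≤ (1 + U₀) * (η * Λ) := by
      have h4 : U₀ + 2 * Real.log (T + 1) ≤ (1 + U₀) * Λ := by nlinarith
      calc (U₀ + 2 * Real.log (T + 1)) * η ≤ ((1 + U₀) * Λ) * η :=
            mul_le_mul_of_nonneg_right h4 hη.le
        _ = _ := by ring
    linarith
  -- the function
  set f : ℕ → ℝ → ℂ := fun q t =>
    ∑ p ∈ P, (bq y η q p : ℂ) * cexp (-(t * Real.log p : ℝ) * I) with hf
  have hfc : ∀ q, Continuous (f q) := by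
    intro q
    rw [hf]
    fun_prop
  set cf : ℕ → ℝ := fun q => 16 * (A ^ 2) ^ m * (3 * η) ^ (2 * (q + 1)) with hcf
  have hcf0 : ∀ q, 0 ≤ cf q := fun q => by rw [hcf]; positivity
  set Φ : ℝ → ℝ := fun t => ∑ q ∈ Finset.Ico m (2 * m), cf q * ‖f q t‖ ^ 2 with hΦ
  have hΦc : Continuous Φ := by
    rw [hΦ]
    refine continuous_finset_sum _ fun q _ => ?_
    exact continuous_const.mul ((hfc q).norm.pow 2)
  have hΦ0 : ∀ t, 0 ≤ Φ t := fun t => Finset.sum_nonneg fun q _ => mul_nonneg (hcf0 q) (sq_nonneg _)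
  have hmain := count_zeros hF hη (by linarith) hT m hΦc hΦ0
    (fun t ht => (hdet' F hF hFL δ T M hδ hδ1 hT hM hFM η hη h7η m hm6 t ht).1) ?_ S hS
  swap
  · intro t ht x hx1 hx2 hx0
    obtain ⟨q, hq1, hq2, hq3⟩ :=
      (hdet' F hF hFL δ T M hδ hδ1 hT hM hFM η hη h7η m hm6 t ht).2 x hx1 hx2 hx0
    have h1 := hP2 q hq1 hq2 t
    have h2 : 1 / 4 * A⁻¹ ^ m * ((3 * η)⁻¹) ^ (q + 1) ≤ ‖f q t‖ := by
      have e : 1 / 2 * A⁻¹ ^ m * ((3 * η)⁻¹) ^ (q + 1) =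
          1 / 4 * A⁻¹ ^ m * ((3 * η)⁻¹) ^ (q + 1) + 1 / 4 * A⁻¹ ^ m * ((3 * η)⁻¹) ^ (q + 1) := by
        ring
      linarith
    have h3 : 1 ≤ cf q * ‖f q t‖ ^ 2 := by
      have h4 : (1 / 4 * A⁻¹ ^ m * ((3 * η)⁻¹) ^ (q + 1)) ^ 2 ≤ ‖f q t‖ ^ 2 :=
        pow_le_pow_left₀ (by positivity) h2 2
      have h5 : cf q * (1 / 4 * A⁻¹ ^ m * ((3 * η)⁻¹) ^ (q + 1)) ^ 2 = 1 := by
        have e1 : cf q = (4 * A ^ m * (3 * η) ^ (q + 1)) ^ 2 := by
          have e3 : (A ^ 2) ^ m = (A ^ m) ^ 2 := by rw [← pow_mul, ← pow_mul, mul_comm]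
          have e4 : (3 * η) ^ (2 * (q + 1)) = ((3 * η) ^ (q + 1)) ^ 2 := by
            rw [← pow_mul, mul_comm 2]
          rw [hcf]
          simp only
          rw [e3, e4]
          ring
        rw [e1, ← mul_pow]
        have e2 : 4 * A ^ m * (3 * η) ^ (q + 1) * (1 / 4 * A⁻¹ ^ m * ((3 * η)⁻¹) ^ (q + 1)) = 1 := by
          rw [inv_pow, inv_pow]
          field_simp
        rw [e2, one_pow]
      calc (1 : ℝ) = cf q * (1 / 4 * A⁻¹ ^ m * ((3 * η)⁻¹) ^ (q + 1)) ^ 2 := h5.symm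
        _ ≤ _ := mul_le_mul_of_nonneg_left h4 (hcf0 q)
    refine h3.trans ?_
    exact Finset.single_le_sum (f := fun q => cf q * ‖f q t‖ ^ 2)
      (fun q _ => mul_nonneg (hcf0 q) (sq_nonneg _)) (Finset.mem_Ico.2 ⟨hq1, by omega⟩)
  -- the integral
  have hint : ∫ t in (-(T + 1))..(T + 1), Φ t ≤ η * (144 * C₉ * m * B ^ m) := by
    have hi : ∀ q ∈ Finset.Ico m (2 * m),
        IntervalIntegrable (fun t => cf q * ‖f q t‖ ^ 2) volume (-(T + 1)) (T + 1) := fun q _ =>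
      (Continuous.mul continuous_const ((hfc q).norm.pow 2)).intervalIntegrable _ _
    have e0 : ∫ t in (-(T + 1))..(T + 1), Φ t =
        ∑ q ∈ Finset.Ico m (2 * m), ∫ t in (-(T + 1))..(T + 1), cf q * ‖f q t‖ ^ 2 := by
      rw [hΦ]
      exact intervalIntegral.integral_finset_sum hi
    rw [e0]
    have hq : ∀ q ∈ Finset.Ico m (2 * m), ∫ t in (-(T + 1))..(T + 1), cf q * ‖f q t‖ ^ 2 ≤
        η * (144 * C₉ * B ^ m) := by
      intro q hq
      rw [Finset.mem_Ico] at hq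
      rw [intervalIntegral.integral_const_mul]
      have h1 := hmean y hy η hη (by linarith) (T + 1) (κ₁ * m / η) (by linarith) hU P hP1 q
      have h2 : cf q * (∫ t in (-(T + 1))..(T + 1), ‖f q t‖ ^ 2) ≤
          cf q * (C₉ * 4 ^ q * (η⁻¹) ^ (2 * q + 1)) := mul_le_mul_of_nonneg_left h1 (hcf0 q)
      refine h2.trans ?_
      have h3 : cf q * (C₉ * 4 ^ q * (η⁻¹) ^ (2 * q + 1)) =
          η * (144 * C₉ * ((A ^ 2) ^ m * 36 ^ q)) := by
        rw [hcf]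
        simp only
        have e1 : (3 * η) ^ (2 * (q + 1)) = 9 * 9 ^ q * η ^ (2 * q + 1) * η := by
          rw [mul_pow, pow_mul, show ((3 : ℝ) ^ 2) = 9 by norm_num, pow_succ 9,
            show 2 * (q + 1) = (2 * q + 1) + 1 by ring, pow_succ η (2 * q + 1)]
          ring
        have e2 : (36 : ℝ) ^ q = 9 ^ q * 4 ^ q := by
          rw [← mul_pow]
          norm_num
        have e3 : η ^ (2 * q + 1) * (η⁻¹) ^ (2 * q + 1) = 1 := by
          rw [← mul_pow, mul_inv_cancel₀ hη.ne', one_pow]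
        rw [e1, e2]
        calc 16 * (A ^ 2) ^ m * (9 * 9 ^ q * η ^ (2 * q + 1) * η) *
              (C₉ * 4 ^ q * (η⁻¹) ^ (2 * q + 1))
            = (η ^ (2 * q + 1) * (η⁻¹) ^ (2 * q + 1)) *
                (η * (144 * C₉ * ((A ^ 2) ^ m * (9 ^ q * 4 ^ q)))) := by ring
          _ = _ := by rw [e3, one_mul]
      rw [h3]
      have h4 : (A ^ 2) ^ m * 36 ^ q ≤ B ^ m := by
        have h5 : (36 : ℝ) ^ q ≤ 1296 ^ m := by
          calc (36 : ℝ) ^ q ≤ 36 ^ (2 * m) := pow_le_pow_right₀ (by norm_num) (by omega)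
            _ = 1296 ^ m := by rw [pow_mul]; norm_num
        calc (A ^ 2) ^ m * 36 ^ q ≤ (A ^ 2) ^ m * 1296 ^ m :=
              mul_le_mul_of_nonneg_left h5 (by positivity)
          _ = B ^ m := by rw [hB, ← mul_pow, mul_comm]
      gcongr
    refine (Finset.sum_le_sum hq).trans ?_
    rw [Finset.sum_const, Nat.card_Ico, nsmul_eq_mul]
    have e : ((2 * m - m : ℕ) : ℝ) = m := by
      congr 1
      omega
    rw [e]
    exact le_of_eq (by ring)
  have hfin : ∑ x ∈ S, (analyticOrderNatAt F x : ℝ) ≤ m * (144 * C₉ * m * B ^ m) := by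
    have h1 : η * ∑ x ∈ S, (analyticOrderNatAt F x : ℝ) ≤ η * (m * (144 * C₉ * m * B ^ m)) := by
      refine hmain.trans ?_
      have := mul_le_mul_of_nonneg_left hint (Nat.cast_nonneg (α := ℝ) m)
      calc _ ≤ (m : ℝ) * (η * (144 * C₉ * m * B ^ m)) := this
        _ = _ := by ring
    exact le_of_mul_le_mul_left h1 hη
  refine hfin.trans ?_
  have hmexp : (m : ℝ) ≤ Real.exp m := by
    have := Real.add_one_le_exp (m : ℝ)
    linarith
  have h1 : (m : ℝ) * (144 * C₉ * m * B ^ m) ≤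
      Real.exp (m * (Real.log (144 * C₉ + 1) + 2 + Real.log B)) := by
    have h2 : Real.exp (m * (Real.log (144 * C₉ + 1) + 2 + Real.log B)) =
        (144 * C₉ + 1) ^ m * (Real.exp m * Real.exp m) * B ^ m := by
      have e1 : (144 * C₉ + 1) ^ m = Real.exp (m * Real.log (144 * C₉ + 1)) := by
        rw [Real.exp_nat_mul, Real.exp_log (by positivity)]
      have e2 : B ^ m = Real.exp (m * Real.log B) := by
        rw [Real.exp_nat_mul, Real.exp_log (by positivity)]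
      rw [e1, e2, ← Real.exp_add, ← Real.exp_add, ← Real.exp_add]
      congr 1
      ring
    rw [h2]
    have h3 : 144 * C₉ ≤ (144 * C₉ + 1) ^ m := by
      have h4 : (144 * C₉ + 1) ^ 1 ≤ (144 * C₉ + 1) ^ m :=
        pow_le_pow_right₀ (by linarith) hmpos
      rw [pow_one] at h4
      linarith
    calc (m : ℝ) * (144 * C₉ * m * B ^ m) = 144 * C₉ * (m * m) * B ^ m := by ring
      _ ≤ (144 * C₉ + 1) ^ m * (Real.exp m * Real.exp m) * B ^ m := by gcongr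
  refine h1.trans (Real.exp_le_exp.2 ?_)
  rw [hC]
  calc (m : ℝ) * (Real.log (144 * C₉ + 1) + 2 + Real.log B)
      ≤ ((C' + 1) * (1 + η * Λ)) * (Real.log (144 * C₉ + 1) + 2 + Real.log B) :=
        mul_le_mul_of_nonneg_right hm2 (by linarith)
    _ = _ := by ring

/-- **Log-free zero density estimate near the edge.** -/
theorem density (n : ℕ) : ∃ C : ℝ, 0 < C ∧ ∀ (K : Type u) [Field K] [NumberField K]
    (W : WeierstrassCurve K), Module.finrank ℚ K = n → ∀ (F : ℂ → ℂ), Differentiable ℂ F →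
    (∀ s : ℂ, 3 / 2 < s.re → F s = W.LSeries s) →
    ∀ (δ T M : ℝ), 0 < δ → δ ≤ 1 / 2 → 0 ≤ T → 2 ≤ M →
    (∀ s : ℂ, 3 / 2 - δ ≤ s.re → |s.im| ≤ T + 1 → ‖F s‖ ≤ M) →
    ∀ lam : ℝ, 0 ≤ lam → C * lam ≤ δ → ∀ S : Finset ℂ,
    (∀ x ∈ S, 3 / 2 - lam ≤ x.re ∧ |x.im| ≤ T) →
    ∑ x ∈ S, (analyticOrderNatAt F x : ℝ) ≤ Real.exp (C * (1 + lam * (Zfr.Lg M T δ / δ))) := by
  obtain ⟨C, C₇, hC, hC₇, h⟩ := density_aux.{u} n
  refine ⟨max (3 * C) C₇, by positivity, ?_⟩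
  intro K _ _ W hn F hF hFL δ T M hδ hδ1 hT hM hFM lam hlam hlamδ S hS
  have h7 : C₇ * lam ≤ δ := (mul_le_mul_of_nonneg_right (le_max_right _ _) hlam).trans hlamδ
  set M' : ℝ := M * Real.exp C₇ with hM'
  have hexp1 : 1 ≤ Real.exp C₇ := Real.one_le_exp (by linarith)
  have hMM' : M ≤ M' := le_mul_of_one_le_right (by linarith) hexp1
  have hM'2 : 2 ≤ M' := hM.trans hMM'
  have hLg := Zfr.two_le_Lg hδ hδ1 hT hM
  have hLg' : Zfr.Lg M' T δ = Zfr.Lg M T δ + C₇ := by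
    unfold Zfr.Lg
    have e : M' * (T + 2) / δ = (M * (T + 2) / δ) * Real.exp C₇ := by rw [hM']; ring
    rw [e, Real.log_mul (by positivity) (by positivity), Real.log_exp]
  set Λ := Zfr.Lg M T δ / δ with hΛ
  set Λ' := Zfr.Lg M' T δ / δ with hΛ'
  have hΛ0 : 0 < Λ := by rw [hΛ]; positivity
  have hΛ'eq : Λ' = Λ + C₇ / δ := by rw [hΛ', hLg', add_div]
  have hΛ'0 : 0 < Λ' := by
    rw [hΛ'eq]
    positivity
  set η : ℝ := max lam (1 / Λ') with hη
  have hη0 : 0 < η := lt_of_lt_of_le (by positivity) (le_max_right _ _)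
  have hηδ : C₇ * η ≤ δ := by
    rw [hη, mul_max_of_nonneg _ _ (by linarith)]
    refine max_le h7 ?_
    rw [mul_one_div, div_le_iff₀ hΛ'0, hΛ'eq]
    have e : δ * (Λ + C₇ / δ) = δ * Λ + C₇ := by field_simp
    rw [e]
    have : 0 < δ * Λ := by positivity
    linarith
  have h1 := h K W hn F hF hFL δ T M' hδ hδ1 hT hM'2
    (fun s hs hs' => (hFM s hs hs').trans hMM') η hη0 hηδ S (fun x hx => by
      obtain ⟨h2, h3⟩ := hS x hx
      have : lam ≤ η := le_max_left _ _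
      exact ⟨by linarith, h3⟩)
  refine h1.trans (Real.exp_le_exp.2 ?_)
  have h2 : η * Λ' ≤ 1 + (lam * Λ + 1) := by
    have h3 : η * Λ' ≤ lam * Λ' + 1 / Λ' * Λ' := by
      rw [← add_mul]
      refine mul_le_mul_of_nonneg_right (max_le ?_ ?_) hΛ'0.le
      · have : 0 < 1 / Λ' := by positivity
        linarith
      · linarith
    have h4 : 1 / Λ' * Λ' = 1 := by field_simp
    have h5 : lam * Λ' ≤ lam * Λ + 1 := by
      rw [hΛ'eq, mul_add]
      have h6 : lam * (C₇ / δ) ≤ 1 := by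
        rw [mul_div_assoc', div_le_one hδ]
        linarith
      linarith
    linarith
  have h3 : 0 ≤ lam * Λ := by positivity
  calc C * (1 + η * Λ') ≤ C * (3 + lam * Λ) := mul_le_mul_of_nonneg_left (by linarith) hC.le
    _ ≤ 3 * C * (1 + lam * Λ) := by nlinarith
    _ ≤ max (3 * C) C₇ * (1 + lam * Λ) := mul_le_mul_of_nonneg_right (le_max_left _ _) (by linarith)

end Pool.Agent.MPfb225e.Zd
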